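import Pool.Agent.Helper61.P3.Defs1

/-!
# Project P3 (MP_cb927e_an): interface statements, part 1 (grids on the line; stopped averages; the local ridge theorem)

Every statement is a `Prop` proved in a module of its own; complete proofs are in the docstrings.
Statements of project RG (`StPT`, `StRID`, `StPAR`, `StRA`, `StRB`, ...) are proved, see Pool/Agent/Helper20/RG/Asm.lean (namespace
`Pool.Agent.Helper20.RG`, theorems `pPT`, ...).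
-/

set_option autoImplicit false

open MeasureTheory Set Filter Topology
open scoped ENNReal RealInnerProductSpace

namespace Pool.Agent.Helper61.P3

open Pool.Agent.Helper68.LM (Pl BB Bd Av HL ft fm DQ)
open Pool.Agent.Helper20.RG
open Pool.Agent.Helper20.EQ
open Pool.Agent.Helper68.EP (elt GapP)

/-! ## Grids on the line -/

/-- GR (about 150 lines), grids.  `x = (t - κ a)/2^a`, `⌊x⌋ ≤ x < ⌊x⌋ + 1`: `t ∈ Ia κ a t`.  `r ∈ Ia κ a t` means `⌊(r - κ a)/2^a⌋ = ⌊(t - κ a)/2^a⌋`.  Nested: by induction it is enough that `Ia κ a t ⊆ Ia κ (a+1) t`: with `κ (a+1) = κ a + n 2^a`,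
`(r - κ (a+1))/2^(a+1) = ((r - κ a)/2^a - n)/2`, and `⌊(x - n)/2⌋` only depends on `⌊x⌋` (`Int.floor_div..`, or `⌊(x-n)/2⌋ = ⌊(⌊x⌋ - n)/2⌋ = (⌊x⌋ - n) / 2` integer division).  `lft` is measurable (`Int.measurable_floor`).  `gk i o`: `gk i o (a+1) - gk i o a = i (-2)^a (-2-1)/3 = - i (-2)^a = ± i 2^a`.
Last clause (the one third trick): the end points of the intervals of scale `a` of the two grids are `o + n 2^a` and `o + n 2^a + (-2)^a/3`, i.e. `o + 2^a ℤ` and `o ± 2^a/3 + 2^a ℤ`: two end points of different grids have distance at least `2^a/3`.  If an interval `[x, x + 5·2^b]` is contained in no interval of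
scale `a = b + 4` of the first grid, then it contains (in its interior or at its right end) an end point of the first grid in `(x, x + 5·2^b]`, and the same for the second grid; the distance of these two points is `≤ 5·2^b < 2^a/3 = (16/3) 2^b`, a contradiction.  Hypotheses: none. -/
def StGR : Prop :=
  (∀ κ : ℤ → ℝ, Gr κ → ∀ (a : ℤ) (t : ℝ), t ∈ Ia κ a t ∧ MeasurableSet (Ia κ a t) ∧
    volume (Ia κ a t) = ENNReal.ofReal ((2 : ℝ) ^ a) ∧ Measurable (lft κ a) ∧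
    (∀ r ∈ Ia κ a t, lft κ a r = lft κ a t ∧ Ia κ a r = Ia κ a t) ∧
    ∀ b : ℤ, a ≤ b → Ia κ a t ⊆ Ia κ b t) ∧
  (∀ (i : ℕ) (o : ℝ), Gr (gk i o)) ∧
  ∀ (o x : ℝ) (b : ℤ), ∃ i < 2, Icc x (x + 5 * (2 : ℝ) ^ b) ⊆ Ia (gk i o) (b + 4) x

/-- GA (about 250 lines), averages.  `Ed κ a β` is constant on the intervals of scale `a` (GR), measurable (a function of `lft κ a`: countably many values on measurable sets; or `∫ r in x..x+2^a, β r` is continuous in `x` and `lft` is measurable).  Tower: `Ia κ b t` is the disjoint union of the `2^(b-a)` intervals of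
scale `a` contained in it (GR), on each of them `Ed κ a β` is constant with the same integral as `β`; by induction on `b - a` it is enough to do the case `b = a + 1`, two halves.  Self adjointness on `Ia κ b t`: the same decomposition, on an interval of scale `a` both sides are `2^(-a) (∫ β)(∫ ψ)`.  Global version: for `β` integrable
(`β = 0` outside a bounded interval), `ψ` bounded, sum over the intervals of scale `a` (`β` and `Ed κ a β` vanish outside a bounded interval, so the plane is replaced by a large interval of scale `b ≥ a` if there is one, or by two of them; or write `ℝ` as the disjoint union of the intervals `[κ a + n 2^a, ..)`, `integral_iUnion`).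
Hypotheses: hGR. -/
def StGA : Prop :=
  ∀ κ : ℤ → ℝ, Gr κ → ∀ (β : ℝ → ℝ) (M : ℝ) (a : ℤ), Measurable β → (∀ t, |β t| ≤ M) →
    Measurable (Ed κ a β) ∧ (∀ t, |Ed κ a β t| ≤ M) ∧ (∀ t, ∀ r ∈ Ia κ a t, Ed κ a β r = Ed κ a β t) ∧
    ((∀ t, 0 ≤ β t) → ∀ t, 0 ≤ Ed κ a β t) ∧
    (∀ (β' : ℝ → ℝ) (M' : ℝ), Measurable β' → (∀ t, |β' t| ≤ M') → (∀ t, β t ≤ β' t) → ∀ t, Ed κ a β t ≤ Ed κ a β' t) ∧
    (∀ (β' : ℝ → ℝ) (M' x y : ℝ), Measurable β' → (∀ t, |β' t| ≤ M') → ∀ t,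
      Ed κ a (fun r => x * β r + y * β' r) t = x * Ed κ a β t + y * Ed κ a β' t) ∧
    (∀ b : ℤ, a ≤ b → ∀ t, Ed κ b (Ed κ a β) t = Ed κ b β t) ∧
    (∀ (ψ : ℝ → ℝ) (M' : ℝ), Measurable ψ → (∀ t, |ψ t| ≤ M') → ∀ b : ℤ, a ≤ b → ∀ t,
      Ed κ b (fun r => Ed κ a β r * ψ r) t = Ed κ b (fun r => β r * Ed κ a ψ r) t) ∧
    (Integrable β → ∀ (ψ : ℝ → ℝ) (M' : ℝ), Measurable ψ → (∀ t, |ψ t| ≤ M') →
      Integrable (Ed κ a β) ∧ ∫ t, Ed κ a β t * ψ t = ∫ t, β t * Ed κ a ψ t) ∧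
    ∫⁻ t, ENNReal.ofReal |Ed κ a β t| ≤ ∫⁻ t, ENNReal.ofReal |β t|

/-- GJ (about 150 lines), concavity.  For `x, μ ≥ 0`: `Tc μ + (x-μ)/(1+μ)² - Tc x = (x-μ)²/((1+μ)²(1+x)) ≥ (Tc x - Tc μ)² = (x-μ)²/((1+x)²(1+μ)²)` (field_simp, ring).  With `μ = Ed κ a β t` (constant on `Ia κ a t`) and `x = β r`, average over `r ∈ Ia κ a t`: the second clause, and the first one follows.
`0 ≤ Tc x ≤ min(x, 1)`, `|Tc x - Tc y| ≤ |x - y|`, monotone: `Tc x - Tc y = (x-y)/((1+x)(1+y))`.  Hypotheses: hGR, hGA. -/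
def StGJ : Prop :=
  (∀ x y : ℝ, 0 ≤ x → 0 ≤ y → 0 ≤ Tc x ∧ Tc x ≤ x ∧ Tc x ≤ 1 ∧ |Tc x - Tc y| ≤ |x - y| ∧ (x ≤ y → Tc x ≤ Tc y) ∧
    Tc x - (x - y) / (1 + y) ^ 2 ≤ Tc y ∧
    Tc y + (x - y) / (1 + y) ^ 2 - Tc x = (x - y) ^ 2 / ((1 + y) ^ 2 * (1 + x)) ∧
    (x ≤ 1 → y ≤ 1 → |x - y| ≤ 4 * |Tc x - Tc y|)) ∧
  ∀ κ : ℤ → ℝ, Gr κ → ∀ (β : ℝ → ℝ) (M : ℝ) (a : ℤ), Measurable β → (∀ t, 0 ≤ β t ∧ β t ≤ M) → ∀ t,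
    Ed κ a (fun r => Tc (β r)) t ≤ Tc (Ed κ a β t) ∧
    Ed κ a (fun r => (Tc (β r) - Tc (Ed κ a β t)) ^ 2) t ≤
      Tc (Ed κ a β t) - Ed κ a (fun r => Tc (β r)) t

/-- GE (about 200 lines), the energy density.  `X_a = Γ Ed κ a β`; `Ed κ ℓ X_a = X_ℓ` (tower).  `0 ≤ en`: GJ for `X_a` at scale `ℓ`.  `en ≤ Tc X_ℓ ≤ Γ Ed κ ℓ β`.  Monotone: for `a ≤ a' ≤ ℓ`: `Tc X_a' ≥ Ed κ a' (Tc X_a)` (GJ for `X_a` at scale `a'`, `Ed κ a' X_a = X_a'`), apply `Ed κ ℓ` and the tower.  Additivity: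
`en a ℓ = en a' ℓ + Ed κ ℓ (en a a')` (tower).  Lipschitz: `|Tc (Γ x) - Tc (Γ y)| ≤ Γ |x - y|` and `|Ed κ a β - Ed κ a β'| ≤ Ed κ a |β - β'|`, tower.  `en` is measurable and constant on the intervals of scale `ℓ`.  Hypotheses: hGR, hGA, hGJ. -/
def StGE : Prop :=
  ∀ κ : ℤ → ℝ, Gr κ → ∀ (β : ℝ → ℝ) (Γ : ℝ) (a ℓ : ℤ), Measurable β → (∀ t, 0 ≤ β t ∧ β t ≤ 1) → 0 ≤ Γ → a ≤ ℓ →
    Measurable (en κ Γ a ℓ β) ∧ (∀ t, 0 ≤ en κ Γ a ℓ β t ∧ en κ Γ a ℓ β t ≤ Γ * Ed κ ℓ β t ∧ en κ Γ a ℓ β t ≤ 1) ∧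
    (∀ t, ∀ r ∈ Ia κ ℓ t, en κ Γ a ℓ β r = en κ Γ a ℓ β t) ∧
    (∀ a' : ℤ, a ≤ a' → a' ≤ ℓ → ∀ t, en κ Γ a' ℓ β t ≤ en κ Γ a ℓ β t ∧
      en κ Γ a ℓ β t = en κ Γ a' ℓ β t + Ed κ ℓ (en κ Γ a a' β) t) ∧
    ∀ β' : ℝ → ℝ, Measurable β' → (∀ t, 0 ≤ β' t ∧ β' t ≤ 1) → ∀ t,
      |en κ Γ a ℓ β t - en κ Γ a ℓ β' t| ≤ 2 * Γ * Ed κ ℓ (fun r => |β r - β' r|) t

/-- STP (about 350 lines), the stopped averages.  `X_a t = Γ Ed κ a β t`.  For `n : ℕ` define `h_n`: if `X_p t ≥ 1` then `h_n t = 1`; otherwise, if `X_a t ≥ 1` for some `a` with `p - n ≤ a < p`, then `h_n t = X_σ t` for the largest such `a = σ`; otherwise `h_n t = X_(p-n) t`.  (Recursively: `h_0 = min 1 X_p`, and `h_(n+1) t = h_n t` if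
`∃ a, p - n ≤ a ≤ p, X_a t ≥ 1`, otherwise `h_(n+1) t = X_(p-n-1) t`.)  `h_n` is constant on the intervals of scale `p - n`, `0 ≤ h_n ≤ 2` (`X_(σ+1) t < 1` and `Ed κ σ β ≤ 2 Ed κ (σ+1) β` as the intervals are nested and `β ≥ 0`).  (i) `Ed κ (p-n) h_(n+1) = h_n`: on an interval `I` of scale `p - n` either some `X_a ≥ 1`, `a ≥ p - n`
(then `h_(n+1) = h_n` is constant on `I`), or `h_(n+1) = X_(p-n-1)` on `I` and its average is `X_(p-n) = h_n`.  (ii) `h = lim h_n` exists: eventually constant if some `X_a t ≥ 1`, otherwise `X_a t → Γ β t` as `a → -∞` (`β` continuous, `t ∈ Ia κ a t`).  Dominated convergence and the tower: `Ed κ (p-n) h = h_n`.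
(h1) if `X_a t ≥ 1`, `a ≤ p`, then `h t ≥ 1` by definition.  (h2) `Ed κ p h = h_0 ≤ X_p`, tower.  (h3) `a = p - n`, `Ed κ a h = h_n`, `f = Ed κ ℓ h = Ed κ ℓ h_0` (constant on the intervals of scale `ℓ`), `(h_n - f)² ≤ 2 (h_n - h_0)² + 2 (h_0 - f)²`.
First part: CLAIM `Ed κ p ((h_n - h_0)²) ≤ 12 en κ Γ a p β`.  If `X_p t ≥ 1` the left side is `0`.  Otherwise `μ = h_0 t = X_p t < 1`, `h_n ≤ 2`, `Ed κ p h_n t = μ`, and by GJ (seventh formula with `y = μ`, `x = h_n r`, `(1+μ)²(1+x) ≤ 12`) `(h_n - μ)² ≤ 12 (Tc μ + (h_n - μ)/(1+μ)² - Tc h_n)`; average: `≤ 12 (Tc X_p - Ed κ p (Tc h_n))`.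
It remains `Ed κ p (Tc h_n) t ≥ Ed κ p (Tc X_a) t`: for `i = n, .., 0` and every `t` with `X_b t < 1` for all `p - i < b ≤ p`: `Ed κ (p-i) (Tc h_n) t ≥ Ed κ (p-i) (Tc X_a) t`.  For `i = n`, `h_n = X_(p-n)` on `Ia κ (p-n) t`.  Step `i+1 → i`: if `X_(p-i) t ≥ 1` then `h_n = X_(p-i) t` on `Ia κ (p-i) t`, and GJ for `X_a` at scale `p-i`; if not, all
`r ∈ Ia κ (p-i) t` satisfy the assumption for `i + 1`, and take `Ed κ (p-i)` (tower).  Second part: `Ed κ ℓ ((h_0 - f)²) ≤ Ed κ ℓ ((h_0 - min 1 X_ℓ)²)` (`f` is the average of `h_0`), `|min 1 X_p - min 1 X_ℓ| ≤ 4 |Tc X_p - Tc X_ℓ|` (GJ, `Tc` increasing), so it is at most `16 en κ Γ p ℓ β` (GJ).  GE: `en a ℓ = en p ℓ + Ed κ ℓ (en a p)`.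
Total `24 + 32 ≤ 100`.  Support: if `β = 0` outside `[-K, K]` then `h = 0` outside `[-K - 2^p, K + 2^p]`.  Hypotheses: hGR, hGA, hGJ, hGE. -/
def StSTP : Prop :=
  ∀ κ : ℤ → ℝ, Gr κ → ∀ (β : ℝ → ℝ) (Γ : ℝ) (p : ℤ), Continuous β → HasCompactSupport β →
    (∀ t, 0 ≤ β t ∧ β t ≤ 1) → 1 ≤ Γ →
    ∃ h : ℝ → ℝ, Measurable h ∧ (∀ t, 0 ≤ h t ∧ h t ≤ 2) ∧ (∃ K : ℝ, ∀ t, K < |t| → h t = 0) ∧
      (∀ a : ℤ, a ≤ p → ∀ t, 1 ≤ Γ * Ed κ a β t → 1 ≤ h t) ∧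
      (∀ ℓ : ℤ, p ≤ ℓ → ∀ t, Ed κ ℓ h t ≤ Γ * Ed κ ℓ β t) ∧
      ∀ a ℓ : ℤ, a ≤ p → p ≤ ℓ → ∀ t,
        Ed κ ℓ (fun r => (Ed κ a h r - Ed κ ℓ h r) ^ 2) t ≤ 100 * en κ Γ a ℓ β t

/-- CVR (about 120 lines), the cover.  `F` open, `F ⊆ {1/2 < β}`, `I` as in RA of project RG (each `dI a`, `a ∈ I`, has `2^(a.1)/Γ ≤ |F ∩ dI a|`).  Let `t ∈ Om I`, `t ∈ dI5 a`, `a ∈ I`, `a.1 ≤ p`.  `dI5 a = [x, x + 5·2^(a.1)]`, `x = (a.2 - 2) 2^(a.1)`; by GR there is `i < 2` with `dI5 a ⊆ Q = Ia (gk i o) (a.1+4) x = Ia (gk i o) (a.1+4) t`.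
`∫_Q β ≥ (1/2) |F ∩ dI a| ≥ 2^(a.1)/(2Γ) = |Q|/(32 Γ)`, so `32 Γ Ed (gk i o) (a.1+4) β t ≥ 1`, `a.1 + 4 ≤ p + 4`: by (h1) `1 ≤ h i t`.  Hypotheses: hGR. -/
def StCVR : Prop :=
  ∀ (β : ℝ → ℝ) (F : Set ℝ) (Γ o : ℝ) (p : ℤ) (I : Set (ℤ × ℤ)) (h : ℕ → ℝ → ℝ), Continuous β →
    (∀ t, 0 ≤ β t ∧ β t ≤ 1) → IsOpen F → (∀ t ∈ F, 1 / 2 < β t) → 1 ≤ Γ →
    (∀ a ∈ I, a.1 ≤ p ∧ ENNReal.ofReal ((2 : ℝ) ^ a.1 / Γ) ≤ volume (F ∩ dI a)) →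
    (∀ i < 2, ∀ t, 0 ≤ h i t) →
    (∀ i < 2, ∀ a : ℤ, a ≤ p + 4 → ∀ t, 1 ≤ 32 * Γ * Ed (gk i o) a β t → 1 ≤ h i t) →
    ∀ t, ind (Om I) t ≤ h 0 t + h 1 t

/-! ## Pairs of ridge functions -/

/-- SMA (about 300 lines), pairs.  The map `y ↦ (ρ, σ) = (pr s y, pr s' y)` is linear with determinant `±(s - s')` (compare PAR, SM1 of project RG, modules of `StPAR`, `StSM1`), `y 0 = (ρ - σ)/(s' - s)`, `y 1 = σ + s' y 0`.  So the integral is `(1/|s-s'|) ∫ K σ (∫ ψ_σ(ρ) (h ρ - Ed κ a h ρ) dρ) dσ`, `ψ_σ(ρ) = cut z L₂ y`.  By GA (self adjointness; `ψ_σ`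
is continuous with compact support, so the roles of `β` and `ψ` in GA are: `β = ψ_σ`, `ψ = h`) the inner integral is `∫ h (ψ_σ - Ed κ a ψ_σ)`.  `ψ_σ` is Lipschitz with constant `2/(L₂ |s-s'|)` (`c1` is 1-Lipschitz with values in `[0,1]`, `|dy 0/dρ| = 1/|s-s'|`, `|dy 1/dρ| ≤ 1/|s-s'|`), so `|ψ_σ - Ed κ a ψ_σ| ≤ 2·2^a/(L₂ |s-s'|)`, and it vanishes
at `ρ` unless some `ρ'` with `|ρ - ρ'| ≤ 2^a` has `ψ_σ(ρ') ≠ 0`, i.e. the point `y'` of coordinates `(ρ', σ)` is in `Sq z (2 L₂)`; then the first coordinate of the point `y` of coordinates `(ρ, σ)` satisfies `|y 0 - z 0| ≤ 2 L₂ + 2^a/|s-s'| ≤ 3 L₂`, and `|ρ - pr s z| ≤ 4 L₂ + 2^a ≤ 6 L₂` (`2^a ≤ L₂ |s-s'| ≤ 2 L₂`).  For fixed `ρ` the measure of the `σ`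
with `|y 0 - z 0| ≤ 3 L₂` is `6 L₂ |s-s'|`.  So the absolute value is at most `(1/|s-s'|) · 4 · (2·2^a/(L₂ |s-s'|)) · 6 L₂ |s-s'| · ∫_{|ρ - pr s z| ≤ 6 L₂} h = 48 (2^a/|s-s'|) ∫ h`.  Hypotheses: hPT (RG), hGR, hGA. -/
def StSMA : Prop :=
  ∀ (s s' : ℝ) (κ : ℤ → ℝ) (a : ℤ) (z : Pl) (L₂ : ℝ) (h K : ℝ → ℝ), |s| ≤ 1 → |s'| ≤ 1 → Gr κ → 0 < L₂ →
    (2 : ℝ) ^ a ≤ L₂ * |s - s'| → Measurable h → (∀ t, 0 ≤ h t ∧ h t ≤ 2) → Measurable K → (∀ t, |K t| ≤ 4) →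
    |∫ y : Pl, cut z L₂ y * ((h (pr s y) - Ed κ a h (pr s y)) * K (pr s' y))| ≤
      100 * ((2 : ℝ) ^ a / |s - s'|) * ∫ t in Icc (pr s z - 6 * L₂) (pr s z + 6 * L₂), h t

/-- SMB (about 120 lines), one ridge function `K`, `0 ≤ cut ≤ 1` is supported in `Sq z (2 L₂)`, where `|y 0 - z 0| ≤ 2 L₂` and `|pr s y - pr s z| ≤ 4 L₂`: Fubini with `y 1 = ρ + s y 0` (compare SM2 of project RG).  Second clause: let `a ≤ a' ≤ ℓ`, `2^ℓ ≤ L₂`, `E_b = Ed κ b h`.  `Ed κ ℓ ((E_a' - E_ℓ)²) ≤ Ed κ ℓ ((E_a - E_ℓ)²)`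
(`E_a' - E_ℓ = Ed κ a' (E_a - E_ℓ)` and Jensen or Pythagoras: `Ed κ ℓ ((E_a - E_a')(E_a' - E_ℓ)) = 0` by GA); the intervals of scale `ℓ` which meet `[pr z - 4 L₂, pr z + 4 L₂]` are contained in `[pr z - 5 L₂, pr z + 5 L₂]`, on each of them the integral of `(E_a' - E_ℓ)²` is at most that of `(E_a - E_ℓ)²`.
Third: `0 ≤ E_b ≤ 2`, so `(E_a - E_ℓ)² ≤ 2 |E_a - E_ℓ| ≤ 2 (E_a + E_ℓ)`, and `∫_{|ρ - pr z| ≤ 5 L₂} E_b ≤ ∫_{|ρ - pr z| ≤ 6 L₂} h` for `2^b ≤ L₂` (whole intervals).  Hypotheses: hPT, hGR, hGA. -/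
def StSMB : Prop :=
  (∀ (s L₂ : ℝ) (z : Pl) (K : ℝ → ℝ), |s| ≤ 1 → 0 < L₂ → Measurable K →
    ∫⁻ y : Pl, ENNReal.ofReal (cut z L₂ y * K (pr s y) ^ 2) ≤
      ENNReal.ofReal (4 * L₂) * ∫⁻ t in Icc (pr s z - 4 * L₂) (pr s z + 4 * L₂), ENNReal.ofReal (K t ^ 2)) ∧
  ∀ (κ : ℤ → ℝ) (h : ℝ → ℝ) (x L₂ : ℝ) (a a' ℓ : ℤ), Gr κ → Measurable h → (∀ t, 0 ≤ h t ∧ h t ≤ 2) → a ≤ a' →
    a' ≤ ℓ → (2 : ℝ) ^ ℓ ≤ L₂ →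
    ∫⁻ t in Icc (x - 4 * L₂) (x + 4 * L₂), ENNReal.ofReal ((Ed κ a' h t - Ed κ ℓ h t) ^ 2) ≤
      ∫⁻ t in Icc (x - 5 * L₂) (x + 5 * L₂), ENNReal.ofReal ((Ed κ a h t - Ed κ ℓ h t) ^ 2) ∧
    ∫⁻ t in Icc (x - 5 * L₂) (x + 5 * L₂), ENNReal.ofReal ((Ed κ a h t - Ed κ ℓ h t) ^ 2) ≤
      4 * ∫⁻ t in Icc (x - 6 * L₂) (x + 6 * L₂), ENNReal.ofReal (h t) ∧
    ∫⁻ t in Icc (x - 4 * L₂) (x + 4 * L₂), ENNReal.ofReal ((h t - Ed κ ℓ h t) ^ 2) ≤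
      4 * ∫⁻ t in Icc (x - 6 * L₂) (x + 6 * L₂), ENNReal.ofReal (h t)

/-- VAR (about 350 lines), the variance.  `H_j y = h_j(pr y) - Ed κ_j ℓ h_j(pr y)`, `GG - PG = ∑ H_j`.  Expand the square (bounded functions with compact support).  Let `v_j = ∫_{|t - pr z| ≤ 6 L₂} h_j`.
(1) Pairs with `|s - s'| > 2^(-i₀)`: SMA with `a = ℓ`, `K = H_j'` (`2^ℓ ≤ 2^(-2 i₀) L₂ ≤ L₂ |s - s'|`): at most `100·2^ℓ 2^(i₀) v_j`; at most `N` partners, `N 2^ℓ 2^(i₀) ≤ L₂`: total `100 L₂ ∑ v_j`.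
(2) Pairs with `s_j = s_j'` (also `j = j'`): `|∫ cut H_j H_j'| ≤ (1/2) ∫ cut (H_j² + H_j'²)`, SMB (first and last): `∫ cut H_j² ≤ 16 L₂ v_j`; the relation is symmetric and every `j` has at most `2^(v₀)` partners (`cnt` for `v = v₀`, `|s_j - s_j'| = 0`).
(3) Pairs with `0 < |s_j - s_j'| ≤ 2^(-i₀)`: `A = Aa s_j s_j'`, `2^(-A) ≤ |s_j - s_j'| < 2^(1-A)`, `A ≥ i₀ ≥ 1` (`|s_j - s_j'| ≤ 1/2`).  `a = k - A`, `E_b^j = Ed κ_j b h_j`: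
`∫ cut H_j H_j' = ∫ cut (h_j - E_a^j) H_j' + ∫ cut (E_a^j - E_ℓ^j)(h_j' - E_a^j') + ∫ cut (E_a^j - E_ℓ^j)(E_a^j' - E_ℓ^j')`.  The first two: SMA (for the second with the roles of `j`, `j'` exchanged, `K = E_a^j - E_ℓ^j`), `2^a = 2^(k-A) ≤ 2^k |s_j - s_j'| ≤ L₂ |s_j - s_j'|`: at most `100·2^k (v_j + v_j')`; at most `N` partners, `N 2^k ≤ L₂`: total
`200 L₂ ∑ v_j`.  The third is at most `(1/2) (e_j(A) + e_j'(A))`, `e_j(A) = ∫ cut (E_(k-A)^j - E_ℓ^j)²`; by symmetry (`Aa s s' = Aa s' s`) the sum over the ordered pairs is at most `∑_j ∑_j' e_j(A(j,j'))`.  Fix `j`.  If `A ≤ W j v` for some `v ∈ [v₀, v₁]` let `v` be the largest one; then `W j (v+1) < A` (also if `v = v₁`, as `W j (v₁+1) = 0 < A`), so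
`|s_j - s_j'| < 2^(1-A) ≤ 2^(-W j (v+1))`: at most `2^(v+1)` partners for given `v`, and `i₀ ≤ A ≤ W j v`, `e_j(A) ≤ 4 L₂ ∫_{|t - pr z| ≤ 5 L₂} (E_(k - W j v)^j - E_ℓ^j)²` (SMB, `k - W j v ≤ k - A ≤ ℓ`).  Otherwise `W j v₀ < A`, so `|s_j - s_j'| ≤ 2^(-W j v₀)`: at most `2^(v₀)` partners, `e_j(A) ≤ 16 L₂ v_j` (SMB).
Hypotheses: hPT, hGR, hGA, hSMA, hSMB. -/
def StVAR : Prop :=
  ∃ C : ℝ, 0 < C ∧ ∀ (N : ℕ) (s : ℕ → ℝ) (κ : ℕ → ℤ → ℝ) (h : ℕ → ℝ → ℝ) (z : Pl) (k ℓ : ℤ) (L₂ : ℝ)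
    (i₀ v₀ v₁ : ℕ) (W : ℕ → ℕ → ℕ),
    (∀ j < N, |s j| ≤ 1 ∧ Gr (κ j) ∧ Measurable (h j) ∧ (∀ t, 0 ≤ h j t ∧ h j t ≤ 2) ∧
      ∃ K : ℝ, ∀ t, K < |t| → h j t = 0) →
    0 < L₂ → 1 ≤ i₀ → k ≤ ℓ → (N : ℝ) * (2 : ℝ) ^ ℓ ≤ (2 : ℝ) ^ (-(2 * (i₀ : ℤ))) * L₂ → (2 : ℝ) ^ ℓ ≤ L₂ →
    (N : ℝ) * (2 : ℝ) ^ k ≤ L₂ → (2 : ℝ) ^ ℓ ≤ (2 : ℝ) ^ (-(2 * (i₀ : ℤ))) * L₂ → (2 : ℝ) ^ k ≤ L₂ → v₀ ≤ v₁ + 1 →
    (∀ j < N, ∀ v : ℕ, v₀ ≤ v → v ≤ v₁ + 1 →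
      ({j' : ℕ | j' < N ∧ |s j - s j'| ≤ (2 : ℝ) ^ (-(W j v : ℤ))}.ncard : ℝ) ≤ (2 : ℝ) ^ v) →
    (∀ j < N, W j (v₁ + 1) = 0) →
    ∫⁻ y : Pl, ENNReal.ofReal (cut z L₂ y * (GG N s h y - PG N s κ ℓ h y) ^ 2) ≤
      ENNReal.ofReal (C * (2 : ℝ) ^ v₀ * L₂) * (∑ j ∈ Finset.range N,
        ∫⁻ t in Icc (pr (s j) z - 6 * L₂) (pr (s j) z + 6 * L₂), ENNReal.ofReal (h j t)) +
      ENNReal.ofReal (C * L₂) * ∑ j ∈ Finset.range N, ∑ v ∈ Finset.Icc v₀ v₁, (if i₀ ≤ W j v then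
        ENNReal.ofReal ((2 : ℝ) ^ v) * ∫⁻ t in Icc (pr (s j) z - 5 * L₂) (pr (s j) z + 5 * L₂),
          ENNReal.ofReal ((Ed (κ j) (k - (W j v : ℤ)) (h j) t - Ed (κ j) ℓ (h j) t) ^ 2) else 0)

/-! ## The local ridge theorem -/

/-- RF1 (about 300 lines): as `StRF1` of project RG (its module is imported in Pool/Agent/Helper20/RG/Asm.lean), steps (1), (2), (3) only, with a different set in the conclusion.  Copy that module and keep, for the parallelogram `{y | pr (s q.1) y ∈ dI a, pr (s q.2) y ∈ dI b}`, the two facts obtained in step (3):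
`y ∈ Sq x (L/50) ⊆ Sq z L₂` and `Gs N s I y ≥ (M-2)/6 ≥ 0.16 m`.  The second `Dens` hypothesis is not needed.  Hypotheses: hPT, hRID, hRB (RG). -/
def StRF1 : Prop :=
  ∀ (N : ℕ) (s : ℕ → ℝ) (Er : ℕ → Set Pl) (F : ℕ → Set ℝ) (I : ℕ → Set (ℤ × ℤ)) (z : Pl)
    (p : ℤ) (L L₂ α D m nst Γ : ℝ), RDat N s Er F I z p L L₂ α D m nst Γ →
    ∀ x ∈ Sq z (L₂ / 2), m ≤ ({j : ℕ | j < N ∧ pr (s j) x ∈ F j}.ncard : ℝ) →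
      Dens Er N x (2 * (2 : ℝ) ^ p) D →
      18 / 100 * m ^ 2 ≤ ({q : ℕ × ℕ | q.1 < N ∧ q.2 < N ∧ α < |s q.1 - s q.2| ∧
        ∃ a ∈ I q.1, ∃ b ∈ I q.2, pr (s q.1) x ∈ F q.1 ∩ dI a ∧ pr (s q.2) x ∈ F q.2 ∩ dI b ∧
          a.1 < p ∧ b.1 < p ∧
          {y : Pl | pr (s q.1) y ∈ dI a ∧ pr (s q.2) y ∈ dI b} ⊆
            {y : Pl | y ∈ Sq z L₂ ∧ y ∈ Sq x (L / 50) ∧ 16 / 100 * m ≤ Gs N s I y}}.ncard : ℝ)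

/-- RF2 (about 250 lines): as `StRF2` of project RG (module Pool/Agent/Helper20/RG/M_RF2.lean), with an arbitrary measurable set `H` instead of `Hs N s I z L L₂`; in that module `Hs` is only used as a measurable set which contains the parallelograms.  Hypotheses: hPT, hPAR (RG). -/
def StRF2 : Prop :=
  ∀ (N : ℕ) (s : ℕ → ℝ) (Er : ℕ → Set Pl) (F : ℕ → Set ℝ) (I : ℕ → Set (ℤ × ℤ)) (z : Pl)
    (p : ℤ) (L L₂ α D m nst Γ : ℝ), RDat N s Er F I z p L L₂ α D m nst Γ → ∀ R H : Set Pl, MeasurableSet H →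
    (∀ x ∈ R, 18 / 100 * m ^ 2 ≤ ({q : ℕ × ℕ | q.1 < N ∧ q.2 < N ∧ α < |s q.1 - s q.2| ∧
        ∃ a ∈ I q.1, ∃ b ∈ I q.2, pr (s q.1) x ∈ F q.1 ∩ dI a ∧ pr (s q.2) x ∈ F q.2 ∩ dI b ∧
          a.1 < p ∧ b.1 < p ∧
          {y : Pl | pr (s q.1) y ∈ dI a ∧ pr (s q.2) y ∈ dI b} ⊆ H}.ncard : ℝ)) →
      volume R ≤ ENNReal.ofReal (23 / (m ^ 2 * Γ ^ 2)) *
        ∫⁻ y in H, ENNReal.ofReal (Gs N s I y) ^ 2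

/-- PGB (about 200 lines), the averages near a good point.  `x ∈ Sq z (L₂/2)`, `y ∈ Sq x (2^ℓ/50)`: `|pr y - pr x| ≤ 2^ℓ/25`, so `Ia κ_j ℓ (pr y) ⊆ [pr x - 1.2·2^ℓ, pr x + 1.2·2^ℓ]`.  By assumption and as `β_j ≤ 1` on `F_j = {β_j > 0}`: `PG y ≤ Γ' ∑_j 2^(-ℓ) ∫_{Ia κ_j ℓ (pr y)} β_j ≤ Γ' 2^(-ℓ) ∑_j |F_j ∩ [pr x - 1.2·2^ℓ, pr x + 1.2·2^ℓ]|`.  RID
(RG) with `r = 5·2^ℓ/2`, `h = 1.3·2^ℓ`: `2.6·2^ℓ |F_j ∩ ..| ≤ vol {y' ∈ Sq x r | pr y' ∈ F_j} ≤ vol (Er j ∩ Sq x r)` (`Sq x r ⊆ Sq z (12 L₂)` as `2^ℓ ≤ L₂`), and the sum over `j` is at most `D r² = 6.25 D 4^ℓ`: `PG y ≤ 2.41 Γ' D`, `Γ' D = m/125`.  Hypotheses: hPT, hRID (RG), hGR, hGA. -/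
def StPGB : Prop :=
  ∀ (N : ℕ) (s : ℕ → ℝ) (κ : ℕ → ℤ → ℝ) (β h : ℕ → ℝ → ℝ) (Er : ℕ → Set Pl) (z x y : Pl) (ℓ : ℤ) (L₂ D m Γ' : ℝ),
    (∀ j < N, |s j| ≤ 1 ∧ Gr (κ j) ∧ Continuous (β j) ∧ (∀ t, 0 ≤ β j t ∧ β j t ≤ 1) ∧ Measurable (h j) ∧
      (∀ t, 0 ≤ h j t ∧ h j t ≤ 2) ∧ MeasurableSet (Er j)) →
    (∀ j < N, ∀ t, Ed (κ j) ℓ (h j) t ≤ Γ' * Ed (κ j) ℓ (β j) t) →
    (∀ j < N, ∀ y' ∈ Sq z (12 * L₂), 0 < β j (pr (s j) y') → y' ∈ Er j) →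
    0 < D → 0 < m → Γ' = m / (125 * D) → (2 : ℝ) ^ ℓ ≤ L₂ → x ∈ Sq z (L₂ / 2) → y ∈ Sq x ((2 : ℝ) ^ ℓ / 50) →
    Dens Er N x (5 * (2 : ℝ) ^ ℓ / 2) D → PG N s κ ℓ h y ≤ 2 / 100 * m

/-- ENC (about 250 lines), comparison of the energy of `β = lnf s b (z 0)` with the local energy in the plane.  For `|y₀ - z 0| ≤ L₂/2` and `|ρ - pr s z| ≤ 7 L₂` the points `pt y₀ (ρ + s y₀)` and `pt (z 0) (ρ + s z 0)` are in `Sq z (12 L₂)` with the same `pr s = ρ`: `|lnf s b y₀ ρ - β ρ| ≤ δ`, and it is `0` unless one of the two is positive, which implies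
`pt y₀ (ρ + s y₀) ∈ Er`.  GE (last clause): `∫_{|ρ - pr z| ≤ 6 L₂} en(β) ≤ ∫_{|ρ - pr z| ≤ 6 L₂} en(lnf s b y₀) + 2 Γ ∫_{|ρ - pr z| ≤ 6 L₂} Ed κ ℓ |β - lnf s b y₀| dρ`, and the last integral is at most `∫_{|ρ - pr z| ≤ 7 L₂} |β - lnf s b y₀| ≤ δ vol {ρ : |ρ - pr z| ≤ 7 L₂, pt y₀ (ρ + s y₀) ∈ Er}` (`2^ℓ ≤ L₂`, whole intervals of scale `ℓ`).  Integrate over
`|y₀ - z 0| ≤ L₂/2` (length `L₂`); `(y₀, ρ) ↦ pt y₀ (ρ + s y₀)` preserves the measure (PT and translation), with values in `Sq z (12 L₂)`.  Second clause: for `|ρ - pr z| ≤ 7 L₂` with `β ρ > 0` and `|y₀ - z 0| ≤ L₂/2` the point `pt y₀ (ρ + s y₀)` is in `Er ∩ Sq z (12 L₂)`; `β ≤ 1`.  Hypotheses: hPT (RG), hGR, hGA, hGE. -/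
def StENC : Prop :=
  ∀ (s : ℝ) (κ : ℤ → ℝ) (b : Pl → ℝ) (Er : Set Pl) (z : Pl) (a ℓ : ℤ) (L₂ Γ δ : ℝ), |s| ≤ 1 → Gr κ →
    Continuous b → (∀ y, 0 ≤ b y ∧ b y ≤ 1) → MeasurableSet Er → 0 < L₂ → 0 ≤ Γ → 0 ≤ δ → a ≤ ℓ → (2 : ℝ) ^ ℓ ≤ L₂ →
    (∀ y ∈ Sq z (12 * L₂), ∀ y' ∈ Sq z (12 * L₂), pr s y = pr s y' → (0 < b y → y' ∈ Er) ∧ |b y - b y'| ≤ δ) →
    ENNReal.ofReal L₂ * (∫⁻ ρ in Icc (pr s z - 6 * L₂) (pr s z + 6 * L₂),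
        ENNReal.ofReal (en κ Γ a ℓ (lnf s b (z 0)) ρ)) ≤
      LE s κ Γ a ℓ b z L₂ + ENNReal.ofReal (2 * Γ * δ) * volume (Er ∩ Sq z (12 * L₂)) ∧
    ENNReal.ofReal L₂ * (∫⁻ ρ in Icc (pr s z - 7 * L₂) (pr s z + 7 * L₂),
        ENNReal.ofReal (lnf s b (z 0) ρ)) ≤ volume (Er ∩ Sq z (12 * L₂))

/-- RDN (about 350 lines), the local ridge theorem.  If `R = ∅` nothing to prove (so `m ≤ N`).  `α = 2^(-i₀)`, `L = 2^ℓ`, `Γ = m/(4000 D) ≥ 1`, `Γ' = 32 Γ = m/(125 D)`.  `F j = pr (s j) '' (Et j ∩ interior (Sq z (5 L₂)))` is open (see RDG of project RG, module M_RDG); `β_j = lnf (s j) (b j) (z 0)` is continuous with compact support; for `ρ ∈ F j`, `ρ = pr y`,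
`y ∈ Et j ∩ Sq z (5 L₂)`, the point `pt (z 0) (ρ + s z 0)` is in `Sq z (12 L₂)` (second coordinate: `|y 1 - z 1| + |y 0 - z 0| ≤ 10 L₂`), so `β_j ρ > 1/2`, and every `y' ∈ Sq z (12 L₂)` with `pr y' ∈ F j` is in `Er j`.  `I j` from RA (RG).  `RDat N s Er F I z p L L₂ α (20 D) m nst Γ` holds (`Γ = m/(200·20 D)`).  `h j i` (`i < 2`) from STP for `β_j`,
`κ = gk i (o j)`, `Γ'`, top scale `p + 4 ≤ ℓ`.  CVR: `Gs N s I y ≤ GG (h · 0) y + GG (h · 1) y` for all `y`.  `H = {y ∈ Sq z L₂ | 0.16 m ≤ Gs y ∧ PG_0 y ≤ 0.02 m ∧ PG_1 y ≤ 0.02 m}` is measurable.  For `x ∈ R` RF1 (`Dens .. (20 D)` follows from `Dens .. D`) gives the pairs, and their parallelograms are contained in `H` by PGB (`y ∈ Sq x (L/50)`).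
RF2: `vol R ≤ (23/(m²Γ²)) ∫_H Gs²`.  On `H`: `Gs ≤ G_0 + G_1`, `PG_0 + PG_1 ≤ 0.04 m ≤ Gs/4`, so `Gs ≤ (4/3)((G_0 - PG_0) + (G_1 - PG_1))`, `Gs² ≤ 4 ∑_i (G_i - PG_i)²`, and `cut = 1` on `Sq z L₂`.  VAR for `i = 0, 1` (`κ j = gk i (o j)`).  Then: `∫_{|t - pr z| ≤ 6 L₂} h_j ≤ Γ' ∫_{|t - pr z| ≤ 7 L₂} β_j` (whole intervals of scale `ℓ`, STP (h2)), and ENC
(second clause): `L₂ ∫ h_j ≤ Γ' vol (Er j ∩ Sq z (12 L₂))`.  `∫_{|t - pr z| ≤ 5 L₂} (Ed a h - Ed ℓ h)² ≤ 100 ∫_{|t - pr z| ≤ 6 L₂} en(β_j)` (whole intervals of scale `ℓ`, STP (h3), `a = k - W j v ≤ p + 4`), and ENC (first clause).  Total: `(C/(m²Γ²)) [2^(v₀) Γ ∑_j vol (Er j ∩ ..) + ∑_j ∑_v 2^v (∑_i LE + 4 Γ' δ vol (Er j ∩ ..))]`,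
`∑_{v ≤ v₁} 2^v δ ≤ 2^(v₁+1) δ ≤ 1`, `1/(m²Γ) = 4000 D/m³`, `1/(m²Γ²) = 1.6·10^7 D²/m⁴`.  Hypotheses: hPT, hRID, hRA (RG), hGR, hGA, hGE, hSTP, hCVR, hVAR, hRF1, hRF2, hPGB, hENC. -/
def StRDN : Prop :=
  ∃ C : ℝ, 0 < C ∧ ∀ (N : ℕ) (s o : ℕ → ℝ) (b : ℕ → Pl → ℝ) (Et Er : ℕ → Set Pl) (z : Pl) (p ℓ k : ℤ)
    (L₂ D m nst δ : ℝ) (i₀ v₀ v₁ : ℕ) (W : ℕ → ℕ → ℕ) (R : Set Pl),
    (∀ j < N, |s j| ≤ 1 ∧ Continuous (b j) ∧ HasCompactSupport (b j) ∧ ∀ y, 0 ≤ b j y ∧ b j y ≤ 1) →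
    (∀ j < N, IsOpen (Et j) ∧ MeasurableSet (Er j)) →
    (∀ j < N, ∀ y ∈ Sq z (12 * L₂), ∀ y' ∈ Sq z (12 * L₂), pr (s j) y = pr (s j) y' →
      (y ∈ Et j → 1 / 2 < b j y') ∧ (0 < b j y → y' ∈ Er j) ∧ |b j y - b j y'| ≤ δ) →
    0 < L₂ → 1 ≤ i₀ → k ≤ p → p + 4 ≤ ℓ → 100 * (2 : ℝ) ^ p ≤ (2 : ℝ) ^ (-(i₀ : ℤ)) * (2 : ℝ) ^ ℓ →
    (N : ℝ) * (2 : ℝ) ^ ℓ ≤ (2 : ℝ) ^ (-(2 * (i₀ : ℤ))) * L₂ → (N : ℝ) * (2 : ℝ) ^ k ≤ L₂ →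
    (∀ j < N, ({j' : ℕ | j' < N ∧ |s j - s j'| ≤ (2 : ℝ) ^ (-(i₀ : ℤ))}.ncard : ℝ) ≤ nst) →
    v₀ ≤ v₁ + 1 → (∀ j < N, ∀ v : ℕ, v₀ ≤ v → v ≤ v₁ + 1 →
      ({j' : ℕ | j' < N ∧ |s j - s j'| ≤ (2 : ℝ) ^ (-(W j v : ℤ))}.ncard : ℝ) ≤ (2 : ℝ) ^ v) →
    (∀ j < N, W j (v₁ + 1) = 0) → 0 ≤ δ → (2 : ℝ) ^ (v₁ + 1) * δ ≤ 1 →
    200 * nst ≤ m → 1000 ≤ m → 0 < D → 4000 * D ≤ m → R ⊆ Sq z (L₂ / 2) →
    (∀ x ∈ R, m ≤ ({j : ℕ | j < N ∧ x ∈ Et j}.ncard : ℝ) ∧ Dens Er N x (2 * (2 : ℝ) ^ p) D ∧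
      Dens Er N x (5 * (2 : ℝ) ^ ℓ / 2) D) →
    volume R ≤ ENNReal.ofReal (C * D / m ^ 3 * (2 : ℝ) ^ v₀) *
        (∑ j ∈ Finset.range N, volume (Er j ∩ Sq z (12 * L₂))) +
      ENNReal.ofReal (C * D ^ 2 / m ^ 4) * ∑ j ∈ Finset.range N, ∑ v ∈ Finset.Icc v₀ v₁, (if i₀ ≤ W j v then
        ENNReal.ofReal ((2 : ℝ) ^ v) * ∑ i ∈ Finset.range 2,
          LE (s j) (gk i (o j)) (m / (125 * D)) (k - (W j v : ℤ)) ℓ (b j) z L₂ else 0)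

end Pool.Agent.Helper61.P3
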