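import Pool.Agent.Helper61.P3.Defs2

/-!
# Project P3 (MP_cb927e_an): the endpoint p = 3, definitions 3 (windows)
-/

set_option autoImplicit false

open MeasureTheory Set Filter Topology
open scoped ENNReal RealInnerProductSpace

namespace Pool.Agent.Helper61.P3

open Pool.Agent.Helper68.LM (Pl BB Bd Av HL ft fm DQ)
open Pool.Agent.Helper20.RG
open Pool.Agent.Helper20.EQ
open Pool.Agent.Helper68.EP (elt GapP)

/-- the windows: `qw U i`, `i < U/10`, decreasing; the lengths are `2^(k + 32 qw U i)` -/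
def qw (U i : ℕ) : ℕ := 2 ^ (U / 8 - 5 - i)

/-- the window `q` is good at `x`: density at most `D` in the three squares -/
def GW (c : Pl) (φ τ : ℝ → ℝ) (u q : ℕ) (η D : ℝ) (k : ℤ) (g : Pl → ℝ) (x : Pl) : Prop :=
  Dens (Ez c φ τ u (32 * q) η k g) (2 ^ u) x (2 * (2 : ℝ) ^ (k + 20 * (q : ℤ))) D ∧
  Dens (Ez c φ τ u (32 * q) η k g) (2 ^ u) x (5 * (2 : ℝ) ^ (k + 24 * (q : ℤ)) / 2) D ∧
  Dens (Ez c φ τ u (32 * q) η k g) (2 ^ u) x (24 * (2 : ℝ) ^ (k + 28 * (q : ℤ))) D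

/-- density at most `D` at the top of the window -/
def TD (c : Pl) (φ τ : ℝ → ℝ) (u q : ℕ) (η D : ℝ) (k : ℤ) (g : Pl → ℝ) (x : Pl) : Prop :=
  ∑ j ∈ Finset.range (2 ^ u), volume (Ez c φ τ u (32 * q) η k g j ∩ Sq x (4 * (2 : ℝ) ^ (k + 32 * (q : ℤ)))) ≤
    ENNReal.ofReal (D * (4 : ℝ) ^ (k + 32 * (q : ℤ)))

/-- chords which are large at length `2^k` but not at all lengths `2^(k+w)`, `w ≤ 2^(u/8)` -/
def NP (c : Pl) (φ τ : ℝ → ℝ) (u : ℕ) (η : ℝ) (k : ℤ) (g : Pl → ℝ) (x : Pl) : Set ℕ :=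
  {j : ℕ | j < 2 ^ u ∧ η ≤ |Zc c φ τ u 0 k j g x| ∧ ∃ w ≤ 2 ^ (u / 8), |Zc c φ τ u w k j g x| < η / 2}

/-- chords which are large at all lengths `2^(k+w)`, `w ≤ 2^(u/8)` -/
def HP (c : Pl) (φ τ : ℝ → ℝ) (u : ℕ) (η : ℝ) (k : ℤ) (g : Pl → ℝ) (x : Pl) : Set ℕ :=
  {j : ℕ | j < 2 ^ u ∧ ∀ w ≤ 2 ^ (u / 8), η / 2 ≤ |Zc c φ τ u w k j g x|}

/-- the threshold which belongs to `ρ` -/
noncomputable def et (ρ : ℕ) : ℝ := (2 : ℝ) ^ (-((ρ : ℤ) + 1))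

end Pool.Agent.Helper61.P3
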