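import Pool.Agent.Helper61.P3.St2
import Pool.Agent.Helper61.P3.Defs3

/-!
# Project P3 (MP_cb927e_an): interface statements, part 3 (windows; one class; near pairs and far pairs of classes)
-/

set_option autoImplicit false

open MeasureTheory Set Filter Topology
open scoped ENNReal RealInnerProductSpace

namespace Pool.Agent.Helper61.P3

open Pool.Agent.Helper68.LM (Pl BB Bd Av HL ft fm DQ)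
open Pool.Agent.Helper20.RG
open Pool.Agent.Helper20.EQ
open Pool.Agent.Helper68.EP (elt GapP)

/-! ## Windows -/

/-- WAG (about 120 lines), as WAD of project EQ (see its module) with general scales.  `V 0 ∩ .. ∩ V (i-1)` is a union of dyadic squares of side `2^(a i)` (`a i ≤ b (i-1) ≤ a (i-1) ≤ ..`, dyadic squares are nested or disjoint), countably many disjoint ones, so `|V 0 ∩ .. ∩ V i| ≤ δ |V 0 ∩ .. ∩ V (i-1)|`.  Hypotheses: none. -/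
def StWAG : Prop :=
  ∀ (e : ℕ) (a b : ℕ → ℤ) (V : ℕ → Set Pl) (δ : ℝ), 1 ≤ e → 0 ≤ δ → (∀ i < e, b i ≤ a i) →
    (∀ i : ℕ, i + 1 < e → a (i + 1) ≤ b i) → (∀ i < e, ∀ x ∈ V i, DQ (b i) x ⊆ V i) →
    (∀ i < e, ∀ x : Pl, volume (V i ∩ DQ (a i) x) ≤ ENNReal.ofReal δ * volume (DQ (a i) x)) →
    volume {x | ∀ i < e, x ∈ V i} ≤ ENNReal.ofReal (δ ^ (e - 1)) * volume (V 0)

/-- WIM (about 250 lines), many bad windows.  For `i < n`: `G_i` = set of the `x` with `∑_j vol (S i j ∩ Sq x (4·2^(a i))) ≤ D₀ 4^(a i)`, `V_i = ⋃_{c < 3} ⋃ {DQ (a (i+1)) x : x ∈ G_i, ¬ Dens (S i) N x (r i c) D₁}`.  WB (RG) with `a ↦ a i`, `b ↦ a (i+1)`: `vol V_i ≤ (48/D₁) ∑_j vol (S i j)`, density of `V_i` at most `48 D₀/D₁` in every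
`DQ (a i) x₀`.  If `x` has at least `e` bad indices choose `e` of them, `i_0 < i_1 < .. < i_(e-1)`: `x ∈ V_(i_t)` for all `t`; WAG for `V_(i_t)`, `a ↦ a (i_t)`, `b ↦ a (i_t + 1)` (`a (i_(t+1)) ≤ a (i_t + 1)` as `a` is nonincreasing on `0, .., n`).  Sum over the at most `2^n` subsets.  Hypotheses: hWB (RG), hWAG. -/
def StWIM : Prop :=
  ∀ (n N e : ℕ) (a : ℕ → ℤ) (r : ℕ → ℕ → ℝ) (S : ℕ → ℕ → Set Pl) (D₀ D₁ : ℝ), 1 ≤ e → 0 ≤ D₀ → 0 < D₁ →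
    (∀ i < n, ∀ j < N, MeasurableSet (S i j)) → (∀ i < n, a (i + 1) ≤ a i) →
    (∀ i < n, ∀ c < 3, (2 : ℝ) ^ (a (i + 1)) ≤ r i c ∧ r i c ≤ (2 : ℝ) ^ (a i)) →
    volume {x | e ≤ {i : ℕ | i < n ∧
        (∑ j ∈ Finset.range N, volume (S i j ∩ Sq x (4 * (2 : ℝ) ^ (a i))) ≤ ENNReal.ofReal (D₀ * (4 : ℝ) ^ (a i))) ∧
        ¬ ∀ c < 3, Dens (S i) N x (r i c) D₁}.ncard} ≤
      ENNReal.ofReal ((2 : ℝ) ^ n * (48 * D₀ / D₁) ^ (e - 1) * (48 / D₁)) *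
        ∑ i ∈ Finset.range n, ∑ j ∈ Finset.range N, volume (S i j)

/-- AVE (about 60 lines).  Replace `X i` by `toMeasurable volume (X i)` and use Markov for `∑_i 1_(X i) ≥ e`.  Hypotheses: none. -/
def StAVE : Prop :=
  ∀ (n e : ℕ) (X : ℕ → Set Pl) (Y : Set Pl), 1 ≤ e → (∀ x ∈ Y, e ≤ {i : ℕ | i < n ∧ x ∈ X i}.ncard) →
    volume Y ≤ ENNReal.ofReal (1 / e) * ∑ i ∈ Finset.range n, volume (X i)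

/-- WLI (about 200 lines), the list of windows.  `U / 8 - 5 - i ≥ U/40 - 7` for `i ≤ U / 10` (natural number division), so `qw U i ≥ 2^(U/40 - 7)`, which is larger than `10 U + 20` for large `U`; `32 qw U i = 2^(U/8 - i) ≤ 2^(U/8)`; `2 qw U (i+1) = qw U i`.  Last: CN (EQ): `nn τ u θ q ≤ 1 + 2^u elt τ θ q`, and `q elt τ θ q ^ 3 ≤ ∑_{i=1}^q elt τ θ i ^3 ≤ A`
(`elt` decreasing): `elt ≤ (A/q)^(1/3) ≤ 8 A^(1/3) 2^(-U/120)`.  As `u ≤ 9 U`: `400 (1 + 2^u 8 A^(1/3) 2^(-U/120)) ≤ 2^(u - 9U/2000) ≤ 2^(u - u/2000)` for large `U` (`u ≥ U`).  Hypotheses: hCN (EQ). -/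
def StWLI : Prop :=
  ∀ (φ τ : ℝ → ℝ) (A : ℝ), Graph φ τ → 0 < A → GapP A 3 τ → ∃ U₀ : ℕ, 1000 ≤ U₀ ∧
    ∀ U i : ℕ, U₀ ≤ U → i ≤ U / 10 → 32 * qw U i ≤ 2 ^ (U / 8) ∧ 2 * qw U (i + 1) = qw U i ∧
      10 * U + 20 ≤ qw U i ∧ ∀ (u : ℕ) (θ m : ℝ), U ≤ u → u ≤ 9 * U → (2 : ℝ) ^ ((1999 / 2000 : ℝ) * u) ≤ m →
        400 * (nn τ u θ (qw U i) : ℝ) ≤ m

/-- PES (about 200 lines), persistence.  `j ∈ NP` implies `η/2 ≤ MD_j (V) x`, `V = 2^(u/8)` (`|Z^w - Z^0| ≥ |Z^0| - |Z^w|`).  Markov: `m 1[m ≤ #NP] ≤ (4/η²) ∑_j MD_j(V)²`.  DFZ (EQ) with the system of SYS (RG, second part, `σ = 3`, `A' = A^(1/3)`, GPG), `w = V ≤ 2^(u/8)`, `T = ⌈2^(27u/32)⌉`: `V 2^u T^(-1/3) ≤ 2^(u/8 + u - 9u/32) = 2^(27u/32)`, so the sum is at most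
`C (u + 1) 2^(27u/32) ≤ C 2^(7u/8)`.  Hypotheses: hSYS (RG), hDFZ (EQ), hGPG (EP). -/
def StPES : Prop :=
  ∀ (φ τ : ℝ → ℝ) (A : ℝ) (c : Pl), Graph φ τ → 0 < A → GapP A 3 τ → ∃ C : ℝ, 1 ≤ C ∧
    ∀ (u : ℕ) (η m : ℝ) (g : Pl → ℝ), 2 ≤ u → 0 < η → 0 < m → BB g →
      ∑' k : ℤ, volume {x | m ≤ ((NP c φ τ u η k g x).ncard : ℝ)} ≤
        ENNReal.ofReal (C * (2 : ℝ) ^ ((7 / 8 : ℝ) * u) / (m * η ^ 2)) * ∫⁻ x, ‖g x‖ₑ ^ 2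

/-- LZB (about 120 lines), local Bessel inequality.  FAM (RG) with SYS (`σ = 3`, `A' = A^(1/3)`, GPG), clause `lb`, `Zf W k j x = Zc c φ τ u W k j g x`, `g² ≤ g`, `Loc` at the scale `k + w` (`Loc` for the constant `C ≥ Cf`, smaller squares).  Second: Chebyshev, `Ez` is the set `{η/8 < |Zc|}`.  Hypotheses: hFAM, hSYS (RG), hGPG (EP). -/
def StLZB : Prop :=
  ∀ (φ τ : ℝ → ℝ) (A : ℝ) (c : Pl), Graph φ τ → 0 < A → GapP A 3 τ → ∃ C : ℝ, 1 ≤ C ∧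
    ∀ (u w : ℕ) (k : ℤ) (Λ : ℝ) (g : Pl → ℝ) (x : Pl), 2 ≤ u → 0 ≤ Λ → BB g → (∀ x, 0 ≤ g x ∧ g x ≤ 1) →
      Loc C Λ g x →
      (∑ j ∈ Finset.range (2 ^ u), ∫⁻ y in Sq x (4 * (2 : ℝ) ^ (k + (w : ℤ))), ‖Zc c φ τ u w k j g y‖ₑ ^ 2 ≤
        ENNReal.ofReal (C * Λ * (4 : ℝ) ^ (k + (w : ℤ)))) ∧
      ∀ η : ℝ, 0 < η → ∑ j ∈ Finset.range (2 ^ u), volume (Ez c φ τ u w η k g j ∩
        Sq x (4 * (2 : ℝ) ^ (k + (w : ℤ)))) ≤ ENNReal.ofReal (C * Λ / η ^ 2 * (4 : ℝ) ^ (k + (w : ℤ)))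

/-- BAD (about 200 lines), bad windows of one class.  WIM for every `k` with `n = U / 10`, `N = 2^u`, `a i = k + 32 qw U i` (so `a (i+1) = k + 16 qw U i`, WLI), `S i = Ez c φ τ u (32 qw U i) η k g`, `r i 0 = 2·2^(k+20q)`, `r i 1 = (5/2) 2^(k+24q)`, `r i 2 = 24·2^(k+28q)`, `q = qw U i ≥ 5` (`2^(k+16q) ≤ r ≤ 2^(k+32q)`).
`∑_k ∑_j vol (Ez ..) ≤ (64/η²) C BQ0 τ u g ≤ (64/η²) C 2^(3u) ∫ g²` (Chebyshev, SHQ third and fourth); there are `U / 10 ≤ 2^U` values of `i`.  Hypotheses: hYC, hSYS (RG), hGPG (EP) (measurability), hWIM, hWLI, hSHQ. -/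
def StBAD : Prop :=
  ∀ (φ τ : ℝ → ℝ) (A : ℝ) (c : Pl), Graph φ τ → 0 < A → GapP A 3 τ → ∃ (C : ℝ) (U₀ : ℕ), 1 ≤ C ∧
    ∀ (u U e : ℕ) (η D₀ D₁ : ℝ) (g : Pl → ℝ), U₀ ≤ U → 2 ≤ u → 1 ≤ e → 0 < η → 0 ≤ D₀ → 0 < D₁ → BB g →
      ∑' k : ℤ, volume {x | e ≤ {i : ℕ | i < U / 10 ∧ TD c φ τ u (qw U i) η D₀ k g x ∧
          ¬ GW c φ τ u (qw U i) η D₁ k g x}.ncard} ≤
        ENNReal.ofReal (C * (4 : ℝ) ^ U * (48 * D₀ / D₁) ^ (e - 1) / (D₁ * η ^ 2) * (2 : ℝ) ^ (3 * u)) *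
          ∫⁻ x, ‖g x‖ₑ ^ 2

/-- ONC (about 350 lines), one class.  `η = et ρ = 2^(-ρ-1)`, `X_k` = the set on the left, `n = u / 10 ≥ 100` windows `qw u i`, `i < n` (`U = u`), `e = n / 2` (natural numbers; `n < 2e + 2`).  `D₀ = C Λ/η²` (LZB), `D₁ = 2^4000 D₀`.
(0) `{x : m/2 ≤ #NP}`: PES: `C 2^(7u/8) 2/(m η²) ≤ C 2^(-u/8 + u/2000 + 2ρ + 4) ≤ C 2^(-u/20)` as `ρ ≤ u/1000`.  For the other `x ∈ X_k`: `m/2 ≤ #HP`, so `m/2 ≤ #Hw c φ τ u (32 q) (η/2)` for every window `q` (`32 q ≤ 2^(u/8)`, WLI).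
(1) For `x ∈ G` all windows satisfy TD with `D₀` (LZB).  BAD with `e`: `C 4^u (48·2^(-4000))^(e-1)/(D₁ η²) 2^(3u) ∫ g²`, `D₁ η² = 2^4000 C Λ ≥ 2^(-u)`: `≤ C 2^(6u - 3994 (e-1)) ≤ C 2^(-u)` (`e - 1 ≥ u/20 - 3`, `u ≥ U₀`).
(2) The other `x` have at least `n - e + 1 ≥ n/2` windows with GW (`D₁`): AVE with `e ↦ n - e + 1`, `X i = {x ∈ X_k : .., GW ..}`: `vol ≤ (2/n) ∑_{i<n} vol (X i)`, and WIG for every `i` (`R k = X i`) with `m ↦ m/2`, `D = D₁`, `v₀ = 1`; conditions: `u + 10 ≤ 2q`, `η ≥ 2^(-q)` (`ρ + 1 ≤ 10 u + 20 ≤ q`), `200 nn ≤ m/2` (WLI), `4000 D₁ ≤ m/2`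
(`D₁ ≤ C 4^(ρ+2) ≤ C 2^(u/500) ≤ 2^(u/2)/8000` for large `u`), `1000 ≤ m/2`.  The average over `i` of the same bound: `C D₁/((m/2)³ η²) (2 BQ0 + EX τ u 1 g)`, `D₁/η² = C Λ 2^(4ρ+4)`.  Hypotheses: hPES, hLZB, hBAD, hAVE, hWIG, hWLI. -/
def StONC : Prop :=
  ∀ (φ τ : ℝ → ℝ) (A : ℝ) (c : Pl), Graph φ τ → 0 < A → GapP A 3 τ → ∃ (C : ℝ) (U₀ : ℕ), 1 ≤ C ∧ 2 ≤ U₀ ∧
    ∀ (u ρ : ℕ) (m Λ : ℝ) (g : Pl → ℝ) (G : Set Pl), U₀ ≤ u → 1000 * ρ ≤ u →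
      (2 : ℝ) ^ ((1999 / 2000 : ℝ) * u) ≤ m → (2 : ℝ) ^ (-(u : ℝ)) ≤ Λ → Λ ≤ 4 → BB g →
      (∀ x, 0 ≤ g x ∧ g x ≤ 1) → (∀ x ∈ G, Loc C Λ g x) →
      ∑' k : ℤ, volume {x | x ∈ G ∧ m ≤ ((Hh c φ τ u ρ k g x).ncard : ℝ)} ≤
        ENNReal.ofReal (C * Λ * (16 : ℝ) ^ ρ / m ^ 3) * (BQ0 τ u g + EX τ u 1 g) +
        ENNReal.ofReal (C * (2 : ℝ) ^ (-((u : ℝ) / 20))) * ∫⁻ x, ‖g x‖ₑ ^ 2

/-- NEA (about 450 lines), a near pair of classes `u`, `u' = u + s`.  Windows `qw u i`, `i < n = u / 10` (`U = u`) for both classes (`u' ≤ 9u`).  `η = et ρ`, `η' = et ρ'`, `b = s/20000`.  `X_k` = the set on the left.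
(0) Persistence (PES) for both classes: `C 2^(7u/8) 2/(m η²) ≤ C 2^(-u/8 + b + 2ρ + 4) ≤ C 2^(-u/20)` (`b, ρ ≤ s/20000 ≤ u/2500`), the same for `u'` with `m'`, `η'`; otherwise `m/2 ≤ #Hw c φ τ u (32 q) (η/2) k g x` and `m'/2 ≤ #Hw c φ τ u' (32 q) (η'/2) k g' x` for all windows (`32 q ≤ 2^(u/8) ≤ 2^(u'/8)`).
(1) Class `u'`: `D₀' = C Λ'/η'²` (LZB), `D₁' = 2^4000 D₀'`, all windows satisfy TD (`D₀'`).  BAD with `e = n / 8`: `C 4^u (48·2^(-4000))^(e-1)/(D₁' η'²) 2^(3u')`, `D₁' η'² ≥ Λ' ≥ 2^(-b)`, `e - 1 ≥ u/80 - 4`: exponent at most `2u - 3994 (u/80 - 4) + b + 27 u ≤ -u` for large `u`.  Class `u`: `D₀ = 2^(-s)`, `D₁ = 2^(-s/2)`: BAD with `e = n / 8`: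
`C 4^u (48·2^(-s/2))^(e-1) 2^(s/2)/η² 2^(3u)`, and as `s/2 - 6 ≥ 1000` (`s ≥ 2100`) the exponent is at most `2u - (s/2 - 6)(e - 2) + 6 + 2ρ + 2 + 3u ≤ 6u - 1000 (u/80 - 5) + 8 ≤ -u`.
(2) For the other `x`: at least `n - (e-1) - (e-1) ≥ 3n/4` windows are GW (`D₁'`) for `u'` and satisfy: not TD (`D₀`) for class `u` [case (i)], or GW (`D₁`) for class `u` [case (ii)].  So at least `3n/8 ≥ n/4` are of case (i), or at least `n/4` of case (ii).  AVE (with `e ↦ n/4`, `1/e ≤ 8/n`) in both cases.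
(ii) WIG for class `u`, `D = 2^(-s/2)`, `m/2`, `v₀ = min (s/4) (u+1)` (`EX τ u v₀ = EX τ u (s/4)`: both are `0` if `u < s/4`; `2^(v₀) ≤ 2^(s/4)`): `C 2^(-s/2)/(m³ η²) (2^(s/4) BQ0 + EX τ u (s/4) g)`, `m^(-3) η^(-2) ≤ 2^(-3u + 3b + 2ρ + 2)`.
(i) WIA for class `u'`, `g'`, `D = D₁'`, `m'/2`, `v₀ = s/4 ≤ u' + 1`, `N' = 2^u`, `S k j = Ez c φ τ u (32 q) η k g j`, `D₂ = 2^(-s)` (not TD): `C D₁'² 2^(s/4) 2^s/m'³ ∑_k ∑_j vol (Ez ..) + C D₁'/(m'³ η'²) EX τ u' (s/4) g'`, `∑ vol ≤ (64/η²) C BQ0 τ u g` (SHQ), `D₁' ≤ C 4^(ρ'+2)`, `m'^(-3) ≤ 2^(-3u - 3s + 3b)`: the first is at most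
`C 2^(-3u) 2^(-3s + 5s/4 + 3b + 4ρ' + 2ρ) BQ0 ≤ C 2^(-3u) 2^(-s) BQ0`, the second `C 2^(-3u') 2^(3b + 4ρ') EX`.  (`7b ≤ s/1000`.)  Conditions of WIG, WIA: as in ONC (`400 nn ≤ m, m'` by WLI as `b ≤ u/2500`, `2^(u-b) ≥ 2^(1999u/2000)`; `η, η' ≥ 2^(-q)`; `D₁' ≤ C 2^(u/1000)`).
Hypotheses: hPES, hLZB, hBAD, hAVE, hWIG, hWIA, hWLI, hSHQ. -/
def StNEA : Prop :=
  ∀ (φ τ : ℝ → ℝ) (A : ℝ) (c : Pl), Graph φ τ → 0 < A → GapP A 3 τ → ∃ (C : ℝ) (U₀ : ℕ), 1 ≤ C ∧ 2 ≤ U₀ ∧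
    ∀ (u s ρ ρ' : ℕ) (m m' Λ Λ' : ℝ) (g g' : Pl → ℝ) (G : Set Pl), U₀ ≤ u → 2100 ≤ s → s ≤ 8 * u →
      20000 * ρ ≤ s → 20000 * ρ' ≤ s → (2 : ℝ) ^ ((u : ℝ) - s / 20000) ≤ m →
      (2 : ℝ) ^ ((u : ℝ) + s - s / 20000) ≤ m' → 0 ≤ Λ → Λ ≤ 4 → (2 : ℝ) ^ (-((s : ℝ) / 20000)) ≤ Λ' → Λ' ≤ 4 →
      BB g → BB g' → (∀ x, 0 ≤ g x ∧ g x ≤ 1) → (∀ x, 0 ≤ g' x ∧ g' x ≤ 1) →
      (∀ x ∈ G, Loc C Λ g x ∧ Loc C Λ' g' x) →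
      ∑' k : ℤ, volume {x | x ∈ G ∧ m ≤ ((Hh c φ τ u ρ k g x).ncard : ℝ) ∧
          m' ≤ ((Hh c φ τ (u + s) ρ' k g' x).ncard : ℝ)} ≤
        ENNReal.ofReal (C * (2 : ℝ) ^ (-((s : ℝ) / 8))) * (ENNReal.ofReal ((2 : ℝ) ^ (-(3 * (u : ℝ)))) * BQ0 τ u g) +
        ENNReal.ofReal (C * (2 : ℝ) ^ ((s : ℝ) / 100)) * (ENNReal.ofReal ((2 : ℝ) ^ (-(3 * (u : ℝ)))) * EX τ u (s / 4) g +
          ENNReal.ofReal ((2 : ℝ) ^ (-(3 * ((u : ℝ) + s)))) * EX τ (u + s) (s / 4) g') +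
        ENNReal.ofReal (C * (2 : ℝ) ^ (-((u : ℝ) / 20))) * ((∫⁻ x, ‖g x‖ₑ ^ 2) + ∫⁻ x, ‖g' x‖ₑ ^ 2)

/-- FAR (about 400 lines), a far pair of classes `u`, `u' = u + s`, `s > 8u`.  `η = et ρ`, `η' = et ρ'`, windows `qw u i`, `i < n = u / 10`.  `m ≤ #HP` implies `m ≤ #Hw c φ τ u (32 q) (η/2) k g x` for every window.
(1) BAD for class `u`, `D₀ = 2^(-s/2)`, `D₁ = 2^(-s/4)`, `e = n` (all windows): `C 4^u (48·2^(-s/4))^(n-1) 2^(s/4)/η² 2^(3u) ∫ g²`, exponent at most `2u - (s/4 - 6)(n - 2) + 6 + 2ρ + 2 + 3u ≤ -s` (`n - 2 ≥ 98`, `u ≤ s/8`).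
For the other `x` there is a window `i < n` which is either (i) not TD (`D₀`), or (ii) TD and GW (`D₁`).
(ii) for every `i`: WIG for class `u` with `D = 2^(-s/4)`, `v₀ = u + 1` (`EX τ u (u+1) g = 0`, empty sum): `C 2^(-s/4) 2^(u+1)/(m³ η²) BQ0 ≤ C 2^(-3u) 2^(-s/4 + u + 3u/2000 + 2ρ + 4) BQ0`, sum over the `n ≤ 2^(s/100)` windows: exponent at most `-s/4 + s/8 + s/50 ≤ -s/20`.
(i) for every `i`, `q = qw u i`: let `L = 2^k`, `R` = set of the `x ∈ G` with `m' ≤ #Hh` which are not TD (`D₀`), and `n'` an index with `R ∩ Sq (zg L n') (L/2) ∋ x`: `Sq (zg L n') (L/2) ⊆ Sq x (4·2^k)`, so `vol (R ∩ Sq (zg L n') (L/2)) ≤ (1/(m' η'²)) ∑_j ∫_{Sq x (4·2^k)} ‖Zc c φ τ u' 0 k j g'‖² ≤ C Λ' 4^k/(m' η'²)` (Markov; LZB first, `w = 0`).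
OVL (last clause) with `L₂ = L`, `r = 4·2^(k+32q)`, `D = 2^(-s/2)/16`: `∑_n' L² ≤ 1024·2^(s/2) ∑_j vol (Ez ..)`.  So `∑_k vol R ≤ C Λ' 2^(s/2)/(m' η'²) (64/η²) C BQ0 τ u g` (SHQ) `≤ C 2^(-3u) 2^(2u - s/2 + (u+s)/2000 + 2ρ' + 2ρ + 8) BQ0`, and `2u ≤ s/4`: exponent at most `-s/4 + s/50`; sum over `i`.
Conditions of WIG as in ONC.  Hypotheses: hLZB, hBAD, hWIG, hOVL, hWLI, hSHQ. -/
def StFAR : Prop :=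
  ∀ (φ τ : ℝ → ℝ) (A : ℝ) (c : Pl), Graph φ τ → 0 < A → GapP A 3 τ → ∃ (C : ℝ) (U₀ : ℕ), 1 ≤ C ∧ 2 ≤ U₀ ∧
    ∀ (u s ρ ρ' : ℕ) (m m' Λ' : ℝ) (g g' : Pl → ℝ) (G : Set Pl), U₀ ≤ u → 8 * u < s → 1000 * ρ ≤ u →
      1000 * ρ' ≤ u + s → (2 : ℝ) ^ ((1999 / 2000 : ℝ) * u) ≤ m →
      (2 : ℝ) ^ ((1999 / 2000 : ℝ) * ((u : ℝ) + s)) ≤ m' → 0 ≤ Λ' → Λ' ≤ 4 → BB g → BB g' →
      (∀ x, 0 ≤ g x ∧ g x ≤ 1) → (∀ x, 0 ≤ g' x ∧ g' x ≤ 1) → (∀ x ∈ G, Loc C Λ' g' x) →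
      ∑' k : ℤ, volume {x | x ∈ G ∧ m ≤ ((HP c φ τ u (et ρ) k g x).ncard : ℝ) ∧
          m' ≤ ((Hh c φ τ (u + s) ρ' k g' x).ncard : ℝ)} ≤
        ENNReal.ofReal (C * (2 : ℝ) ^ (-((s : ℝ) / 20))) * (ENNReal.ofReal ((2 : ℝ) ^ (-(3 * (u : ℝ)))) * BQ0 τ u g +
          ∫⁻ x, ‖g x‖ₑ ^ 2)

end Pool.Agent.Helper61.P3
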