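import Pool.Agent.Helper61.P3.St4
import Pool.Agent.Helper20.RG.St3

/-!
# Project P3 (MP_cb927e_an): interface statements, part 5 (from FEW and MANY to the theorem for p = 3)

These are the statements EVS, EER, CRQ, MAQ of project EQ (Pool/Agent/Helper20/EQ/St5.lean) for `p = 3`; `StLOW` and `StDMP` of EQ are already stated for all `p > 1`.
-/

set_option autoImplicit false

open MeasureTheory Set Filter Topology
open scoped ENNReal RealInnerProductSpace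

namespace Pool.Agent.Helper61.P3

open Pool.Agent.Helper68.LM (Pl BB Bd Av HL ft fm DQ)
open Pool.Agent.Helper20.RG
open Pool.Agent.Helper20.EQ
open Pool.Agent.Helper68.EP (elt GapP)
open Pool.Agent.Helper61.Lacunary (ConditionG LpBounded)

/-- HTS (about 150 lines), heights.  Let `f ≤ M`.  `fh l f x = ∑_{n < N} 2^(l+n) lev f (l - 1 + n) x` for every `N` with `M < 2^(l-1+N)` (exactly one `n` has `2^(l-1+n) ≤ f x < 2^(l+n)` if `2^(l-1) ≤ f x`).  `Zc` is linear (YB; compare the module of `StPIG` of project EQ, Pool/Agent/Helper14/EQ/M_PIG.lean), so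
`‖Zc .. (fh l f) x‖ₑ ≤ ∑'_n ofReal (2^(l+n)) ‖Zc .. (lev f (l-1+n)) x‖ₑ`, and `2^(l+n) = 2^l 2^n`.  Every `n` satisfies exactly one of `u ≤ κ n`, `κ n < u`; interchange the finite sum over `j` and the sum over `n` if needed.  Hypotheses: hYB (RG), hGDL (EQ). -/
def StHTS : Prop :=
  ∀ (φ τ : ℝ → ℝ) (c : Pl), Graph φ τ → ∀ (κ u : ℕ) (k l : ℤ) (f : Pl → ℝ) (x : Pl), BB f → (∀ x, 0 ≤ f x) →
    Ht c φ τ u k (fh l f) x ≤ ENNReal.ofReal ((2 : ℝ) ^ l) * (HtF c φ τ κ u k l f x + HtM c φ τ κ u k l f x)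

/-- EV3 (about 100 lines).  `κ` from MNY (`StMNY` is `StMANY`), FEW with this `κ`.  If `2^l ≤ ∑_{u ≥ 2} Ht ..` then by HTS `1 ≤ ∑_{u ≥ 2} HtF + ∑_{u ≥ 2} HtM`, so one of the two sums is `≥ 1/2`.  `C` is the sum of the two constants.  Hypotheses: hHTS, hFEW (`StFEW`), hMNY. -/
def StEV3 : Prop :=
  ∀ (φ τ : ℝ → ℝ) (A : ℝ) (c : Pl), Graph φ τ → 0 < A → GapP A 3 τ →
    ∃ C : ℝ, 1 ≤ C ∧ ∀ (R₀ : ℝ) (f : Pl → ℝ), C ≤ R₀ → BB f → (∀ x, 0 ≤ f x) →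
      ∑' l : ℤ, ENNReal.ofReal ((2 : ℝ) ^ (3 * l)) * volume {x | Gd R₀ l f x ∧ ∃ k : ℤ,
        ENNReal.ofReal ((2 : ℝ) ^ l) ≤ ∑' u : ℕ, (if 2 ≤ u then Ht c φ τ u k (fh l f) x else 0)} ≤
        ENNReal.ofReal C * ∫⁻ x, ENNReal.ofReal (f x) ^ (3 : ℝ)

/-- EE3 (about 200 lines), the error: as `StEER` of project EQ with `p = 3` (copy the module Pool/Agent/Helper38/EQ/M_EER.lean; `p < 3` is not used there in an essential way).  Hypotheses: hYB, hERR (RG), hGPG (EP). -/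
def StEE3 : Prop :=
  ∀ (φ τ : ℝ → ℝ) (A : ℝ) (c : Pl), Graph φ τ → 0 < A → GapP A 3 τ →
    ∃ C : ℝ, 0 < C ∧ ∀ f : Pl → ℝ, BB f → (∀ x, 0 ≤ f x) →
      ∑' l : ℤ, ENNReal.ofReal ((2 : ℝ) ^ (3 * l)) * volume {x | ∃ (k : ℤ) (u : ℕ), 2 ≤ u ∧
        (2 : ℝ) ^ l / (u : ℝ) ^ 2 ≤ |er c φ τ u k (fh l f) x|} ≤
        ENNReal.ofReal C * ∫⁻ x, ENNReal.ofReal (f x) ^ (3 : ℝ)

/-- CR3 (about 250 lines), the strong type estimate for bounded functions: as `StCRQ` of project EQ with `p = 3` (copy or use the module Pool/Agent/Helper78/EQ/M_CRQ.lean, which uses DMP (`1 < p`), EER, EVS).  Hypotheses: hDMP (EQ), hEE3, hEV3. -/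
def StCR3 : Prop :=
  ∀ (φ τ : ℝ → ℝ) (A : ℝ) (c : Pl), Graph φ τ → 0 < A → GapP A 3 τ →
    ∃ C : ℝ, 0 < C ∧ ∀ g : Pl → ℝ, BB g → (∀ x, 0 ≤ g x) →
      ∫⁻ x, (⨆ k : ℤ, ENNReal.ofReal (Av (arc c φ) ((2 : ℝ) ^ k) g x)) ^ (3 : ℝ) ≤
        ENNReal.ofReal C * ∫⁻ x, ENNReal.ofReal (g x) ^ (3 : ℝ)

/-- MA3 (about 60 lines), the theorem for `p = 3`: as `StMAQ` (module Pool/Agent/Helper24/EQ/M_MAQ.lean) with `p = 3`.  Hypotheses: hCOV (RG), hCPP (EP), hCR3, hRES, hFIN (RG). -/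
def StMA3 : Prop :=
  ∀ Ω : Set Pl, IsOpen Ω → Convex ℝ Ω → Bornology.IsBounded Ω → (0 : Pl) ∈ Ω → ConditionG Ω 3 → LpBounded Ω 3

end Pool.Agent.Helper61.P3
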