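import Pool.Agent.Helper20.RG.Asm
import Pool.Agent.Helper20.EQ.Asm
import Pool.Agent.Helper61.P3.St5
import Pool.Agent.Helper82.P3.M_AVE
import Pool.Agent.Helper37.P3.M_WAG
import Pool.Agent.Helper17.P3.M_WIM
import Pool.Agent.Helper82.P3.M_WLI
import Pool.Agent.Helper76.P3.M_SHM
import Pool.Agent.Helper52.P3.M_SHQ
import Pool.Agent.Helper53.P3.M_BAD
import Pool.Agent.Helper38.P3.M_BN2
import Pool.Agent.Helper7.P3.M_EE3
import Pool.Agent.Helper66.P3.M_HTS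
import Pool.Agent.Helper38.P3.M_PG3
import Pool.Agent.Helper67.P3.M_TYP
import Pool.Agent.Helper16.P3.M_MPT
import Pool.Agent.Helper98.P3.M_RIY
import Pool.Agent.Helper84.P3.M_SU0
import Pool.Agent.Helper15.P3.M_NUC
import Pool.Agent.Helper21.P3.M_PES
import Pool.Agent.Helper8.P3.M_LZB
import Pool.Agent.Helper1.P3.M_GR
import Pool.Agent.Helper62.P3.M_GA
import Pool.Agent.Helper79.P3.M_GJ
import Pool.Agent.Helper76.P3.M_GE
import Pool.Agent.Helper51.P3.M_STP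
import Pool.Agent.Helper21.P3.M_CVR
import Pool.Agent.Helper38.P3.M_SMA
import Pool.Agent.Helper72.P3.M_SMB
import Pool.Agent.Helper65.P3.M_VAR
import Pool.Agent.Helper6.P3.M_RF1
import Pool.Agent.Helper47.P3.M_RF2
import Pool.Agent.Helper90.P3.M_PGB
import Pool.Agent.Helper74.P3.M_ENC
import Pool.Agent.Helper17.P3.M_RDN
import Pool.Agent.Helper73.P3.M_OVL
import Pool.Agent.Helper16.P3.M_RDT
import Pool.Agent.Helper44.P3.M_WIK
import Pool.Agent.Helper6.P3.M_LOW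
import Pool.Agent.Helper26.P3.M_TRA
import Pool.Agent.Helper74.P3.M_ENS
import Pool.Agent.Helper72.P3.M_WIG
import Pool.Agent.Helper76.P3.M_ONC
import Pool.Agent.Helper48.P3.M_QSU
import Pool.Agent.Helper92.P3.M_SUT
import Pool.Agent.Helper64.P3.M_SON
import Pool.Agent.Helper37.P3.M_SBN
import Pool.Agent.Helper7.P3.M_WIA
import Pool.Agent.Helper78.P3.M_NEA
import Pool.Agent.Helper76.P3.M_NES
import Pool.Agent.Helper73.P3.M_SNE
import Pool.Agent.Helper57.P3.M_SNP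
import Pool.Agent.Helper27.P3.M_FAR
import Pool.Agent.Helper9.P3.M_FAS
import Pool.Agent.Helper40.P3.M_SFA
import Pool.Agent.Helper72.P3.M_MNY
import Pool.Agent.Helper7.P3.M_EV3
import Pool.Agent.Helper51.P3.M_CR3
import Pool.Agent.Helper7.P3.M_MA3

/-!
# Project P3 (MP_cb927e_an): assembly
-/

set_option autoImplicit false

namespace Pool.Agent.Helper61.P3

theorem pAVE : StAVE :=
  Pool.Agent.Helper82.P3.hAVE 

theorem pWAG : StWAG :=
  Pool.Agent.Helper37.P3.hWAG 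

theorem pWIM : StWIM :=
  Pool.Agent.Helper17.P3.hWIM Pool.Agent.Helper20.RG.pWB pWAG

theorem pWLI : StWLI :=
  Pool.Agent.Helper82.P3.hWLI Pool.Agent.Helper20.EQ.pCN

theorem pSHM : StSHM :=
  Pool.Agent.Helper76.P3.hSHM Pool.Agent.Helper20.RG.pPT Pool.Agent.Helper20.RG.pSINC Pool.Agent.Helper20.RG.pOCT Pool.Agent.Helper20.EQ.pKD Pool.Agent.Helper20.EQ.pPSM

theorem pSHQ : StSHQ :=
  Pool.Agent.Helper52.P3.hSHQ Pool.Agent.Helper20.RG.pPT Pool.Agent.Helper20.RG.pYB Pool.Agent.Helper20.RG.pSYS Pool.Agent.Helper20.EQ.pKD Pool.Agent.Helper20.EQ.pMIM Pool.Agent.Helper20.EQ.pCN Pool.Agent.Helper29.EP.hGPG pSHM Pool.Agent.Helper79.LM.hPL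

theorem pBAD : StBAD :=
  Pool.Agent.Helper53.P3.hBAD Pool.Agent.Helper20.RG.pYC Pool.Agent.Helper20.RG.pSYS Pool.Agent.Helper29.EP.hGPG pWIM pWLI pSHQ

theorem pBN2 : StBN2 :=
  Pool.Agent.Helper38.P3.hBN2 Pool.Agent.Helper20.EQ.pCN Pool.Agent.Helper20.EQ.pWT Pool.Agent.Helper20.EQ.pSS

theorem pEE3 : StEE3 :=
  Pool.Agent.Helper7.P3.hEE3 Pool.Agent.Helper20.RG.pYB Pool.Agent.Helper20.RG.pERR Pool.Agent.Helper29.EP.hGPG

theorem pHTS : StHTS :=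
  Pool.Agent.Helper66.P3.hHTS Pool.Agent.Helper20.RG.pYB

theorem pPG3 : StPG3 :=
  Pool.Agent.Helper38.P3.hPG3 

theorem pTYP : StTYP :=
  Pool.Agent.Helper67.P3.hTYP Pool.Agent.Helper20.RG.pYB Pool.Agent.Helper20.EQ.pGDL

theorem pMPT : StMPT :=
  Pool.Agent.Helper16.P3.hMPT pPG3 pTYP

theorem pRIY : StRIY :=
  Pool.Agent.Helper98.P3.hRIY Pool.Agent.Helper20.EQ.pGDL

theorem pSU0 : StSU0 :=
  Pool.Agent.Helper84.P3.hSU0 pRIY pSHQ

theorem pNUC : StNUC :=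
  Pool.Agent.Helper15.P3.hNUC 

theorem pPES : StPES :=
  Pool.Agent.Helper21.P3.hPES Pool.Agent.Helper20.RG.pSYS Pool.Agent.Helper20.EQ.pDFZ Pool.Agent.Helper29.EP.hGPG

theorem pLZB : StLZB :=
  Pool.Agent.Helper8.P3.hLZB Pool.Agent.Helper20.RG.pFAM Pool.Agent.Helper20.RG.pSYS Pool.Agent.Helper29.EP.hGPG

theorem pGR : StGR :=
  Pool.Agent.Helper1.P3.hGR 

theorem pGA : StGA :=
  Pool.Agent.Helper62.P3.hGA pGR

theorem pGJ : StGJ :=
  Pool.Agent.Helper79.P3.hGJ pGR pGA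

theorem pGE : StGE :=
  Pool.Agent.Helper76.P3.hGE pGR pGA pGJ

theorem pSTP : StSTP :=
  Pool.Agent.Helper51.P3.hSTP pGR pGA pGJ pGE

theorem pCVR : StCVR :=
  Pool.Agent.Helper21.P3.hCVR pGR

theorem pSMA : StSMA :=
  Pool.Agent.Helper38.P3.hSMA Pool.Agent.Helper20.RG.pPT pGR pGA

theorem pSMB : StSMB :=
  Pool.Agent.Helper72.P3.hSMB Pool.Agent.Helper20.RG.pPT pGR pGA

theorem pVAR : StVAR :=
  Pool.Agent.Helper65.P3.hVAR Pool.Agent.Helper20.RG.pPT pGR pGA pSMA pSMB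

theorem pRF1 : StRF1 :=
  Pool.Agent.Helper6.P3.hRF1 Pool.Agent.Helper20.RG.pPT Pool.Agent.Helper20.RG.pRID Pool.Agent.Helper20.RG.pRB

theorem pRF2 : StRF2 :=
  Pool.Agent.Helper47.P3.hRF2 Pool.Agent.Helper20.RG.pPT Pool.Agent.Helper20.RG.pPAR

theorem pPGB : StPGB :=
  Pool.Agent.Helper90.P3.hPGB Pool.Agent.Helper20.RG.pPT Pool.Agent.Helper20.RG.pRID pGR pGA

theorem pENC : StENC :=
  Pool.Agent.Helper74.P3.hENC Pool.Agent.Helper20.RG.pPT pGR pGA pGE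

theorem pRDN : StRDN :=
  Pool.Agent.Helper17.P3.hRDN Pool.Agent.Helper20.RG.pPT Pool.Agent.Helper20.RG.pRID Pool.Agent.Helper20.RG.pRA pGR pGA pGE pSTP pCVR pVAR pRF1 pRF2 pPGB pENC

theorem pOVL : StOVL :=
  Pool.Agent.Helper73.P3.hOVL Pool.Agent.Helper20.RG.pPT

theorem pRDT : StRDT :=
  Pool.Agent.Helper16.P3.hRDT pRDN pOVL

theorem pWIK : StWIK :=
  Pool.Agent.Helper44.P3.hWIK Pool.Agent.Helper20.RG.pYC Pool.Agent.Helper20.RG.pYB Pool.Agent.Helper20.EQ.pWT pRDT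

theorem pLOW : StLOW :=
  Pool.Agent.Helper6.P3.hLOW Pool.Agent.Helper20.RG.pPT pGR pGA pGJ pGE

theorem pTRA : StTRA :=
  Pool.Agent.Helper26.P3.hTRA pGR pGA pGE

theorem pENS : StENS :=
  Pool.Agent.Helper74.P3.hENS Pool.Agent.Helper20.RG.pYC Pool.Agent.Helper20.RG.pYB Pool.Agent.Helper20.RG.pSYS Pool.Agent.Helper29.EP.hGPG pGR pLOW pTRA pSHQ

theorem pWIG : StWIG :=
  Pool.Agent.Helper72.P3.hWIG Pool.Agent.Helper20.RG.pYC pWIK pOVL pSHQ pENS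

theorem pONC : StONC :=
  Pool.Agent.Helper76.P3.hONC pPES pLZB pBAD pAVE pWIG pWLI

theorem pQSU : StQSU :=
  Pool.Agent.Helper48.P3.hQSU Pool.Agent.Helper20.EQ.pSS pBN2

theorem pSUT : StSUT :=
  Pool.Agent.Helper92.P3.hSUT Pool.Agent.Helper20.EQ.pGDL pRIY pNUC pONC pQSU

theorem pSON : StSON :=
  Pool.Agent.Helper64.P3.hSON pSU0 pSUT

theorem pSBN : StSBN :=
  Pool.Agent.Helper37.P3.hSBN pSUT pNUC

theorem pWIA : StWIA :=
  Pool.Agent.Helper7.P3.hWIA pWIK pOVL pENS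

theorem pNEA : StNEA :=
  Pool.Agent.Helper78.P3.hNEA pPES pLZB pBAD pAVE pWIG pWIA pWLI pSHQ

theorem pNES : StNES :=
  Pool.Agent.Helper76.P3.hNES Pool.Agent.Helper20.EQ.pGDL pRIY pNUC pNEA pQSU

theorem pSNE : StSNE :=
  Pool.Agent.Helper73.P3.hSNE pNES

theorem pSNP : StSNP :=
  Pool.Agent.Helper57.P3.hSNP Pool.Agent.Helper20.EQ.pGDL pRIY pNUC pPES

theorem pFAR : StFAR :=
  Pool.Agent.Helper27.P3.hFAR pLZB pBAD pWIG pOVL pWLI pSHQ

theorem pFAS : StFAS :=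
  Pool.Agent.Helper9.P3.hFAS Pool.Agent.Helper20.EQ.pGDL pRIY pNUC pFAR pQSU

theorem pSFA : StSFA :=
  Pool.Agent.Helper40.P3.hSFA pFAS

theorem pMNY : StMNY :=
  Pool.Agent.Helper72.P3.hMNY pMPT pSON pSBN pSNE pSNP pSFA

theorem pMANY : StMANY := pMNY

/-- the endpoint p = 3, given the part with few chords -/
theorem pMA3 (hFEW : StFEW) : StMA3 :=
  Pool.Agent.Helper7.P3.hMA3 Pool.Agent.Helper20.RG.pCOV Pool.Agent.Helper52.EP.hCPP
    (Pool.Agent.Helper51.P3.hCR3 Pool.Agent.Helper20.EQ.pDMP pEE3 (Pool.Agent.Helper7.P3.hEV3 pHTS hFEW pMNY))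
    Pool.Agent.Helper20.RG.pRES Pool.Agent.Helper20.RG.pFIN

end Pool.Agent.Helper61.P3
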