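import Pool.Agent.Helper20.EQ.St5

/-!
# Project P3 (MP_cb927e_an): the endpoint p = 3, definitions

Notation of the projects RG and EQ (Pool/Agent/Helper20).  Heights: `lev f (l - 1 + n)`, `n = 0, 1, ..`, is the part of `f` of height between
`2^(l-1+n)` and `2^(l+n)`, normalised.  A natural number `κ` splits the heights: `u ≤ κ n` (few chords) and `κ n < u` (many chords).
-/

set_option autoImplicit false

open MeasureTheory Set Filter Topology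
open scoped ENNReal RealInnerProductSpace

namespace Pool.Agent.Helper61.P3

open Pool.Agent.Helper68.LM (Pl BB Bd Av HL ft fm DQ)
open Pool.Agent.Helper20.RG
open Pool.Agent.Helper20.EQ
open Pool.Agent.Helper68.EP (elt GapP)

/-- the part of `2^(-l) Ht u` which comes from the heights with `u ≤ κ n` -/
noncomputable def HtF (c : Pl) (φ τ : ℝ → ℝ) (κ u : ℕ) (k l : ℤ) (f : Pl → ℝ) (x : Pl) : ℝ≥0∞ :=
  ENNReal.ofReal (1 / (2 : ℝ) ^ u) * ∑ j ∈ Finset.range (2 ^ u), ∑' n : ℕ,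
    (if u ≤ κ * n then ENNReal.ofReal ((2 : ℝ) ^ n) * ‖Zc c φ τ u 0 k j (lev f (l - 1 + n)) x‖ₑ else 0)

/-- the part of `2^(-l) Ht u` which comes from the heights with `κ n < u` -/
noncomputable def HtM (c : Pl) (φ τ : ℝ → ℝ) (κ u : ℕ) (k l : ℤ) (f : Pl → ℝ) (x : Pl) : ℝ≥0∞ :=
  ENNReal.ofReal (1 / (2 : ℝ) ^ u) * ∑ j ∈ Finset.range (2 ^ u), ∑' n : ℕ,
    (if κ * n < u then ENNReal.ofReal ((2 : ℝ) ^ n) * ‖Zc c φ τ u 0 k j (lev f (l - 1 + n)) x‖ₑ else 0)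

/-- FEW, the heights `u ≤ κ n` (to be proved by the method of project EQ) -/
def StFEW : Prop :=
  ∀ (φ τ : ℝ → ℝ) (A : ℝ) (c : Pl), Graph φ τ → 0 < A → GapP A 3 τ → ∀ κ : ℕ, 1 ≤ κ →
    ∃ C : ℝ, 1 ≤ C ∧ ∀ (R₀ : ℝ) (f : Pl → ℝ), C ≤ R₀ → BB f → (∀ x, 0 ≤ f x) →
      ∑' l : ℤ, ENNReal.ofReal ((2 : ℝ) ^ (3 * l)) * volume {x | Gd R₀ l f x ∧ ∃ k : ℤ,
        ENNReal.ofReal (1 / 2) ≤ ∑' u : ℕ, (if 2 ≤ u then HtF c φ τ κ u k l f x else 0)} ≤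
        ENNReal.ofReal C * ∫⁻ x, ENNReal.ofReal (f x) ^ (3 : ℝ)

/-- MANY, the heights `κ n < u` -/
def StMANY : Prop :=
  ∀ (φ τ : ℝ → ℝ) (A : ℝ) (c : Pl), Graph φ τ → 0 < A → GapP A 3 τ → ∃ κ : ℕ, 1 ≤ κ ∧
    ∃ C : ℝ, 1 ≤ C ∧ ∀ (R₀ : ℝ) (f : Pl → ℝ), C ≤ R₀ → BB f → (∀ x, 0 ≤ f x) →
      ∑' l : ℤ, ENNReal.ofReal ((2 : ℝ) ^ (3 * l)) * volume {x | Gd R₀ l f x ∧ ∃ k : ℤ,
        ENNReal.ofReal (1 / 2) ≤ ∑' u : ℕ, (if 2 ≤ u then HtM c φ τ κ u k l f x else 0)} ≤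
        ENNReal.ofReal C * ∫⁻ x, ENNReal.ofReal (f x) ^ (3 : ℝ)

end Pool.Agent.Helper61.P3
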