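import Pool.Agent.Helper61.P3.Defs

/-!
# Project P3 (MP_cb927e_an): the endpoint p = 3, definitions 1 (grids on the line, energies)
-/

set_option autoImplicit false

open MeasureTheory Set Filter Topology
open scoped ENNReal RealInnerProductSpace

namespace Pool.Agent.Helper61.P3

open Pool.Agent.Helper68.LM (Pl BB Bd Av HL ft fm DQ)
open Pool.Agent.Helper20.RG
open Pool.Agent.Helper20.EQ
open Pool.Agent.Helper68.EP (elt GapP)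

/-- a system of nested grids of the line: the intervals of scale `a` are `[κ a + n 2^a, κ a + (n+1) 2^a)`, `n ∈ ℤ` -/
def Gr (κ : ℤ → ℝ) : Prop := ∀ a : ℤ, ∃ n : ℤ, κ (a + 1) = κ a + (n : ℝ) * (2 : ℝ) ^ a

/-- left end point of the interval of scale `a` which contains `t` -/
noncomputable def lft (κ : ℤ → ℝ) (a : ℤ) (t : ℝ) : ℝ :=
  κ a + (⌊(t - κ a) / (2 : ℝ) ^ a⌋ : ℝ) * (2 : ℝ) ^ a

/-- the interval of scale `a` which contains `t` -/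
def Ia (κ : ℤ → ℝ) (a : ℤ) (t : ℝ) : Set ℝ := Ico (lft κ a t) (lft κ a t + (2 : ℝ) ^ a)

/-- average of `β` over the interval of scale `a` which contains `t` -/
noncomputable def Ed (κ : ℤ → ℝ) (a : ℤ) (β : ℝ → ℝ) (t : ℝ) : ℝ :=
  (2 : ℝ) ^ (-a) * ∫ r in Ia κ a t, β r

/-- the two grids with offset `o`: `i = 0` the dyadic grid, `i = 1` the grid shifted by one third -/
noncomputable def gk (i : ℕ) (o : ℝ) (a : ℤ) : ℝ := (i : ℝ) * (-2 : ℝ) ^ a / 3 + o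

/-- the concave function `Θ x = x/(1+x)` -/
noncomputable def Tc (x : ℝ) : ℝ := x / (1 + x)

/-- energy density between the scales `a ≤ ℓ` -/
noncomputable def en (κ : ℤ → ℝ) (Γ : ℝ) (a ℓ : ℤ) (β : ℝ → ℝ) (ρ : ℝ) : ℝ :=
  Tc (Γ * Ed κ ℓ β ρ) - Ed κ ℓ (fun r => Tc (Γ * Ed κ a β r)) ρ

/-- the function `b` on the vertical line over `y₀`; the variable is `pr s` -/
noncomputable def lnf (s : ℝ) (b : Pl → ℝ) (y₀ ρ : ℝ) : ℝ := b (pt y₀ (ρ + s * y₀))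

/-- energy of `b` in the plane between the scales `a ≤ ℓ` -/
noncomputable def EN (s : ℝ) (κ : ℤ → ℝ) (Γ : ℝ) (a ℓ : ℤ) (b : Pl → ℝ) : ℝ≥0∞ :=
  ∫⁻ y₀ : ℝ, ∫⁻ ρ : ℝ, ENNReal.ofReal (en κ Γ a ℓ (lnf s b y₀) ρ)

/-- the energy near `z` -/
noncomputable def LE (s : ℝ) (κ : ℤ → ℝ) (Γ : ℝ) (a ℓ : ℤ) (b : Pl → ℝ) (z : Pl) (L₂ : ℝ) : ℝ≥0∞ :=
  ∫⁻ y₀ in Icc (z 0 - L₂ / 2) (z 0 + L₂ / 2), ∫⁻ ρ in Icc (pr s z - 6 * L₂) (pr s z + 6 * L₂),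
    ENNReal.ofReal (en κ Γ a ℓ (lnf s b y₀) ρ)

/-- sum of ridge functions -/
noncomputable def GG (N : ℕ) (s : ℕ → ℝ) (h : ℕ → ℝ → ℝ) (y : Pl) : ℝ :=
  ∑ j ∈ Finset.range N, h j (pr (s j) y)

/-- sum of their averages at scale `ℓ` -/
noncomputable def PG (N : ℕ) (s : ℕ → ℝ) (κ : ℕ → ℤ → ℝ) (ℓ : ℤ) (h : ℕ → ℝ → ℝ) (y : Pl) : ℝ :=
  ∑ j ∈ Finset.range N, Ed (κ j) ℓ (h j) (pr (s j) y)

end Pool.Agent.Helper61.P3
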