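import Pool.Agent.Helper61.P3.Defs1

/-!
# Project P3 (MP_cb927e_an): the endpoint p = 3, definitions 2 (one class)
-/

set_option autoImplicit false

open MeasureTheory Set Filter Topology
open scoped ENNReal RealInnerProductSpace

namespace Pool.Agent.Helper61.P3

open Pool.Agent.Helper68.LM (Pl BB Bd Av HL ft fm DQ)
open Pool.Agent.Helper20.RG
open Pool.Agent.Helper20.EQ
open Pool.Agent.Helper68.EP (elt GapP)

/-- centres of the squares of side `L₂` -/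
noncomputable def zg (L₂ : ℝ) (n : ℤ × ℤ) : Pl := pt ((n.1 : ℝ) * L₂) ((n.2 : ℝ) * L₂)

/-- cutoff of the size: `0` for `t ≤ 1/4`, `1` for `3/8 ≤ t` -/
noncomputable def ct (t : ℝ) : ℝ := max 0 (min 1 (8 * t - 2))

/-- the centred operator: `Zc c φ τ u w k j g x = Zo τ u w k j g (x - 2^k ce)` -/
noncomputable def Zo (τ : ℝ → ℝ) (u w : ℕ) (k : ℤ) (j : ℕ) (g : Pl → ℝ) (x : Pl) : ℝ :=
  Z (sl τ u j) 0 (mm τ u j) (mp τ u j) ((2 : ℝ) ^ w) k g x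

/-- size of the operator compared with `η` -/
noncomputable def bz (c : Pl) (φ τ : ℝ → ℝ) (u w : ℕ) (η : ℝ) (k : ℤ) (j : ℕ) (g : Pl → ℝ) (x : Pl) : ℝ :=
  ct (|Zc c φ τ u w k j g x| / η)

/-- the centred version -/
noncomputable def bo (τ : ℝ → ℝ) (u w : ℕ) (η : ℝ) (k : ℤ) (j : ℕ) (g : Pl → ℝ) (x : Pl) : ℝ :=
  ct (|Zo τ u w k j g x| / η)

/-- the set where the operator is larger than `η/8` -/
def Ez (c : Pl) (φ τ : ℝ → ℝ) (u w : ℕ) (η : ℝ) (k : ℤ) (g : Pl → ℝ) (j : ℕ) : Set Pl :=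
  {x | η / 8 < |Zc c φ τ u w k j g x|}

/-- bound for the multiplier of the sum of squares, class `u` -/
noncomputable def m0 (τ : ℝ → ℝ) (u : ℕ) (θ : ℝ) : ℝ :=
  (u : ℝ) + 1 + ({i : ℕ | 1 ≤ i ∧ 1 ≤ (2 : ℝ) ^ u * elt τ θ i}.ncard : ℝ)

/-- the shift of the scale for the chord `j` and the bunch size `2^v` -/
noncomputable def Tj (τ : ℝ → ℝ) (u v j : ℕ) : ℕ := 33 * (Wt τ u ((2 : ℝ) ^ v) (sl τ u j) + 2)

/-- the number which separates near and far chords -/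
noncomputable def T0 (τ : ℝ → ℝ) (u v l : ℕ) (θ : ℝ) : ℕ :=
  ⌈((Wt τ u ((2 : ℝ) ^ v) θ : ℝ) + 1) * (2 : ℝ) ^ ((3 / 4 : ℝ) * v) * (2 : ℝ) ^ ((3 / 4 : ℝ) * l)⌉₊ + 2

/-- bound for the multiplier of the differences (shift of the scale by `2^l Tj`) -/
noncomputable def mq (τ : ℝ → ℝ) (u v l : ℕ) (θ : ℝ) : ℝ :=
  (T0 τ u v l θ : ℝ) + u + 1 + ∑ j ∈ (Finset.range (2 ^ u)).filter
    (fun j => |sl τ u j - θ| ≤ (2 : ℝ) ^ (-(T0 τ u v l θ : ℤ))), ((2 : ℝ) ^ l * (Tj τ u v j : ℝ) + 1)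

/-- quadratic forms -/
noncomputable def BQ0 (τ : ℝ → ℝ) (u : ℕ) (g : Pl → ℝ) : ℝ≥0∞ :=
  ∫⁻ ξ, ENNReal.ofReal (m0 τ u (th ξ)) * ‖ft g ξ‖ₑ ^ 2

noncomputable def BQ (τ : ℝ → ℝ) (u v l : ℕ) (g : Pl → ℝ) : ℝ≥0∞ :=
  ∫⁻ ξ, ENNReal.ofReal (mq τ u v l (th ξ)) * ‖ft g ξ‖ₑ ^ 2

/-- the weight `ϖ` -/
noncomputable def om3 (v l : ℕ) : ℝ := (2 : ℝ) ^ ((3 * (l : ℝ) - 9 * v) / 8)

/-- the contribution of the exotic pairs of class `u` -/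
noncomputable def EX (τ : ℝ → ℝ) (u v₀ : ℕ) (g : Pl → ℝ) : ℝ≥0∞ :=
  ∑ v ∈ Finset.Icc v₀ u, ∑' l : ℕ, (ENNReal.ofReal ((2 : ℝ) ^ ((v : ℝ) - l) / om3 v l) * BQ τ u v l g +
    ENNReal.ofReal ((2 : ℝ) ^ ((v : ℝ) - l) * om3 v l) * BQ0 τ u g)

/-- the scales of the exotic partners of the chord `j` -/
noncomputable def Wv (τ : ℝ → ℝ) (u j v : ℕ) : ℕ :=
  if v ≤ u then Wt τ u ((2 : ℝ) ^ v) (sl τ u j) + 2 else 0

/-- the energies of class `u`, scale `k`, window `q` (length `2^(k+32q)`) -/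
noncomputable def EC (c : Pl) (φ τ : ℝ → ℝ) (u q v₀ : ℕ) (η Γ : ℝ) (k : ℤ) (g : Pl → ℝ) : ℝ≥0∞ :=
  ∑ j ∈ Finset.range (2 ^ u), ∑ v ∈ Finset.Icc v₀ u, (if q ≤ Wv τ u j v then
    ENNReal.ofReal ((2 : ℝ) ^ v) * ∑ i ∈ Finset.range 2,
      EN (sl τ u j) (gk i (pr (sl τ u j) ((2 : ℝ) ^ k • ce c φ u j))) Γ (k - (Wv τ u j v : ℤ))
        (k + 24 * (q : ℤ)) (bz c φ τ u (32 * q) η k j g) else 0)

/-- chords of class `u` which are large at the length `2^(k+w)` -/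
def Hw (c : Pl) (φ τ : ℝ → ℝ) (u w : ℕ) (η : ℝ) (k : ℤ) (g : Pl → ℝ) (x : Pl) : Set ℕ :=
  {j : ℕ | j < 2 ^ u ∧ η ≤ |Zc c φ τ u w k j g x|}

end Pool.Agent.Helper61.P3
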