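import Pool.Agent.Helper61.P3.Defs3

/-!
# Project P3 (MP_cb927e_an): the endpoint p = 3, definitions 4 (types)
-/

set_option autoImplicit false

open MeasureTheory Set Filter Topology
open scoped ENNReal RealInnerProductSpace

namespace Pool.Agent.Helper61.P3

open Pool.Agent.Helper68.LM (Pl BB Bd Av HL ft fm DQ)
open Pool.Agent.Helper20.RG
open Pool.Agent.Helper20.EQ
open Pool.Agent.Helper68.EP (elt GapP)

/-- the number of hits which belongs to the type `(n, ρ)` and the size `V` -/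
noncomputable def mt (V : ℝ) (u n ρ : ℕ) : ℝ :=
  V / 22000 * (2 : ℝ) ^ ((u : ℝ) + ρ - n - ((n : ℝ) + ρ) / 100)

/-- the weight of the distance `s` -/
noncomputable def Vs (s : ℕ) : ℝ := 1 / (16 * (1 + (s : ℝ)) ^ 2)

/-- class `u` has the type `(n, ρ)` at `x` -/
def TY (c : Pl) (φ τ : ℝ → ℝ) (V : ℝ) (u n ρ : ℕ) (k l : ℤ) (f : Pl → ℝ) (x : Pl) : Prop :=
  10000 * n < u ∧ mt V u n ρ ≤ ((Hh c φ τ u ρ k (lev f (l - 1 + n)) x).ncard : ℝ)

end Pool.Agent.Helper61.P3
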