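import Pool.Agent.Helper61.P3.St3
import Pool.Agent.Helper27.P3.FARnum

/-!
# Project P3 (MP_cb927e_an): module NEA, the two cases for one window
-/

set_option autoImplicit false

open MeasureTheory Set Filter Topology
open scoped ENNReal RealInnerProductSpace

namespace Pool.Agent.Helper61.P3

open Pool.Agent.Helper68.LM (Pl BB Bd Av HL ft fm DQ)
open Pool.Agent.Helper20.RG
open Pool.Agent.Helper20.EQ
open Pool.Agent.Helper68.EP (elt GapP)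
open Pool.Agent.Helper27.P3 (et_eq et_pos et_sq_inv et_le_one meas_Zc cheb)

/-- the third power of the number of hits -/
theorem nea_m3 (a m : ℝ) (h : (2 : ℝ) ^ a ≤ m) : 1 / (m / 2) ^ 3 ≤ 8 * (2 : ℝ) ^ (-(3 * a)) := by
  have h0 : (0 : ℝ) < (2 : ℝ) ^ a := by positivity
  have hm : 0 < m := lt_of_lt_of_le h0 h
  have e1 : (2 : ℝ) ^ (-(3 * a)) = 1 / ((2 : ℝ) ^ a) ^ 3 := by
    rw [Real.rpow_neg (by norm_num), one_div, ← Real.rpow_natCast ((2 : ℝ) ^ a), ← Real.rpow_mul (by norm_num)]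
    congr 2
    push_cast
    ring
  have e2 : 1 / (m / 2) ^ 3 = 8 * (1 / m ^ 3) := by
    field_simp
    norm_num
  rw [e1, e2]
  have h3 : ((2 : ℝ) ^ a) ^ 3 ≤ m ^ 3 := pow_le_pow_left₀ h0.le h 3
  have h4 : 1 / m ^ 3 ≤ 1 / ((2 : ℝ) ^ a) ^ 3 := one_div_le_one_div_of_le (by positivity) h3
  linarith

theorem nea_four (ρ : ℕ) : (4 : ℝ) ^ ρ = (2 : ℝ) ^ (2 * (ρ : ℝ)) := by
  rw [Real.rpow_mul (by norm_num), Real.rpow_natCast]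
  norm_num

theorem nea_num1 (u s ρ v₀ : ℕ) (m CW : ℝ) (hCW : 0 ≤ CW) (hρ : 20000 * ρ ≤ s) (hv : 4 * v₀ ≤ s)
    (hm : (2 : ℝ) ^ ((u : ℝ) - s / 20000) ≤ m) :
    CW * (2 : ℝ) ^ (-((s : ℝ) / 2)) / ((m / 2) ^ 3 * (et ρ) ^ 2) * (2 : ℝ) ^ v₀ ≤
      32 * CW * (2 : ℝ) ^ (-((s : ℝ) / 8)) * (2 : ℝ) ^ (-(3 * (u : ℝ))) ∧
    CW * (2 : ℝ) ^ (-((s : ℝ) / 2)) / ((m / 2) ^ 3 * (et ρ) ^ 2) ≤
      32 * CW * (2 : ℝ) ^ ((s : ℝ) / 100) * (2 : ℝ) ^ (-(3 * (u : ℝ))) := by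
  have hρ' : 20000 * (ρ : ℝ) ≤ s := by exact_mod_cast hρ
  have hv' : 4 * (v₀ : ℝ) ≤ s := by exact_mod_cast hv
  have hs0 : (0 : ℝ) ≤ s := Nat.cast_nonneg s
  have hρ0 : (0 : ℝ) ≤ ρ := Nat.cast_nonneg ρ
  have hm3 := nea_m3 _ m hm
  have h0 : (0 : ℝ) < (2 : ℝ) ^ ((u : ℝ) - s / 20000) := by positivity
  have hm0 : 0 < m := lt_of_lt_of_le h0 hm
  have key : (2 : ℝ) ^ (-((s : ℝ) / 2)) / ((m / 2) ^ 3 * (et ρ) ^ 2) ≤
      32 * (2 : ℝ) ^ (-((s : ℝ) / 2) + (-(3 * ((u : ℝ) - s / 20000))) + 2 * (ρ : ℝ)) := by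
    have e1 : (2 : ℝ) ^ (-((s : ℝ) / 2)) / ((m / 2) ^ 3 * (et ρ) ^ 2) =
        (2 : ℝ) ^ (-((s : ℝ) / 2)) * (1 / (m / 2) ^ 3) * (1 / (et ρ) ^ 2) := by
      field_simp
    rw [e1, et_sq_inv, Real.rpow_add (by norm_num) (2 * (ρ : ℝ)) 2, Real.rpow_add (by norm_num) _ (2 * (ρ : ℝ)),
      Real.rpow_add (by norm_num) (-((s : ℝ) / 2))]
    have e2 : (2 : ℝ) ^ (2 : ℝ) = 4 := by norm_num
    rw [e2]
    calc (2 : ℝ) ^ (-((s : ℝ) / 2)) * (1 / (m / 2) ^ 3) * ((2 : ℝ) ^ (2 * (ρ : ℝ)) * 4)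
        ≤ (2 : ℝ) ^ (-((s : ℝ) / 2)) * (8 * (2 : ℝ) ^ (-(3 * ((u : ℝ) - s / 20000)))) *
          ((2 : ℝ) ^ (2 * (ρ : ℝ)) * 4) := by gcongr
      _ = _ := by ring
  have key2 : ∀ a : ℝ, -((s : ℝ) / 2) + (-(3 * ((u : ℝ) - s / 20000))) + 2 * (ρ : ℝ) ≤ a + (-(3 * (u : ℝ))) →
      CW * (2 : ℝ) ^ (-((s : ℝ) / 2)) / ((m / 2) ^ 3 * (et ρ) ^ 2) ≤
        32 * CW * (2 : ℝ) ^ a * (2 : ℝ) ^ (-(3 * (u : ℝ))) := by
    intro a ha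
    have h1 : (2 : ℝ) ^ (-((s : ℝ) / 2) + (-(3 * ((u : ℝ) - s / 20000))) + 2 * (ρ : ℝ)) ≤
        (2 : ℝ) ^ a * (2 : ℝ) ^ (-(3 * (u : ℝ))) := by
      rw [← Real.rpow_add (by norm_num)]
      exact Real.rpow_le_rpow_of_exponent_le (by norm_num) ha
    calc CW * (2 : ℝ) ^ (-((s : ℝ) / 2)) / ((m / 2) ^ 3 * (et ρ) ^ 2)
        = CW * ((2 : ℝ) ^ (-((s : ℝ) / 2)) / ((m / 2) ^ 3 * (et ρ) ^ 2)) := by ring
      _ ≤ CW * (32 * ((2 : ℝ) ^ a * (2 : ℝ) ^ (-(3 * (u : ℝ))))) :=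
          mul_le_mul_of_nonneg_left (key.trans (mul_le_mul_of_nonneg_left h1 (by norm_num))) hCW
      _ = _ := by ring
  constructor
  · have h1 := key2 (-((s : ℝ) / 8) - v₀) (by linarith)
    have e3 : (2 : ℝ) ^ (-((s : ℝ) / 8) - v₀) * (2 : ℝ) ^ v₀ = (2 : ℝ) ^ (-((s : ℝ) / 8)) := by
      rw [← Real.rpow_natCast, ← Real.rpow_add (by norm_num)]
      congr 1
      ring
    calc CW * (2 : ℝ) ^ (-((s : ℝ) / 2)) / ((m / 2) ^ 3 * (et ρ) ^ 2) * (2 : ℝ) ^ v₀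
        ≤ 32 * CW * (2 : ℝ) ^ (-((s : ℝ) / 8) - v₀) * (2 : ℝ) ^ (-(3 * (u : ℝ))) * (2 : ℝ) ^ v₀ :=
          mul_le_mul_of_nonneg_right h1 (by positivity)
      _ = 32 * CW * ((2 : ℝ) ^ (-((s : ℝ) / 8) - v₀) * (2 : ℝ) ^ v₀) * (2 : ℝ) ^ (-(3 * (u : ℝ))) := by ring
      _ = _ := by rw [e3]
  · exact key2 ((s : ℝ) / 100) (by linarith)

/-- NEA, case (ii), one window -/
theorem neaII (hWIG : StWIG) (hWLI : StWLI) (φ τ : ℝ → ℝ) (A : ℝ) (c : Pl) (hG : Graph φ τ) (hA : 0 < A)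
    (hGap : GapP A 3 τ) : ∃ (C : ℝ) (U₀ : ℕ), 1 ≤ C ∧ 2 ≤ U₀ ∧
    ∀ (u s ρ i : ℕ) (m : ℝ) (g : Pl → ℝ) (R : ℤ → Set Pl), U₀ ≤ u → 2100 ≤ s → s ≤ 8 * u →
      20000 * ρ ≤ s → (2 : ℝ) ^ ((u : ℝ) - s / 20000) ≤ m → BB g → (∀ x, 0 ≤ g x ∧ g x ≤ 1) →
      i < u / 10 →
      (∀ k : ℤ, ∀ x ∈ R k, m / 2 ≤ ((Hw c φ τ u (32 * qw u i) (et ρ / 2) k g x).ncard : ℝ) ∧
        GW c φ τ u (qw u i) (et ρ) ((2 : ℝ) ^ (-((s : ℝ) / 2))) k g x) →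
      ∑' k : ℤ, volume (R k) ≤
        ENNReal.ofReal (C * (2 : ℝ) ^ (-((s : ℝ) / 8))) * (ENNReal.ofReal ((2 : ℝ) ^ (-(3 * (u : ℝ)))) * BQ0 τ u g) +
        ENNReal.ofReal (C * (2 : ℝ) ^ ((s : ℝ) / 100)) *
          (ENNReal.ofReal ((2 : ℝ) ^ (-(3 * (u : ℝ)))) * EX τ u (s / 4) g) := by
  obtain ⟨CW, hCW, hWW⟩ := hWIG φ τ A c hG hA hGap
  obtain ⟨U1, hU1, hII⟩ := hWLI φ τ A hG hA hGap
  refine ⟨32 * CW, U1, by linarith, by omega, ?_⟩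
  intro u s ρ i m g R hu hs hs8 hρ hm hg hg1 hi hR
  have hu1000 : 1000 ≤ u := hU1.trans hu
  have hu' : (1000 : ℝ) ≤ u := by exact_mod_cast hu1000
  have hs' : (s : ℝ) ≤ 8 * u := by exact_mod_cast hs8
  have hs2 : (2100 : ℝ) ≤ s := by exact_mod_cast hs
  obtain ⟨w1, w2, w3, w4⟩ := hII u i hu (by omega)
  have hm1 : (2 : ℝ) ^ ((1999 / 2000 : ℝ) * u) ≤ m := by
    refine le_trans (Real.rpow_le_rpow_of_exponent_le (by norm_num) ?_) hm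
    linarith
  have hm0 : 8192 ≤ m := by
    refine le_trans ?_ hm1
    have h1 : (2 : ℝ) ^ (13 : ℝ) ≤ (2 : ℝ) ^ ((1999 / 2000 : ℝ) * u) := by
      apply Real.rpow_le_rpow_of_exponent_le (by norm_num)
      linarith
    have h2 : (2 : ℝ) ^ (13 : ℝ) = 8192 := by norm_num
    linarith
  have hD1 : (2 : ℝ) ^ (-((s : ℝ) / 2)) ≤ 1 :=
    Real.rpow_le_one_of_one_le_of_nonpos (by norm_num) (by linarith)
  have hD0 : (0 : ℝ) < (2 : ℝ) ^ (-((s : ℝ) / 2)) := by positivity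
  have hη1 : (2 : ℝ) ^ (-((qw u i : ℕ) : ℤ)) ≤ et ρ := by
    unfold et
    apply zpow_le_zpow_right₀ (by norm_num)
    omega
  set v₀ : ℕ := min (s / 4) (u + 1) with hv₀
  have hEX : EX τ u v₀ g = EX τ u (s / 4) g := by
    rcases le_total (s / 4) (u + 1) with h | h
    · rw [hv₀, min_eq_left h]
    · rw [hv₀, min_eq_right h]
      unfold EX
      rw [Finset.Icc_eq_empty (by omega), Finset.Icc_eq_empty (by omega)]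
  have h := hWW u (qw u i) v₀ (et ρ) ((2 : ℝ) ^ (-((s : ℝ) / 2))) (m / 2) g R (by omega) (by omega)
    (by omega) (by omega) hη1 (et_le_one ρ) hg hg1 (by linarith) hD0 (by linarith) (by
      intro j _
      have h1 := w4 u (sl τ u j) m le_rfl (by omega) hm1
      linarith) (by
      intro k x hx
      obtain ⟨h1, h2⟩ := hR k x hx
      exact ⟨h1, h2.1, h2.2.1⟩)
  rw [hEX] at h
  obtain ⟨n1, n2⟩ := nea_num1 u s ρ v₀ m CW (by linarith) hρ (by omega) hm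
  refine h.trans ?_
  rw [mul_add]
  have hCW0 : 0 ≤ CW := by linarith
  apply add_le_add
  · rw [← mul_assoc, ← mul_assoc, ← ENNReal.ofReal_mul (by positivity), ← ENNReal.ofReal_mul (by positivity)]
    exact mul_le_mul_left (ENNReal.ofReal_le_ofReal n1) _
  · rw [← mul_assoc, ← ENNReal.ofReal_mul (by positivity)]
    exact mul_le_mul_left (ENNReal.ofReal_le_ofReal n2) _

theorem nea_num4 (K : ℝ) : ∃ N₀ : ℕ, ∀ u : ℕ, N₀ ≤ u → K ≤ (2 : ℝ) ^ ((1 / 2 : ℝ) * u) := by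
  refine ⟨2 * ⌈K⌉₊, fun u hu => ?_⟩
  have h1 : K ≤ (⌈K⌉₊ : ℝ) := Nat.le_ceil K
  have h2 : ((⌈K⌉₊ : ℕ) : ℝ) ≤ (2 : ℝ) ^ ⌈K⌉₊ := by
    exact_mod_cast (Nat.lt_two_pow_self (n := ⌈K⌉₊)).le
  have h3 : (2 : ℝ) ^ ⌈K⌉₊ ≤ (2 : ℝ) ^ ((1 / 2 : ℝ) * u) := by
    rw [← Real.rpow_natCast]
    refine Real.rpow_le_rpow_of_exponent_le (by norm_num) ?_
    have : ((2 * ⌈K⌉₊ : ℕ) : ℝ) ≤ u := by exact_mod_cast hu
    push_cast at this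
    linarith
  linarith

theorem nea_num2 (u s ρ ρ' v₀ : ℕ) (m' CA CS K D₁ : ℝ) (hCA : 0 ≤ CA) (hCS : 1 ≤ CS) (hK : 1 ≤ K)
    (hD₁ : 0 < D₁) (hDK : D₁ ≤ K * (4 : ℝ) ^ ρ')
    (hρ : 20000 * ρ ≤ s) (hρ' : 20000 * ρ' ≤ s) (hv : 4 * v₀ ≤ s)
    (hm : (2 : ℝ) ^ ((u : ℝ) + s - s / 20000) ≤ m') :
    CA * D₁ ^ 2 * (2 : ℝ) ^ v₀ / ((m' / 2) ^ 3 * (2 : ℝ) ^ (-(s : ℝ))) * (64 / (et ρ) ^ 2 * CS) ≤
      2048 * CA * K ^ 2 * CS * (2 : ℝ) ^ (-((s : ℝ) / 8)) * (2 : ℝ) ^ (-(3 * (u : ℝ))) ∧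
    CA * D₁ / ((m' / 2) ^ 3 * (et ρ') ^ 2) ≤
      2048 * CA * K ^ 2 * CS * (2 : ℝ) ^ ((s : ℝ) / 100) * (2 : ℝ) ^ (-(3 * ((u : ℝ) + s))) := by
  have hρ1 : 20000 * (ρ : ℝ) ≤ s := by exact_mod_cast hρ
  have hρ2 : 20000 * (ρ' : ℝ) ≤ s := by exact_mod_cast hρ'
  have hv' : 4 * (v₀ : ℝ) ≤ s := by exact_mod_cast hv
  have hs0 : (0 : ℝ) ≤ s := Nat.cast_nonneg s
  have hm3 := nea_m3 _ m' hm
  have h0 : (0 : ℝ) < (2 : ℝ) ^ ((u : ℝ) + s - s / 20000) := by positivity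
  have hm0 : 0 < m' := lt_of_lt_of_le h0 hm
  have e0 := et_pos ρ
  have e0' := et_pos ρ'
  rw [nea_four] at hDK
  constructor
  · have e1 : CA * D₁ ^ 2 * (2 : ℝ) ^ v₀ / ((m' / 2) ^ 3 * (2 : ℝ) ^ (-(s : ℝ))) * (64 / (et ρ) ^ 2 * CS) =
        64 * CA * CS * (D₁ ^ 2 * (2 : ℝ) ^ v₀ * (1 / (m' / 2) ^ 3) * (1 / (2 : ℝ) ^ (-(s : ℝ))) *
          (1 / (et ρ) ^ 2)) := by
      field_simp
    have e2 : 1 / (2 : ℝ) ^ (-(s : ℝ)) = (2 : ℝ) ^ (s : ℝ) := by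
      rw [Real.rpow_neg (by norm_num), one_div, inv_inv]
    have e3 : (2 : ℝ) ^ v₀ = (2 : ℝ) ^ (v₀ : ℝ) := (Real.rpow_natCast _ _).symm
    have e4 : (2 : ℝ) ^ (2 : ℝ) = 4 := by norm_num
    have e5 : (K * (2 : ℝ) ^ (2 * (ρ' : ℝ))) ^ 2 = K ^ 2 * (2 : ℝ) ^ (4 * (ρ' : ℝ)) := by
      rw [mul_pow, ← Real.rpow_natCast ((2 : ℝ) ^ (2 * (ρ' : ℝ))), ← Real.rpow_mul (by norm_num)]
      congr 2
      push_cast
      ring
    rw [e1, e2, e3, et_sq_inv, Real.rpow_add (by norm_num) (2 * (ρ : ℝ)) 2, e4]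
    calc 64 * CA * CS * (D₁ ^ 2 * (2 : ℝ) ^ (v₀ : ℝ) * (1 / (m' / 2) ^ 3) * (2 : ℝ) ^ (s : ℝ) *
          ((2 : ℝ) ^ (2 * (ρ : ℝ)) * 4))
        ≤ 64 * CA * CS * ((K * (2 : ℝ) ^ (2 * (ρ' : ℝ))) ^ 2 * (2 : ℝ) ^ (v₀ : ℝ) *
          (8 * (2 : ℝ) ^ (-(3 * ((u : ℝ) + s - s / 20000)))) * (2 : ℝ) ^ (s : ℝ) *
          ((2 : ℝ) ^ (2 * (ρ : ℝ)) * 4)) := by gcongr
      _ = 2048 * CA * K ^ 2 * CS * ((2 : ℝ) ^ (4 * (ρ' : ℝ)) * (2 : ℝ) ^ (v₀ : ℝ) *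
          (2 : ℝ) ^ (-(3 * ((u : ℝ) + s - s / 20000))) * (2 : ℝ) ^ (s : ℝ) * (2 : ℝ) ^ (2 * (ρ : ℝ))) := by
          rw [e5]
          ring
      _ = 2048 * CA * K ^ 2 * CS * (2 : ℝ) ^ (4 * (ρ' : ℝ) + v₀ + (-(3 * ((u : ℝ) + s - s / 20000))) + s +
          2 * (ρ : ℝ)) := by
          rw [Real.rpow_add (by norm_num) _ (2 * (ρ : ℝ)), Real.rpow_add (by norm_num) _ (s : ℝ),
            Real.rpow_add (by norm_num) _ (-(3 * ((u : ℝ) + s - s / 20000))),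
            Real.rpow_add (by norm_num) _ (v₀ : ℝ)]
      _ ≤ 2048 * CA * K ^ 2 * CS * (2 : ℝ) ^ (-((s : ℝ) / 8) + (-(3 * (u : ℝ)))) := by
          apply mul_le_mul_of_nonneg_left _ (by positivity)
          apply Real.rpow_le_rpow_of_exponent_le (by norm_num)
          linarith
      _ = _ := by
          rw [Real.rpow_add (by norm_num), mul_assoc]
          ring
  · have e1 : CA * D₁ / ((m' / 2) ^ 3 * (et ρ') ^ 2) = CA * (D₁ * (1 / (m' / 2) ^ 3) * (1 / (et ρ') ^ 2)) := by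
      field_simp
    have e4 : (2 : ℝ) ^ (2 : ℝ) = 4 := by norm_num
    rw [e1, et_sq_inv, Real.rpow_add (by norm_num) (2 * (ρ' : ℝ)) 2, e4]
    have hK2 : K ≤ K ^ 2 := by nlinarith
    calc CA * (D₁ * (1 / (m' / 2) ^ 3) * ((2 : ℝ) ^ (2 * (ρ' : ℝ)) * 4))
        ≤ CA * ((K * (2 : ℝ) ^ (2 * (ρ' : ℝ))) * (8 * (2 : ℝ) ^ (-(3 * ((u : ℝ) + s - s / 20000)))) *
          ((2 : ℝ) ^ (2 * (ρ' : ℝ)) * 4)) := by gcongr
      _ = 32 * CA * K * ((2 : ℝ) ^ (2 * (ρ' : ℝ)) * (2 : ℝ) ^ (-(3 * ((u : ℝ) + s - s / 20000))) *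
          (2 : ℝ) ^ (2 * (ρ' : ℝ))) := by ring
      _ = 32 * CA * K * (2 : ℝ) ^ (2 * (ρ' : ℝ) + (-(3 * ((u : ℝ) + s - s / 20000))) + 2 * (ρ' : ℝ)) := by
          rw [Real.rpow_add (by norm_num) _ (2 * (ρ' : ℝ)),
            Real.rpow_add (by norm_num) _ (-(3 * ((u : ℝ) + s - s / 20000)))]
      _ ≤ 32 * CA * K * (2 : ℝ) ^ ((s : ℝ) / 100 + (-(3 * ((u : ℝ) + s)))) := by
          apply mul_le_mul_of_nonneg_left _ (by positivity)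
          apply Real.rpow_le_rpow_of_exponent_le (by norm_num)
          linarith
      _ ≤ 2048 * CA * K ^ 2 * CS * (2 : ℝ) ^ ((s : ℝ) / 100 + (-(3 * ((u : ℝ) + s)))) := by
          apply mul_le_mul_of_nonneg_right _ (by positivity)
          have h1 : CA * K ≤ CA * K ^ 2 := mul_le_mul_of_nonneg_left hK2 hCA
          have h2 : CA * K ^ 2 * 1 ≤ CA * K ^ 2 * CS := mul_le_mul_of_nonneg_left hCS (by positivity)
          have h3 : 0 ≤ CA * K ^ 2 := by positivity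
          nlinarith
      _ = _ := by
          rw [Real.rpow_add (by norm_num), mul_assoc]
          ring

/-- NEA, case (i), one window -/
theorem neaI (hWIA : StWIA) (hWLI : StWLI) (hSHQ : StSHQ) (φ τ : ℝ → ℝ) (A : ℝ) (c : Pl) (hG : Graph φ τ)
    (hA : 0 < A) (hGap : GapP A 3 τ) (K : ℝ) (hK : 1 ≤ K) : ∃ (C : ℝ) (U₀ : ℕ), 1 ≤ C ∧ 2 ≤ U₀ ∧
    ∀ (u s ρ ρ' i : ℕ) (m' D₁ : ℝ) (g g' : Pl → ℝ) (R : ℤ → Set Pl), U₀ ≤ u → 2100 ≤ s → s ≤ 8 * u →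
      20000 * ρ ≤ s → 20000 * ρ' ≤ s → (2 : ℝ) ^ ((u : ℝ) + s - s / 20000) ≤ m' → 0 < D₁ →
      D₁ ≤ K * (4 : ℝ) ^ ρ' → BB g → BB g' → (∀ x, 0 ≤ g x ∧ g x ≤ 1) → (∀ x, 0 ≤ g' x ∧ g' x ≤ 1) →
      i < u / 10 →
      (∀ k : ℤ, ∀ x ∈ R k, m' / 2 ≤ ((Hw c φ τ (u + s) (32 * qw u i) (et ρ' / 2) k g' x).ncard : ℝ) ∧
        GW c φ τ (u + s) (qw u i) (et ρ') D₁ k g' x ∧
        ¬ TD c φ τ u (qw u i) (et ρ) ((2 : ℝ) ^ (-(s : ℝ))) k g x) →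
      ∑' k : ℤ, volume (R k) ≤
        ENNReal.ofReal (C * (2 : ℝ) ^ (-((s : ℝ) / 8))) * (ENNReal.ofReal ((2 : ℝ) ^ (-(3 * (u : ℝ)))) * BQ0 τ u g) +
        ENNReal.ofReal (C * (2 : ℝ) ^ ((s : ℝ) / 100)) *
          (ENNReal.ofReal ((2 : ℝ) ^ (-(3 * ((u : ℝ) + s)))) * EX τ (u + s) (s / 4) g') := by
  obtain ⟨CA, hCA, hAA⟩ := hWIA φ τ A c hG hA hGap
  obtain ⟨U1, hU1, hII⟩ := hWLI φ τ A hG hA hGap
  obtain ⟨CS, hCS, hSS⟩ := hSHQ φ τ A c hG hA hGap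
  obtain ⟨N₀, hN₀⟩ := nea_num4 (8000 * K)
  have hC1 : 1 ≤ CA * K ^ 2 * CS := by
    have h1 : (1 : ℝ) ≤ K ^ 2 := one_le_pow₀ hK
    have h2 : 1 ≤ CA * K ^ 2 := by nlinarith
    nlinarith
  refine ⟨2048 * CA * K ^ 2 * CS, U1 + N₀, by nlinarith, by omega, ?_⟩
  intro u s ρ ρ' i m' D₁ g g' R hu hs hs8 hρ hρ' hm hD₁ hDK hg hg' hg1 hg1' hi hR
  have hu1 : U1 ≤ u := by omega
  have hu1000 : 1000 ≤ u := hU1.trans hu1
  have hu' : (1000 : ℝ) ≤ u := by exact_mod_cast hu1000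
  have hs' : (s : ℝ) ≤ 8 * u := by exact_mod_cast hs8
  have hs2 : (2100 : ℝ) ≤ s := by exact_mod_cast hs
  have hρ2 : 20000 * (ρ' : ℝ) ≤ s := by exact_mod_cast hρ'
  obtain ⟨w1, w2, w3, w4⟩ := hII u i hu1 (by omega)
  have hm1 : (2 : ℝ) ^ ((1999 / 2000 : ℝ) * ((u + s : ℕ) : ℝ)) ≤ m' := by
    refine le_trans (Real.rpow_le_rpow_of_exponent_le (by norm_num) ?_) hm
    push_cast
    linarith
  have hm0 : 8192 ≤ m' := by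
    refine le_trans ?_ hm1
    have h1 : (2 : ℝ) ^ (13 : ℝ) ≤ (2 : ℝ) ^ ((1999 / 2000 : ℝ) * ((u + s : ℕ) : ℝ)) := by
      apply Real.rpow_le_rpow_of_exponent_le (by norm_num)
      push_cast
      linarith
    have h2 : (2 : ℝ) ^ (13 : ℝ) = 8192 := by norm_num
    linarith
  have hDm : 4000 * D₁ ≤ m' / 2 := by
    have h1 := hN₀ u (by omega)
    have h2 : 8000 * K * (4 : ℝ) ^ ρ' ≤ m' := by
      rw [nea_four]
      calc 8000 * K * (2 : ℝ) ^ (2 * (ρ' : ℝ)) ≤ (2 : ℝ) ^ ((1 / 2 : ℝ) * u) * (2 : ℝ) ^ (2 * (ρ' : ℝ)) :=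
            mul_le_mul_of_nonneg_right h1 (by positivity)
        _ = (2 : ℝ) ^ ((1 / 2 : ℝ) * u + 2 * (ρ' : ℝ)) := by rw [Real.rpow_add (by norm_num)]
        _ ≤ (2 : ℝ) ^ ((u : ℝ) + s - s / 20000) := by
            apply Real.rpow_le_rpow_of_exponent_le (by norm_num)
            linarith
        _ ≤ m' := hm
    linarith
  have hη1 : (2 : ℝ) ^ (-((qw u i : ℕ) : ℤ)) ≤ et ρ' := by
    unfold et
    apply zpow_le_zpow_right₀ (by norm_num)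
    omega
  have hη := et_pos ρ
  have hη' := et_pos ρ'
  have hcheb : ∑' k : ℤ, ∑ j ∈ Finset.range (2 ^ u), volume (Ez c φ τ u (32 * qw u i) (et ρ) k g j) ≤
      ENNReal.ofReal (64 / (et ρ) ^ 2 * CS) * BQ0 τ u g := by
    have h1 := (hSS u (32 * qw u i) g (by omega) hg).2.2.1
    calc ∑' k : ℤ, ∑ j ∈ Finset.range (2 ^ u), volume (Ez c φ τ u (32 * qw u i) (et ρ) k g j)
        ≤ ∑' k : ℤ, ∑ j ∈ Finset.range (2 ^ u), ENNReal.ofReal (64 / (et ρ) ^ 2) *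
          ∫⁻ x, ‖Zc c φ τ u (32 * qw u i) k j g x‖ₑ ^ 2 := by
          apply ENNReal.tsum_le_tsum
          intro k
          apply Finset.sum_le_sum
          intro j _
          have h2 := cheb (Zc c φ τ u (32 * qw u i) k j g) (meas_Zc c φ τ u (32 * qw u i) k j g hg.1) (et ρ / 8)
            (by positivity)
          have e : 1 / (et ρ / 8) ^ 2 = 64 / (et ρ) ^ 2 := by
            field_simp
            norm_num
          rw [e] at h2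
          exact h2
      _ = ENNReal.ofReal (64 / (et ρ) ^ 2) * ∑' k : ℤ, ∑ j ∈ Finset.range (2 ^ u),
          ∫⁻ x, ‖Zc c φ τ u (32 * qw u i) k j g x‖ₑ ^ 2 := by
          simp only [← Finset.mul_sum]
          exact ENNReal.tsum_mul_left
      _ ≤ ENNReal.ofReal (64 / (et ρ) ^ 2) * (ENNReal.ofReal CS * BQ0 τ u g) := mul_le_mul_right h1 _
      _ = _ := by
          rw [← mul_assoc, ← ENNReal.ofReal_mul (by positivity)]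
  have h := hAA (u + s) (qw u i) (s / 4) (2 ^ u) (et ρ') D₁ (m' / 2) ((2 : ℝ) ^ (-(s : ℝ))) g' R
    (fun k j => Ez c φ τ u (32 * qw u i) (et ρ) k g j) (by omega) (by omega) (by omega) (by omega) hη1
    (et_le_one ρ') hg' hg1' (by linarith) hD₁ hDm (by positivity) (by
      intro j _
      have h1 := w4 (u + s) (sl τ (u + s) j) m' (by omega) (by omega) hm1
      linarith) (by
      intro k j _
      exact measurableSet_lt measurable_const ((meas_Zc c φ τ u (32 * qw u i) k j g hg.1).abs)) (by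
      intro k x hx
      obtain ⟨h1, h2, h3⟩ := hR k x hx
      unfold TD at h3
      exact ⟨h1, h2.1, h2.2.1, h2.2.2, (not_le.1 h3).le⟩)
  obtain ⟨n1, n2⟩ := nea_num2 u s ρ ρ' (s / 4) m' CA CS K D₁ (by linarith) hCS hK hD₁ hDK hρ hρ' (by omega) hm
  have hCA0 : 0 ≤ CA := by linarith
  have hCS0 : 0 ≤ CS := by linarith
  have hm'0 : 0 < m' := by linarith
  refine h.trans ?_
  apply add_le_add
  · refine (mul_le_mul_right hcheb _).trans ?_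
    rw [← mul_assoc, ← mul_assoc, ← ENNReal.ofReal_mul (by positivity), ← ENNReal.ofReal_mul (by positivity)]
    exact mul_le_mul_left (ENNReal.ofReal_le_ofReal n1) _
  · rw [← mul_assoc, ← ENNReal.ofReal_mul (by positivity)]
    exact mul_le_mul_left (ENNReal.ofReal_le_ofReal n2) _

end Pool.Agent.Helper61.P3
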