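import Pool.Agent.Helper61.P3.St1
import Pool.Agent.Helper61.P3.Defs2

/-!
# Project P3 (MP_cb927e_an): interface statements, part 2 (sum over the squares; shift of the scale; one class in one window)
-/

set_option autoImplicit false

open MeasureTheory Set Filter Topology
open scoped ENNReal RealInnerProductSpace

namespace Pool.Agent.Helper61.P3

open Pool.Agent.Helper68.LM (Pl BB Bd Av HL ft fm DQ)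
open Pool.Agent.Helper20.RG
open Pool.Agent.Helper20.EQ
open Pool.Agent.Helper68.EP (elt GapP)

/-! ## Sum over the squares -/

/-- OVL (about 200 lines), overlaps.  The squares `Sq (zg L₂ n) (L₂/2)` cover the plane.  (1) a point is in at most `25²` of the squares `Sq (zg L₂ n) (12 L₂)`.  (2) for given `(y₀, ρ)` there are at most `2` values of `n.1` with `|y₀ - n.1 L₂| ≤ L₂/2` and for each at most `13` values of `n.2` with `|ρ - pr s (zg L₂ n)| ≤ 6 L₂` (no measurability is needed: finite sums of integrals are at most the integral of the sum, `le_lintegral_add`, and restriction of the measure, `lintegral_sum_measure`).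
(3) Let `q_n = Sq (zg L₂ n) (L₂/2)` contain the point `x ∈ R`.  For `y ∈ q_n`: `Sq x r ⊆ Sq y (2r)` (`L₂ ≤ r`), so `D r² ≤ ∑_j vol (S j ∩ Sq y (2r))`; integrate over `q_n` (area `L₂²`) and sum over these `n` (a point is in at most `4` of the `q_n`): `D r² L₂² #n ≤ 4 ∫ ∑_j vol (S j ∩ Sq y (2r)) dy = 4 (4r)² ∑_j vol (S j)`.
Hypotheses: hPT (RG). -/
def StOVL : Prop :=
  (∀ (L₂ : ℝ), 0 < L₂ → ∀ x : Pl, ∃ n : ℤ × ℤ, x ∈ Sq (zg L₂ n) (L₂ / 2)) ∧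
  (∀ (L₂ : ℝ) (E : Set Pl), 0 < L₂ → MeasurableSet E →
    ∑' n : ℤ × ℤ, volume (E ∩ Sq (zg L₂ n) (12 * L₂)) ≤ 625 * volume E) ∧
  (∀ (s : ℝ) (κ : ℤ → ℝ) (Γ : ℝ) (a ℓ : ℤ) (b : Pl → ℝ) (L₂ : ℝ), 0 < L₂ →
    ∑' n : ℤ × ℤ, LE s κ Γ a ℓ b (zg L₂ n) L₂ ≤ 26 * EN s κ Γ a ℓ b) ∧
  ∀ (N : ℕ) (L₂ r D : ℝ) (S : ℕ → Set Pl) (R : Set Pl), 0 < L₂ → L₂ ≤ r → 0 < D → (∀ j < N, MeasurableSet (S j)) →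
    (∀ x ∈ R, ENNReal.ofReal (D * r ^ 2) ≤ ∑ j ∈ Finset.range N, volume (S j ∩ Sq x r)) →
    ∑' n : ℤ × ℤ, {n : ℤ × ℤ | (R ∩ Sq (zg L₂ n) (L₂ / 2)).Nonempty}.indicator
      (fun _ => ENNReal.ofReal (L₂ ^ 2)) n ≤
      ENNReal.ofReal (64 / D) * ∑ j ∈ Finset.range N, volume (S j)

/-- RDT (about 150 lines), the ridge theorem in the plane.  `vol R ≤ ∑_n vol (R ∩ Sq (zg L₂ n) (L₂/2))` (OVL), RDN for every `n` with nonempty intersection, `∑_n LE ≤ 26 EN` (OVL; interchange the finite sums and the sum over `n`).  For `y, y' ∈ Sq z (12 L₂)`: `|y 0 - y' 0| ≤ 24 L₂`.  Hypotheses: hRDN, hOVL. -/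
def StRDT : Prop :=
  ∃ C : ℝ, 0 < C ∧ ∀ (N : ℕ) (s o : ℕ → ℝ) (b : ℕ → Pl → ℝ) (Et Er : ℕ → Set Pl) (p ℓ k : ℤ)
    (L₂ D m nst δ : ℝ) (i₀ v₀ v₁ : ℕ) (W : ℕ → ℕ → ℕ) (R : Set Pl),
    (∀ j < N, |s j| ≤ 1 ∧ Continuous (b j) ∧ HasCompactSupport (b j) ∧ ∀ y, 0 ≤ b j y ∧ b j y ≤ 1) →
    (∀ j < N, IsOpen (Et j) ∧ MeasurableSet (Er j)) →
    (∀ j < N, ∀ y y' : Pl, |y 0 - y' 0| ≤ 24 * L₂ → pr (s j) y = pr (s j) y' →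
      (y ∈ Et j → 1 / 2 < b j y') ∧ (0 < b j y → y' ∈ Er j) ∧ |b j y - b j y'| ≤ δ) →
    0 < L₂ → 1 ≤ i₀ → k ≤ p → p + 4 ≤ ℓ → 100 * (2 : ℝ) ^ p ≤ (2 : ℝ) ^ (-(i₀ : ℤ)) * (2 : ℝ) ^ ℓ →
    (N : ℝ) * (2 : ℝ) ^ ℓ ≤ (2 : ℝ) ^ (-(2 * (i₀ : ℤ))) * L₂ → (N : ℝ) * (2 : ℝ) ^ k ≤ L₂ →
    (∀ j < N, ({j' : ℕ | j' < N ∧ |s j - s j'| ≤ (2 : ℝ) ^ (-(i₀ : ℤ))}.ncard : ℝ) ≤ nst) →
    v₀ ≤ v₁ + 1 → (∀ j < N, ∀ v : ℕ, v₀ ≤ v → v ≤ v₁ + 1 →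
      ({j' : ℕ | j' < N ∧ |s j - s j'| ≤ (2 : ℝ) ^ (-(W j v : ℤ))}.ncard : ℝ) ≤ (2 : ℝ) ^ v) →
    (∀ j < N, W j (v₁ + 1) = 0) → 0 ≤ δ → (2 : ℝ) ^ (v₁ + 1) * δ ≤ 1 →
    200 * nst ≤ m → 1000 ≤ m → 0 < D → 4000 * D ≤ m →
    (∀ x ∈ R, m ≤ ({j : ℕ | j < N ∧ x ∈ Et j}.ncard : ℝ) ∧ Dens Er N x (2 * (2 : ℝ) ^ p) D ∧
      Dens Er N x (5 * (2 : ℝ) ^ ℓ / 2) D) →
    volume R ≤ ENNReal.ofReal (C * D / m ^ 3 * (2 : ℝ) ^ v₀) *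
        (∑' n : ℤ × ℤ, {n : ℤ × ℤ | (R ∩ Sq (zg L₂ n) (L₂ / 2)).Nonempty}.indicator
          (fun n => ∑ j ∈ Finset.range N, volume (Er j ∩ Sq (zg L₂ n) (12 * L₂))) n) +
      ENNReal.ofReal (C * D ^ 2 / m ^ 4) * ∑ j ∈ Finset.range N, ∑ v ∈ Finset.Icc v₀ v₁, (if i₀ ≤ W j v then
        ENNReal.ofReal ((2 : ℝ) ^ v) * ∑ i ∈ Finset.range 2,
          EN (s j) (gk i (o j)) (m / (125 * D)) (k - (W j v : ℤ)) ℓ (b j) else 0)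

/-! ## Shift of the scale -/

/-- LOW (about 350 lines), energies and shifts of the scale.  `U_a(b) = ∫∫ Tc (Γ Ed κ a (lnf s b y₀) ρ) dρ dy₀`.  (Joint measurability: `Ed κ a (lnf s b y₀) ρ = 2^(-a) ∫ 1[lft κ a r = lft κ a ρ] b (pt y₀ (r + s y₀)) dr`.)  (i) `(y₀, ρ) ↦ pt y₀ (ρ + s y₀)` preserves the measure (PT), `U_a(b) ≤ Γ ∫ b` (`Tc x ≤ x`, GA), and
`U_a(b) ≤ U_a(b') + Γ ∫ |b - b'|` (`|Tc x - Tc y| ≤ |x - y|`).  (ii) for `a ≤ ℓ`: `EN a ℓ b + U_a(b) = U_ℓ(b)`, since `∫ Ed κ ℓ F = ∫ F` for `F = Tc (Γ Ed κ a β) ≥ 0` (GA with `ψ = 1`, for almost every `y₀` `β` is integrable).  Let `F(T) = ∑_k EN (k+ℓ₀-T) (k+ℓ₀) (b k) ≤ Γ ∑_k ∫ b k < ∞` for every `T ≥ 0`, and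
`Δ(T) = ∑_k ∫ |b k - b (k+T)|`.  By (i), (ii): `EN (k+ℓ₀-T) (k+ℓ₀) (b k) ≤ EN (k+ℓ₀-T) (k+ℓ₀) (b (k+T)) + 2 Γ ∫ |b k - b (k+T)|`, and with `k' = k + T`: `EN (k'+ℓ₀-2T) (k'+ℓ₀-T) (b k') = EN (k'+ℓ₀-2T) (k'+ℓ₀) (b k') - EN (k'+ℓ₀-T) (k'+ℓ₀) (b k')` (additivity, from (ii)).  Sum over `k`: `F(T) ≤ F(2T) - F(T) + 2 Γ Δ(T)`, i.e.
`F(T) ≤ F(2T)/2 + Γ Δ(T)`.  By induction `F(T) ≤ 2^(-n) F(2^n T) + Γ ∑_{l < n} 2^(-l) Δ(2^l T)`; `F(2^n T)` is bounded: let `n → ∞`.  Hypotheses: hPT (RG), hGR, hGA, hGJ, hGE. -/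
def StLOW : Prop :=
  ∀ (s : ℝ) (κ : ℤ → ℝ) (Γ : ℝ) (ℓ₀ : ℤ) (T : ℕ) (b : ℤ → Pl → ℝ), |s| ≤ 1 → Gr κ → 0 ≤ Γ →
    (∀ k, Measurable (b k) ∧ ∀ x, 0 ≤ b k x ∧ b k x ≤ 1) → ∑' k : ℤ, ∫⁻ x, ENNReal.ofReal (b k x) ≠ ∞ →
    ∑' k : ℤ, EN s κ Γ (k + ℓ₀ - (T : ℤ)) (k + ℓ₀) (b k) ≤
      ENNReal.ofReal Γ * ∑' l : ℕ, ENNReal.ofReal ((1 / 2 : ℝ) ^ l) *
        ∑' k : ℤ, ∫⁻ x, ENNReal.ofReal |b k x - b (k + ((2 ^ l * T : ℕ) : ℤ)) x|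

/-- TRA (about 100 lines), translations.  `lnf s (b (· - w)) y₀ ρ = lnf s b (y₀ - w 0) (ρ - pr s w)`, and `Ed (gk i (o + x)) a (β (· - x)) t = Ed (gk i o) a β (t - x)` (`lft (gk i (o+x)) a t = lft (gk i o) a (t - x) + x`).  Translation invariance of the two integrals.  Second clause (monotone): GE.  Third: `ct` is `8`-Lipschitz and `0` on `t ≤ 1/4`:
if `|x|, |y| ≤ η/4` the left side is `0`; otherwise `max(|x|,|y|) ≥ η/4` and it is at most `8|x-y|/η ≤ (32/η²) |x-y| (|x|+|y|)`, and `|x-y| (|x|+|y|) ≤ |x-y|²/(2ϖ) + ϖ (|x|+|y|)²/2`.  Fourth: `ct (|x|/η) ≤ 16 x²/η²`.  Hypotheses: hGR, hGA, hGE. -/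
def StTRA : Prop :=
  (∀ (s o Γ : ℝ) (i : ℕ) (a ℓ : ℤ) (b : Pl → ℝ) (w : Pl),
    EN s (gk i (o + pr s w)) Γ a ℓ (fun y => b (y - w)) = EN s (gk i o) Γ a ℓ b) ∧
  (∀ (s Γ : ℝ) (κ : ℤ → ℝ) (a a' ℓ : ℤ) (b : Pl → ℝ), Gr κ → 0 ≤ Γ → Measurable b → (∀ y, 0 ≤ b y ∧ b y ≤ 1) →
    a ≤ a' → a' ≤ ℓ → EN s κ Γ a' ℓ b ≤ EN s κ Γ a ℓ b) ∧
  (∀ x y η ϖ : ℝ, 0 < η → 0 < ϖ → |ct (|x| / η) - ct (|y| / η)| ≤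
    32 / η ^ 2 * ((x - y) ^ 2 / ϖ + ϖ * (x ^ 2 + y ^ 2))) ∧
  (∀ x η : ℝ, 0 < η → 0 ≤ ct (|x| / η) ∧ ct (|x| / η) ≤ 1 ∧ ct (|x| / η) ≤ 16 * x ^ 2 / η ^ 2) ∧
  ∀ x y : ℝ, |ct x - ct y| ≤ 8 * |x - y|

/-! ## Multipliers -/

/-- SHM (about 300 lines), differences of two scales.  `ζ = 2^k ξ`, `Zt_j ζ = Zh (s j) 0 (m j) (m' j) (2^w) ζ = (κ_m ζ - κ_m' ζ) sinc(π 2^w ⟪E s, ζ⟫)`, `κ_m ζ = sinc(2π 2^(-m) ζ 0) sinc(2π 2^(-m) ζ 1)`.  Far `j` (`|s j - th ξ| > 2^(-T)`): `‖a - b‖² ≤ 2‖a‖² + 2‖b‖²`; for every `j` the sum over `k` of the second term is the same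
as that of the first one (shift of `k` by `V j`); `‖Zt_j‖² ≤ C Pso_j` (KD with `l = 2^w ≥ 1`, `Pso ≤ 1`), and the far part of `∑_k ∑_j Pso_j (2^k ξ)` is `≤ C (T + u + 1)` exactly as in OCN of project EQ (module of `StOCN`: bounded by PSM; `Pso_j ≤ 2^k ‖ξ‖` for small `k`; `Pso_j ≤ 1/(1 + |⟪E s, ζ⟫|)`, `|⟪E s, ζ⟫| ≥ 2^(-T) 2^k ‖ξ‖/4`
for large `k`; OCT).  Near `j`: `|xy - x'y'| ≤ |x - x'| + 2 |y - y'|` for `|x| ≤ 2`, `|y| ≤ 1`..., so `‖Zt ζ - Zt (2^V ζ)‖² ≤ 12 (|κ_m ζ - κ_m (2^V ζ)|² + |κ_m' ζ - κ_m' (2^V ζ)|² + |sinc(π 2^w b_k) - sinc(π 2^w 2^V b_k)|²)`, `b_k = 2^k |⟪E s, ξ⟫|`; each of the three has a sum over `k` at most `C (V + 8)` by OCT: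
for `κ_m` with `r = 2^(-m) ‖ξ‖`, `p = -V`, `q = 0` (`|1 - κ_m ζ| ≤ 4π 2^(-m) ‖ζ‖`, `|κ_m ζ| 2^(-m) ‖ζ‖ ≤ 1`, see MB of project RG), for `sinc` with `r = 2^w |⟪E s, ξ⟫|` (if this is `0` the difference is `0`).  Hypotheses: hPT, hSINC, hOCT (RG), hKD, hPSM (EQ). -/
def StSHM : Prop :=
  ∀ C₀ : ℝ, 0 < C₀ → ∃ C : ℝ, 0 < C ∧ ∀ (u : ℕ) (s : ℕ → ℝ) (c : ℕ → Pl) (m m' : ℕ → ℕ) (R : ℝ) (K : ℕ)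
    (A σ : ℝ), Sys u s c m m' C₀ R K A σ → ∀ (V : ℕ → ℕ) (w T : ℕ) (ξ : Pl), ξ ≠ 0 →
      ∑' k : ℤ, ∑ j ∈ Finset.range (2 ^ u),
        ‖Zh (s j) 0 (m j) (m' j) ((2 : ℝ) ^ w) ((2 : ℝ) ^ k • ξ) -
          Zh (s j) 0 (m j) (m' j) ((2 : ℝ) ^ w) ((2 : ℝ) ^ (k + (V j : ℤ)) • ξ)‖ₑ ^ 2 ≤
        ENNReal.ofReal (C * (T + u + 1 + ∑ j ∈ (Finset.range (2 ^ u)).filter
          (fun j => |s j - th ξ| ≤ (2 : ℝ) ^ (-(T : ℤ))), ((V j : ℝ) + 1)))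

/-- BN2 (about 300 lines), numbers (compare BNS of project EQ and its module).  `Y = 2^v`, `w = Wt τ u Y θ + 1`, `T₀ = T0 τ u v l θ`, `w Y^(3/4) 2^(3l/4) ≤ T₀ ≤ w Y^(3/4) 2^(3l/4) + 3 ≤ 4 w Y^(3/4) 2^(3l/4)`.  `T₀ ≥ Wt τ u Y θ + 2`, so for the `j` in the filter `Wt τ u Y (sl τ u j) ≤ Wt τ u Y θ + 1` (WT (3)) and `Tj ≤ 33 (Wt τ u Y θ + 3) ≤ 99 w`; there are at most
`nn τ u θ T₀ ≤ 1 + 2^u elt τ θ T₀` of them (CN).  So `mq ≤ C (w Y^(3/4) 2^(3l/4) + u + 1 + 2^l w 2^u elt τ θ T₀ + 2^l w)`.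
(a) `∑_u 2^(-3u) Wt ≤ ∑_u ∑_{1 ≤ i ≤ Wt} 2^(-3u) ≤ C A Y^(-3)` by WT (4) (`Y/2 ≤ 2^u elt τ θ i`) and SS (first, `y = Y/2`, `L i = elt τ θ i`, `p = 3`); `∑_{u ≥ v} 2^(-3u) ≤ 2 Y^(-3)`: so `∑_{u ≥ v} 2^(-3u) w Y^(3/4) 2^(3l/4) ≤ C Y^(-9/4) 2^(3l/4)`.  (b) `∑_{u ≥ v} 2^(-3u) (u+1) ≤ C (v+1) 2^(-3v) ≤ C 2^(-9v/4)`.
(d) `2^(-3u) 2^l w 2^u elt τ θ T₀`, `lam = Y^(3/4) 2^(-l/4)`: if `2^u elt τ θ T₀ ≤ lam` it is at most `2^(3l/4) Y^(3/4) 2^(-3u) w`, see (a).  Otherwise `w ≤ T₀ Y^(-3/4) 2^(-3l/4)` and `T₀ elt τ θ T₀ ≤ ∑_{i=1}^{T₀} elt τ θ i 1[lam ≤ 2^u elt τ θ i]` (elt decreasing), so the term is at most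
`2^(l/4) Y^(-3/4) 2^(-2u) ∑_i elt τ θ i 1[..]`, and SS (second, `y = lam`) gives `2^(l/4) Y^(-3/4) C A lam^(-2) = C A 2^(3l/4) Y^(-9/4)`.  (e) the last term (one near chord): `∑_u 2^(-3u) 2^l w ≤ C 2^l Y^(-3)` by (a); this is the second term of the bound.  Hypotheses: hCN, hWT, hSS (EQ). -/
def StBN2 : Prop :=
  ∀ (φ τ : ℝ → ℝ) (A : ℝ), Graph φ τ → 0 < A → GapP A 3 τ → ∃ C : ℝ, 0 < C ∧ ∀ (v l : ℕ) (θ : ℝ), 1 ≤ v →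
    ∑' u : ℕ, (if 1 ≤ u ∧ v ≤ u then ENNReal.ofReal ((2 : ℝ) ^ (-(3 * (u : ℝ))) * mq τ u v l θ) else 0) ≤
      ENNReal.ofReal (C * ((2 : ℝ) ^ ((3 / 4 : ℝ) * l - (9 / 4 : ℝ) * v) + (2 : ℝ) ^ ((l : ℝ) - 3 * v)))

/-- SHQ (about 200 lines), Plancherel.  Every `Zo τ u w k j g` is `BB` with Fourier transform `Zh (sl) 0 (mm) (mp) (2^w) (2^k ξ) ft g ξ` (YB of project RG, `|sl| ≤ 1`, `2^w > 0`; the difference of two such functions is `BB`), `Helper68.LM.StPL`, Tonelli.  First: `‖Zh‖² ≤ C Pso` (KD, `l = 2^w ≥ 1`, `Pso ≤ 1`) and MIM (project EQ, `p = 3`):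
`∑_k ∑_j Pso (2^k ξ) ≤ C (u + 1 + #{i : 1 ≤ i, 1 ≤ 2^u elt τ (th ξ) i})`.  Second: SHM with `V j = 2^l Tj τ u v j`, `T = T0 τ u v l (th ξ)` (for every `ξ` its own `T`); the systems are those of SYS (project RG, second part, `σ = 3`, `A ↦ A^(1/3)`, GPG; `2 ≤ u`), `C₀ = 200`.  Third: `Zc c φ τ u w k j g x = Zo τ u w k j g (x - 2^k ce)`
(definition of `Y`, `x - 2^k • 0 = x`), translation invariance.  Fourth: `m0 τ u θ ≤ u + 1 + A 2^(3u)` (`elt` is decreasing, so the set is `{1, .., n}` with `n 2^(-3u) ≤ ∑ elt^3 ≤ A`) and Plancherel.  Fifth: `mq` is bounded for fixed `u, v, l` (not needed).  Hypotheses: hPT, hYB, hSYS (RG), hKD, hMIM, hCN (EQ), hGPG (EP), hSHM. -/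
def StSHQ : Prop :=
  ∀ (φ τ : ℝ → ℝ) (A : ℝ) (c : Pl), Graph φ τ → 0 < A → GapP A 3 τ → ∃ C : ℝ, 1 ≤ C ∧
    ∀ (u w : ℕ) (g : Pl → ℝ), 2 ≤ u → BB g →
      (∑' k : ℤ, ∑ j ∈ Finset.range (2 ^ u), ∫⁻ x, ‖Zo τ u w k j g x‖ₑ ^ 2 ≤ ENNReal.ofReal C * BQ0 τ u g) ∧
      (∀ v l : ℕ, 1 ≤ v → v ≤ u → ∑' k : ℤ, ∑ j ∈ Finset.range (2 ^ u),
        ∫⁻ x, ‖Zo τ u w k j g x - Zo τ u w (k + ((2 ^ l * Tj τ u v j : ℕ) : ℤ)) j g x‖ₑ ^ 2 ≤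
          ENNReal.ofReal C * BQ τ u v l g) ∧
      (∑' k : ℤ, ∑ j ∈ Finset.range (2 ^ u), ∫⁻ x, ‖Zc c φ τ u w k j g x‖ₑ ^ 2 ≤ ENNReal.ofReal C * BQ0 τ u g) ∧
      BQ0 τ u g ≤ ENNReal.ofReal (C * (2 : ℝ) ^ (3 * u)) * ∫⁻ x, ‖g x‖ₑ ^ 2

/-- QSU (about 250 lines), summation over the classes.  Tonelli and Plancherel (`Helper68.LM.StPL`).  First: for every `θ`: `∑_{u ≥ 2} 2^(-3u) m0 τ u θ ≤ C` (`∑ 2^(-3u) (u+1) ≤ C`, and SS (first, `y = 1`)).  Second: BN2 with `θ = th ξ`.  Third: exchange the sums: `∑_v ∑_l [2^(v-l)/ϖ · ∑_{u ≥ v} 2^(-3u) BQ + 2^(v-l) ϖ ∑_u 2^(-3u) BQ0]`, `ϖ = 2^((3l-9v)/8)`: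
`2^(v-l) 2^(-(3l-9v)/8) (2^(3l/4 - 9v/4) + 2^(l-3v)) = 2^(-v/8 - 5l/8) + 2^(-7v/8 - 3l/8)`, `2^(v-l) ϖ = 2^(-v/8 - 5l/8)`; sum over `l ≥ 0` and `v ≥ v₀`: `≤ C 2^(-v₀/8)`.  Hypotheses: hSS (EQ), hBN2. -/
def StQSU : Prop :=
  ∀ (φ τ : ℝ → ℝ) (A : ℝ), Graph φ τ → 0 < A → GapP A 3 τ → ∃ C : ℝ, 1 ≤ C ∧ ∀ g : Pl → ℝ, BB g →
    (∑' u : ℕ, (if 2 ≤ u then ENNReal.ofReal ((2 : ℝ) ^ (-(3 * (u : ℝ)))) * BQ0 τ u g else 0) ≤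
      ENNReal.ofReal C * ∫⁻ x, ‖g x‖ₑ ^ 2) ∧
    ∀ v₀ : ℕ, 1 ≤ v₀ →
      ∑' u : ℕ, (if 2 ≤ u then ENNReal.ofReal ((2 : ℝ) ^ (-(3 * (u : ℝ)))) * EX τ u v₀ g else 0) ≤
        ENNReal.ofReal (C * (2 : ℝ) ^ (-((v₀ : ℝ) / 8))) * ∫⁻ x, ‖g x‖ₑ ^ 2

/-- ENS (about 300 lines), the energies of one class.  `bz .. y = bo .. (y - 2^k ce)`, so by TRA (first, `o = 0`: `gk i (pr s w) = gk i (0 + pr s w)`) `EN s (gk i (pr s (2^k ce))) Γ a ℓ (bz ..) = EN s (gk i 0) Γ a ℓ (bo ..)`.  If `q ≤ Wv τ u j v` then `v ≤ u` (as `1 ≤ q`), `ℓ - a = 24 q + Wv ≤ 25 Wv ≤ 33 (Wt + 2) = Tj`, so by TRA (second) the energy is at most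
`EN s (gk i 0) Γ (ℓ - Tj) ℓ (bo ..)`, `ℓ = k + 24 q`.  For fixed `j, v, i`: LOW with `b k = bo τ u (32 q) η k j g`, `ℓ₀ = 24 q`, `T = Tj τ u v j` (finiteness: TRA fourth, SHQ first and fourth, `∫ g² < ∞`), TRA third with `ϖ = om3 v l`: `∑_k EN ≤ Γ ∑_l 2^(-l) (32/η²) ∑_k ∫ [|Zo_k - Zo_(k+2^l Tj)|²/ϖ + ϖ (|Zo_k|² + |Zo_(k+2^l Tj)|²)]`;
sum over `j < 2^u`: SHQ (first and second clause): `≤ (32 Γ/η²) ∑_l 2^(-l) [C BQ τ u v l g/ϖ + 2 C ϖ BQ0 τ u g]`; multiply by `2^v`, sum over `i < 2` and `v ∈ [v₀, u]`.  (`bo` is measurable: continuous, YC.)  Hypotheses: hYC, hYB, hSYS (RG), hGPG (EP), hGR, hLOW, hTRA, hSHQ. -/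
def StENS : Prop :=
  ∀ (φ τ : ℝ → ℝ) (A : ℝ) (c : Pl), Graph φ τ → 0 < A → GapP A 3 τ → ∃ C : ℝ, 1 ≤ C ∧
    ∀ (u q v₀ : ℕ) (η Γ : ℝ) (g : Pl → ℝ), 2 ≤ u → 1 ≤ q → 1 ≤ v₀ → 0 < η → η ≤ 1 → 0 ≤ Γ → BB g →
      (∀ x, 0 ≤ g x ∧ g x ≤ 1) →
      ∑' k : ℤ, EC c φ τ u q v₀ η Γ k g ≤ ENNReal.ofReal (C * Γ / η ^ 2) * EX τ u v₀ g

/-- WIK (about 300 lines), one class, one window, one scale `k`.  RDT with `N = 2^u`, `s = sl τ u`, `o j = pr (sl τ u j) (2^k ce)`, `b j = bz c φ τ u (32q) η k j g`, `Et j = {7η/16 < |Zc|}`, `Er j = Ez j`, `p = k + 20q`, `ℓ = k + 24q`, `L₂ = 2^(k+28q)`, `i₀ = q`, `v₁ = u`, `W j v = Wv τ u j v`, `nst = m/200`, `δ = 384·2^(-4q)/η`.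
Ridge property: `y' = y + lam E s` with `|lam| = |y 0 - y' 0| ≤ 24 L₂`, so (YC, `2^k 2^(32q)`) `|Zc y - Zc y'| ≤ 48·2^(-4q) ≤ η/16` (`η ≥ 2^(-q)`, `3q ≥ 10`): if `|Zc y| > 7η/16` then `|Zc y'| > 3η/8` and `b = 1`; if `b y > 0` then `|Zc y| > η/4`, `|Zc y'| > η/8`; `|b y - b y'| ≤ 8·48·2^(-4q)/η = δ`, `2^(u+1) δ ≤ 1` as `u + 10 ≤ 3q`.
`100·2^p ≤ 2^(-q) 2^ℓ` (`3q ≥ 7`), `2^u 2^ℓ ≤ 2^(-2q) L₂` (`u ≤ 2q`), `2^u 2^k ≤ L₂`.  Counting: for `v ≤ u`, `W j v = Wt τ u (2^v) (sl τ u j) + 2` and `nn τ u (sl τ u j) (Wt + 2) < 2^v` (WT (1), `v ≥ 1`); `v = u + 1`: at most `2^u` indices.  `bz` has compact support and is continuous (YC, `BB`: `Z` of a function with compact support has compact support, YB).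
`Hw` with `η/2`: `η/2 ≤ |Zc x|` implies `x ∈ Et j`.  Hypotheses: hYC, hYB, hSYS (RG), hWT (EQ), hGPG (EP), hRDT, hTRA. -/
def StWIK : Prop :=
  ∀ (φ τ : ℝ → ℝ) (A : ℝ) (c : Pl), Graph φ τ → 0 < A → GapP A 3 τ → ∃ C : ℝ, 1 ≤ C ∧
    ∀ (u q v₀ : ℕ) (η D m : ℝ) (k : ℤ) (g : Pl → ℝ) (R : Set Pl), 2 ≤ u → u + 10 ≤ 2 * q → 1 ≤ v₀ → v₀ ≤ u + 1 →
      (2 : ℝ) ^ (-(q : ℤ)) ≤ η → η ≤ 1 → BB g → (∀ x, 0 ≤ g x ∧ g x ≤ 1) → 1000 ≤ m → 0 < D → 4000 * D ≤ m →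
      (∀ j < 2 ^ u, 200 * (nn τ u (sl τ u j) q : ℝ) ≤ m) →
      (∀ x ∈ R, m ≤ ((Hw c φ τ u (32 * q) (η / 2) k g x).ncard : ℝ) ∧
        Dens (Ez c φ τ u (32 * q) η k g) (2 ^ u) x (2 * (2 : ℝ) ^ (k + 20 * (q : ℤ))) D ∧
        Dens (Ez c φ τ u (32 * q) η k g) (2 ^ u) x (5 * (2 : ℝ) ^ (k + 24 * (q : ℤ)) / 2) D) →
      volume R ≤ ENNReal.ofReal (C * D / m ^ 3 * (2 : ℝ) ^ v₀) *
          (∑' n : ℤ × ℤ, {n : ℤ × ℤ | (R ∩ Sq (zg ((2 : ℝ) ^ (k + 28 * (q : ℤ))) n)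
            ((2 : ℝ) ^ (k + 28 * (q : ℤ)) / 2)).Nonempty}.indicator
            (fun n => ∑ j ∈ Finset.range (2 ^ u), volume (Ez c φ τ u (32 * q) η k g j ∩
              Sq (zg ((2 : ℝ) ^ (k + 28 * (q : ℤ))) n) (12 * (2 : ℝ) ^ (k + 28 * (q : ℤ))))) n) +
        ENNReal.ofReal (C * D ^ 2 / m ^ 4) * EC c φ τ u q v₀ η (m / (125 * D)) k g

/-- WIG (about 200 lines), one class, one window, all scales.  WIK for every `k`; OVL (second): the sum over `n` is at most `625 ∑_j vol (Ez j)`; Chebyshev `vol (Ez j) ≤ (64/η²) ∫ ‖Zc‖²`, SHQ (third): `∑_k ∑_j ≤ (64 C/η²) BQ0`; ENS with `Γ = m/(125 D)`: `(D²/m⁴)(m/D) = D/m³`.  Hypotheses: hWIK, hOVL, hSHQ, hENS (and hYC for measurability). -/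
def StWIG : Prop :=
  ∀ (φ τ : ℝ → ℝ) (A : ℝ) (c : Pl), Graph φ τ → 0 < A → GapP A 3 τ → ∃ C : ℝ, 1 ≤ C ∧
    ∀ (u q v₀ : ℕ) (η D m : ℝ) (g : Pl → ℝ) (R : ℤ → Set Pl), 2 ≤ u → u + 10 ≤ 2 * q → 1 ≤ v₀ → v₀ ≤ u + 1 →
      (2 : ℝ) ^ (-(q : ℤ)) ≤ η → η ≤ 1 → BB g → (∀ x, 0 ≤ g x ∧ g x ≤ 1) → 1000 ≤ m → 0 < D → 4000 * D ≤ m →
      (∀ j < 2 ^ u, 200 * (nn τ u (sl τ u j) q : ℝ) ≤ m) →
      (∀ k : ℤ, ∀ x ∈ R k, m ≤ ((Hw c φ τ u (32 * q) (η / 2) k g x).ncard : ℝ) ∧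
        Dens (Ez c φ τ u (32 * q) η k g) (2 ^ u) x (2 * (2 : ℝ) ^ (k + 20 * (q : ℤ))) D ∧
        Dens (Ez c φ τ u (32 * q) η k g) (2 ^ u) x (5 * (2 : ℝ) ^ (k + 24 * (q : ℤ)) / 2) D) →
      ∑' k : ℤ, volume (R k) ≤ ENNReal.ofReal (C * D / (m ^ 3 * η ^ 2)) *
        (ENNReal.ofReal ((2 : ℝ) ^ v₀) * BQ0 τ u g + EX τ u v₀ g)

/-- WIA (about 250 lines), one class, one window, all scales, in terms of a second family `S k j`, `j < N'`, which has density at least `D₂` near the points of `R k`.  `L₂ = 2^(k+28q)`.  WIK for every `k`; if `x ∈ R k ∩ Sq (zg L₂ n) (L₂/2)` then `Sq (zg L₂ n) (12 L₂) ⊆ Sq x (24 L₂)`, so the term of the index `n` is at most `D (24 L₂)²` (third `Dens`); OVL (last) with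
`r = 4·2^(k+32q) ≥ L₂`, `D ↦ D₂/16`: `∑_n L₂² ≤ (1024/D₂) ∑_j vol (S k j)`.  The energies: ENS as in WIG.  Hypotheses: hWIK, hOVL, hENS. -/
def StWIA : Prop :=
  ∀ (φ τ : ℝ → ℝ) (A : ℝ) (c : Pl), Graph φ τ → 0 < A → GapP A 3 τ → ∃ C : ℝ, 1 ≤ C ∧
    ∀ (u q v₀ N' : ℕ) (η D m D₂ : ℝ) (g : Pl → ℝ) (R : ℤ → Set Pl) (S : ℤ → ℕ → Set Pl), 2 ≤ u → u + 10 ≤ 2 * q →
      1 ≤ v₀ → v₀ ≤ u + 1 → (2 : ℝ) ^ (-(q : ℤ)) ≤ η → η ≤ 1 → BB g → (∀ x, 0 ≤ g x ∧ g x ≤ 1) → 1000 ≤ m → 0 < D →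
      4000 * D ≤ m → 0 < D₂ → (∀ j < 2 ^ u, 200 * (nn τ u (sl τ u j) q : ℝ) ≤ m) →
      (∀ (k : ℤ), ∀ j < N', MeasurableSet (S k j)) →
      (∀ k : ℤ, ∀ x ∈ R k, m ≤ ((Hw c φ τ u (32 * q) (η / 2) k g x).ncard : ℝ) ∧
        Dens (Ez c φ τ u (32 * q) η k g) (2 ^ u) x (2 * (2 : ℝ) ^ (k + 20 * (q : ℤ))) D ∧
        Dens (Ez c φ τ u (32 * q) η k g) (2 ^ u) x (5 * (2 : ℝ) ^ (k + 24 * (q : ℤ)) / 2) D ∧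
        Dens (Ez c φ τ u (32 * q) η k g) (2 ^ u) x (24 * (2 : ℝ) ^ (k + 28 * (q : ℤ))) D ∧
        ENNReal.ofReal (D₂ * (4 : ℝ) ^ (k + 32 * (q : ℤ))) ≤
          ∑ j ∈ Finset.range N', volume (S k j ∩ Sq x (4 * (2 : ℝ) ^ (k + 32 * (q : ℤ))))) →
      ∑' k : ℤ, volume (R k) ≤ ENNReal.ofReal (C * D ^ 2 * (2 : ℝ) ^ v₀ / (m ^ 3 * D₂)) *
          (∑' k : ℤ, ∑ j ∈ Finset.range N', volume (S k j)) +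
        ENNReal.ofReal (C * D / (m ^ 3 * η ^ 2)) * EX τ u v₀ g

end Pool.Agent.Helper61.P3
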