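import Pool.Agent.Helper61.P3.St3
import Pool.Agent.Helper61.P3.Defs4

/-!
# Project P3 (MP_cb927e_an): interface statements, part 4 (pigeonhole and summation; the statement MANY)

Throughout `κ = 10000`.  `Hh ..` has at most `2^u` elements.
-/

set_option autoImplicit false

open MeasureTheory Set Filter Topology
open scoped ENNReal RealInnerProductSpace

namespace Pool.Agent.Helper61.P3

open Pool.Agent.Helper68.LM (Pl BB Bd Av HL ft fm DQ)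
open Pool.Agent.Helper20.RG
open Pool.Agent.Helper20.EQ
open Pool.Agent.Helper68.EP (elt GapP)

/-- PG3 (about 250 lines), pigeonhole.  Suppose that none of the three alternatives holds.  `∑_{i ≥ 2} Vs i = (1/16) ∑_{m ≥ 3} m^(-2) ≤ 1/32` (`m^(-2) ≤ 1/(m(m-1))`), so there is a least `i₀ ≥ 2` with `Vs i₀ ≤ v i₀` (otherwise the sum is `≤ 1/32 < 1/2`).  For `i < i₀` (`i ≥ 2`) `v i < Vs i`; for `i > 9 i₀` also `v i < Vs i` (third alternative,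
`s = i - i₀ > 8 i₀`).  Let `i₁` be an index in `[i₀, 9 i₀]` where `v` is maximal; `v i₁ < 1/16` (first alternative).  For `i ≠ i₁` in `[i₀, 9 i₀]`: `v i < Vs |i - i₁|`, otherwise `v i₁ ≥ v i ≥ Vs |i - i₁|` and the second alternative holds with the smaller one of `i, i₁` and `s = |i - i₁| ≤ 8 i₀`.
Sum: `≤ 1/32 + 1/16 + (1/16)·2·∑_{m ≥ 2} m^(-2) ≤ 1/32 + 1/16 + 1/8 < 1/2`.  Hypotheses: none. -/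
def StPG3 : Prop :=
  ∀ v : ℕ → ℝ≥0∞, ENNReal.ofReal (1 / 2) ≤ ∑' u : ℕ, (if 2 ≤ u then v u else 0) →
    (∃ i : ℕ, 2 ≤ i ∧ ENNReal.ofReal (1 / 16) ≤ v i) ∨
    (∃ i s : ℕ, 2 ≤ i ∧ 1 ≤ s ∧ s ≤ 8 * i ∧ ENNReal.ofReal (Vs s) ≤ v i ∧ ENNReal.ofReal (Vs s) ≤ v (i + s)) ∨
    (∃ i s : ℕ, 2 ≤ i ∧ 8 * i < s ∧ ENNReal.ofReal (Vs i) ≤ v i ∧ ENNReal.ofReal (Vs (i + s)) ≤ v (i + s))

/-- TYP (about 200 lines), types.  `g_n = lev f (l - 1 + n)` has values in `[0,1]` (GDL, first clause), so `|Zc .. g_n x| ≤ 1` (`Y` of a function with values in `[0,1]` is in `[0,1]`, YB).  If `z = |Zc .. g_n x| ≠ 0` there is `ρ` with `2^(-ρ-1) < z ≤ 2^(-ρ)`, and then `j ∈ Hh c φ τ u ρ k g_n x`: so `z ≤ ∑_ρ 2^(-ρ) 1[j ∈ Hh ..]`, and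
`HtM ≤ 2^(-u) ∑_{n : 10000 n < u} 2^n ∑_ρ 2^(-ρ) #Hh c φ τ u ρ k g_n x`.  If all these numbers are `< mt V u n ρ`, the right side is at most `(V/22000) ∑_n ∑_ρ 2^(-(n+ρ)/100) = (V/22000) (1 - 2^(-1/100))^(-2) ≤ (148²/22000) V < V` (`2^(-1/100) ≤ 147/148` as `(147/148)^100 ≥ 1/2`).  Hypotheses: hYB (RG), hGDL (EQ). -/
def StTYP : Prop :=
  ∀ (φ τ : ℝ → ℝ) (c : Pl), Graph φ τ → ∀ (V : ℝ) (u : ℕ) (k l : ℤ) (f : Pl → ℝ) (x : Pl), 0 < V → BB f →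
    (∀ x, 0 ≤ f x) → ENNReal.ofReal V ≤ HtM c φ τ 10000 u k l f x → ∃ n ρ : ℕ, TY c φ τ V u n ρ k l f x

/-- NUC (about 250 lines), numbers; `U₀` is any large number.  `mt V u n ρ = (V/22000) 2^u 2^(0.99 ρ - 1.01 n)`.
First: `mt ≤ 2^(u+1)` gives `0.99 ρ ≤ 1.01 n + log₂(44000) + log₂(1/V) ≤ 1.01 u/10000 + 16 + u/20000`, so `ρ ≤ u/1000` for large `u`; `mt/2 ≥ 2^(u - 1.01 u/10000 - u/20000 - 16) ≥ 2^(u - u/2000)` for large `u`; `2n - 2 ≤ u`.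
Second: `16 (1+8u)² ≤ 2^(u/20000)` for large `u`.  Third: `mt ≤ 2^u`: `0.99 ρ ≤ 1.01 s/40000 + log₂(22000·16 (1+s)²) ≤ 0.99 s/20000` for large `s`; `mt ≥ 2^(u - 1.01 s/40000 - log₂(22000·16 (1+s)²)) ≥ 2^(u - s/20000)` for large `s`; `2n - 2 ≤ s/20000`.  Hypotheses: none. -/
def StNUC : Prop :=
  ∃ U₀ : ℕ, 2 ≤ U₀ ∧
    (∀ (V : ℝ) (u n ρ : ℕ), U₀ ≤ u → 10000 * n < u → (2 : ℝ) ^ (-((u : ℝ) / 20000)) ≤ V → V ≤ 1 →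
      mt V u n ρ ≤ (2 : ℝ) ^ (u + 1) →
      1000 * ρ ≤ u ∧ (2 : ℝ) ^ ((1999 / 2000 : ℝ) * u) ≤ mt V u n ρ / 2 ∧
        (2 : ℝ) ^ (-(u : ℝ)) ≤ (4 : ℝ) ^ (1 - (n : ℤ)) ∧ (4 : ℝ) ^ (1 - (n : ℤ)) ≤ 4) ∧
    (∀ s u : ℕ, U₀ ≤ u → s ≤ 8 * u → (2 : ℝ) ^ (-((u : ℝ) / 20000)) ≤ Vs s ∧ Vs s ≤ 1) ∧
    ∀ s u n ρ : ℕ, U₀ ≤ s → 40000 * n ≤ s → mt (Vs s) u n ρ ≤ (2 : ℝ) ^ u →
      20000 * ρ ≤ s ∧ (2 : ℝ) ^ ((u : ℝ) - s / 20000) ≤ mt (Vs s) u n ρ ∧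
        (2 : ℝ) ^ (-((s : ℝ) / 20000)) ≤ (4 : ℝ) ^ (1 - (n : ℤ)) ∧ (4 : ℝ) ^ (1 - (n : ℤ)) ≤ 4

/-- RIY (about 100 lines), change of the index of summation, as RIX of project EQ.  `l = j + 1 - n`: `2^(3l) = 8·2^(-3n) 2^(3j)`; for every `j` the hypothesis with `g = lev f j` (GDL, first clause), and then the last clause of GDL with `p = 3`.  Hypotheses: hGDL (EQ). -/
def StRIY : Prop :=
  ∀ (B : ℝ) (X : ℕ → (Pl → ℝ) → ℝ≥0∞), 0 ≤ B →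
    (∀ g : Pl → ℝ, BB g → (∀ x, 0 ≤ g x ∧ g x ≤ 1) → ∑' u : ℕ, X u g ≤ ENNReal.ofReal B * ∫⁻ x, ‖g x‖ₑ ^ 2) →
    ∀ (f : Pl → ℝ) (n : ℕ), BB f → (∀ x, 0 ≤ f x) →
      ∑' l : ℤ, ENNReal.ofReal ((2 : ℝ) ^ (3 * l)) * ∑' u : ℕ, X u (lev f (l - 1 + n)) ≤
        ENNReal.ofReal (8 * (2 : ℝ) ^ (-(3 * (n : ℤ))) * B) * ∫⁻ x, ENNReal.ofReal (f x) ^ (3 : ℝ)

/-- MPT (about 200 lines), the alternatives at a point.  PG3 with `v u = HtM c φ τ 10000 u k l f x`.  `Vs` is decreasing, `Vs s ≤ 1/16`.  (A), and (B) with `s < U₁` or `i < U₁` (then `s ≤ 8 i < 8 U₁`), and (C) with `i < U₁`: `Vs (8 U₁) ≤ v i`, and TYP gives the first alternative with `u = i`.  (B) with `s, i ≥ U₁`: TYP with `V = Vs s` for the classes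
`i` and `i + s` gives types `(n, ρ)`, `(n', ρ')`; if `s < 40000 n` the second alternative with `u = i`; if `s < 40000 n'` the second one with `u = i + s`; otherwise the third one.  (C) with `i ≥ U₁`: TYP with `V = Vs i` for `i`, with `V = Vs (i+s)` for `i + s`; `Hh c φ τ i ρ k g x ⊆ NP c φ τ i (et ρ) k g x ∪ HP c φ τ i (et ρ) k g x` (`et ρ = 2^(-(ρ+1))`),
so one of the two has at least `mt/2` elements: fourth or fifth alternative.  Hypotheses: hPG3, hTYP. -/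
def StMPT : Prop :=
  ∀ (φ τ : ℝ → ℝ) (c : Pl), Graph φ τ → ∀ (U₁ : ℕ) (k l : ℤ) (f : Pl → ℝ) (x : Pl), 2 ≤ U₁ → BB f →
    (∀ x, 0 ≤ f x) →
    ENNReal.ofReal (1 / 2) ≤ ∑' u : ℕ, (if 2 ≤ u then HtM c φ τ 10000 u k l f x else 0) →
    (∃ u n ρ : ℕ, 2 ≤ u ∧ TY c φ τ (Vs (8 * U₁)) u n ρ k l f x) ∨
    (∃ s u n ρ : ℕ, U₁ ≤ u ∧ s ≤ 8 * u ∧ s < 40000 * n ∧ TY c φ τ (Vs s) u n ρ k l f x) ∨
    (∃ s u n n' ρ ρ' : ℕ, U₁ ≤ s ∧ U₁ ≤ u ∧ s ≤ 8 * u ∧ 40000 * n ≤ s ∧ 40000 * n' ≤ s ∧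
      TY c φ τ (Vs s) u n ρ k l f x ∧ TY c φ τ (Vs s) (u + s) n' ρ' k l f x) ∨
    (∃ u n ρ : ℕ, U₁ ≤ u ∧ 10000 * n < u ∧
      mt (Vs u) u n ρ / 2 ≤ ((NP c φ τ u (et ρ) k (lev f (l - 1 + n)) x).ncard : ℝ)) ∨
    (∃ s u n n' ρ ρ' : ℕ, U₁ ≤ u ∧ 8 * u < s ∧ 10000 * n < u ∧
      mt (Vs u) u n ρ / 2 ≤ ((HP c φ τ u (et ρ) k (lev f (l - 1 + n)) x).ncard : ℝ) ∧
      TY c φ τ (Vs (u + s)) (u + s) n' ρ' k l f x)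

/-- SU0 (about 200 lines), small classes.  `TY` gives `10000 n < u < U` and `(V/22000) 2^(0.99 ρ - 1.01 n) ≤ 1` (`#Hh ≤ 2^u`), so only finitely many triples `(u, n, ρ)` occur.  For each of them `mt > 0`, so `Hh` is nonempty; Chebyshev and SHQ (third and fourth clause):
`∑_k vol {x : Hh nonempty} ≤ 4^(ρ+1) ∑_k ∑_j ∫ ‖Zc .. g‖² ≤ 4^(ρ+1) C² 2^(3u) ∫ g²`, and RIY (`X u' g` is this number for `u' = u` and `0` otherwise).  Hypotheses: hRIY, hSHQ. -/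
def StSU0 : Prop :=
  ∀ (φ τ : ℝ → ℝ) (A : ℝ) (c : Pl), Graph φ τ → 0 < A → GapP A 3 τ → ∀ (V : ℝ) (U : ℕ), 0 < V →
    ∃ C : ℝ, 1 ≤ C ∧ ∀ f : Pl → ℝ, BB f → (∀ x, 0 ≤ f x) →
      ∑' l : ℤ, ENNReal.ofReal ((2 : ℝ) ^ (3 * l)) * volume {x | ∃ (k : ℤ) (u n ρ : ℕ), 2 ≤ u ∧ u < U ∧
        TY c φ τ V u n ρ k l f x} ≤ ENNReal.ofReal C * ∫⁻ x, ENNReal.ofReal (f x) ^ (3 : ℝ)

/-- SUT (about 300 lines), one class, fixed type.  If `10000 n < u` fails or `mt V u n ρ > 2^u` the set is empty; the second condition means `(V/22000) 2^(0.99 ρ - 1.01 n) > 1` and does not depend on `u`; so let `2^(0.99 ρ) ≤ (22000/V) 2^(1.01 n)`.  `Gd R₀ l f x` gives `Loc C (4^(1-n)) (lev f (l-1+n)) x` (GDL, `j = l - 1 + n`, `C` the constant of ONC,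
`2C ≤ R₀`).  NUC: the conditions of ONC hold with `Λ = 4^(1-n)`, `m = mt V u n ρ`, `G = {x | Gd R₀ l f x}`: `∑_k vol ≤ C 4^(1-n) 16^ρ mt^(-3) (BQ0 + EX 1) + C 2^(-u/20) ∫ g²`, and `4^(-n) 16^ρ mt^(-3) = (22000/V)³ 2^(-3u) 2^(1.03 (n+ρ))`; QSU: `∑_u 2^(-3u) (BQ0 + EX 1) ≤ C ∫ g²`; `∑ 2^(-u/20)` over the `u` with `10000 n < u`, `1000 ρ ≤ u` is at most
`C 2^(-(2n+ρ)/4)` (`u/40 ≥ (10000 n + 1000 ρ)/80 ≥ (2n+ρ)/4`).  RIY with `B = C V^(-3) 2^(1.03 (n+ρ)) + C 2^(-(2n+ρ)/4)`, and `2^(-3n) 2^(1.03 (n+ρ)) = 2^(-(2n+ρ)/4) 2^(1.28 ρ - 1.47 n)`, `2^(1.28 ρ) ≤ (2^(0.99 ρ))^(4/3) ≤ (22000/V)^(4/3) 2^(1.47 n)`, `V^(-3-4/3) ≤ V^(-6)`.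
Hypotheses: hGDL (EQ), hRIY, hNUC, hONC, hQSU. -/
def StSUT : Prop :=
  ∀ (φ τ : ℝ → ℝ) (A : ℝ) (c : Pl), Graph φ τ → 0 < A → GapP A 3 τ → ∃ (C : ℝ) (U₀ : ℕ), 1 ≤ C ∧ 2 ≤ U₀ ∧
    ∀ (V R₀ : ℝ) (n ρ : ℕ) (f : Pl → ℝ), 0 < V → V ≤ 1 → C ≤ R₀ → BB f → (∀ x, 0 ≤ f x) →
      ∑' l : ℤ, ENNReal.ofReal ((2 : ℝ) ^ (3 * l)) * ∑' u : ℕ, (if U₀ ≤ u ∧ (2 : ℝ) ^ (-((u : ℝ) / 20000)) ≤ V then
        ∑' k : ℤ, volume {x | Gd R₀ l f x ∧ TY c φ τ V u n ρ k l f x} else 0) ≤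
        ENNReal.ofReal (C / V ^ 6 * (2 : ℝ) ^ (-((2 * (n : ℝ) + ρ) / 4))) * ∫⁻ x, ENNReal.ofReal (f x) ^ (3 : ℝ)

/-- SON (about 200 lines), one class, fixed `V`.  `U₀` from SUT, `U ≥ U₀` with `2^(-U/20000) ≤ V`.  The part `u < U`: SU0.  The part `u ≥ U`: outer measure, SUT for all `n, ρ`, `∑_{n,ρ} 2^(-(2n+ρ)/4) < ∞`.  Hypotheses: hSU0, hSUT. -/
def StSON : Prop :=
  ∀ (φ τ : ℝ → ℝ) (A : ℝ) (c : Pl), Graph φ τ → 0 < A → GapP A 3 τ → ∀ V : ℝ, 0 < V → V ≤ 1 →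
    ∃ C : ℝ, 1 ≤ C ∧ ∀ (R₀ : ℝ) (f : Pl → ℝ), C ≤ R₀ → BB f → (∀ x, 0 ≤ f x) →
      ∑' l : ℤ, ENNReal.ofReal ((2 : ℝ) ^ (3 * l)) * volume {x | Gd R₀ l f x ∧ ∃ (k : ℤ) (u n ρ : ℕ), 2 ≤ u ∧
        TY c φ τ V u n ρ k l f x} ≤ ENNReal.ofReal C * ∫⁻ x, ENNReal.ofReal (f x) ^ (3 : ℝ)

/-- SBN (about 200 lines), one class, large `n`.  For `s ≤ 8u`, `u ≥ U₀` (from SUT and NUC) `2^(-u/20000) ≤ Vs s ≤ 1` (NUC).  SUT with `V = Vs s` for all `s`, `n` with `s < 40000 n`, `ρ`; `(Vs s)^(-6) = (16 (1+s)²)^6` and `∑_s (1+s)^12 ∑_{n > s/40000} 2^(-n/2) ∑_ρ 2^(-ρ/4) ≤ C ∑_s (1+s)^12 2^(-s/80000) < ∞`.  Hypotheses: hSUT, hNUC. -/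
def StSBN : Prop :=
  ∀ (φ τ : ℝ → ℝ) (A : ℝ) (c : Pl), Graph φ τ → 0 < A → GapP A 3 τ → ∃ (C : ℝ) (U₀ : ℕ), 1 ≤ C ∧
    ∀ (R₀ : ℝ) (f : Pl → ℝ), C ≤ R₀ → BB f → (∀ x, 0 ≤ f x) →
      ∑' l : ℤ, ENNReal.ofReal ((2 : ℝ) ^ (3 * l)) * volume {x | Gd R₀ l f x ∧ ∃ (k : ℤ) (s u n ρ : ℕ), U₀ ≤ u ∧
        s ≤ 8 * u ∧ s < 40000 * n ∧ TY c φ τ (Vs s) u n ρ k l f x} ≤
        ENNReal.ofReal C * ∫⁻ x, ENNReal.ofReal (f x) ^ (3 : ℝ)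

/-- NES (about 300 lines), near pairs, fixed `s` and types.  `U₀ ≥ 2100`, the `U₀` of NEA and NUC.  If `mt (Vs s) u n ρ > 2^u` or `mt (Vs s) (u+s) n' ρ' > 2^(u+s)` the sets are empty (both conditions do not depend on `u`); otherwise NUC (third clause, for `(u, n, ρ)` and `(u+s, n', ρ')`) gives `20000 ρ, 20000 ρ' ≤ s` and all conditions of NEA with
`m = mt (Vs s) u n ρ`, `m' = mt (Vs s) (u+s) n' ρ'`, `g = lev f (l-1+n)`, `g' = lev f (l-1+n')`, `Λ = 4^(1-n)`, `Λ' = 4^(1-n')`, `G = {x | Gd R₀ l f x}` (GDL as in SUT).  RIY for `g`: `X u g = C 2^(-s/8) 2^(-3u) BQ0 + C 2^(s/100) 2^(-3u) EX τ u (s/4) g + C 2^(-u/20) ∫ g²` (`u ≥ max(U₀, s/8)`), for `g'`: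
`X u g' = C 2^(s/100) 2^(-3(u+s)) EX τ (u+s) (s/4) g' + C 2^(-u/20) ∫ g'²`.  QSU (`s/4 ≥ 1`; `2^(-(s/4)/8) ≤ 2·2^(-s/32)` for the natural number `s/4`), `∑_{u ≥ s/8} 2^(-u/20) ≤ C 2^(-s/160)`: `B = C (2^(-s/8) + 2^(s/100 - s/32) + 2^(-s/160))`.  Hypotheses: hGDL (EQ), hRIY, hNUC, hNEA, hQSU. -/
def StNES : Prop :=
  ∀ (φ τ : ℝ → ℝ) (A : ℝ) (c : Pl), Graph φ τ → 0 < A → GapP A 3 τ → ∃ (C : ℝ) (U₀ : ℕ), 1 ≤ C ∧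
    ∀ (R₀ : ℝ) (s n n' ρ ρ' : ℕ) (f : Pl → ℝ), C ≤ R₀ → U₀ ≤ s → 40000 * n ≤ s → 40000 * n' ≤ s → BB f →
      (∀ x, 0 ≤ f x) →
      ∑' l : ℤ, ENNReal.ofReal ((2 : ℝ) ^ (3 * l)) * ∑' u : ℕ, (if U₀ ≤ u ∧ s ≤ 8 * u then
        ∑' k : ℤ, volume {x | Gd R₀ l f x ∧ TY c φ τ (Vs s) u n ρ k l f x ∧
          TY c φ τ (Vs s) (u + s) n' ρ' k l f x} else 0) ≤
        (if 20000 * ρ ≤ s ∧ 20000 * ρ' ≤ s then ENNReal.ofReal (C * (2 : ℝ) ^ (-((s : ℝ) / 160))) else 0) *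
          ∫⁻ x, ENNReal.ofReal (f x) ^ (3 : ℝ)

/-- SNE (about 150 lines), near pairs.  Outer measure, NES, and `∑_s (s+1)^4 2^(-s/160) < ∞`.  Hypotheses: hNES. -/
def StSNE : Prop :=
  ∀ (φ τ : ℝ → ℝ) (A : ℝ) (c : Pl), Graph φ τ → 0 < A → GapP A 3 τ → ∃ (C : ℝ) (U₀ : ℕ), 1 ≤ C ∧
    ∀ (R₀ : ℝ) (f : Pl → ℝ), C ≤ R₀ → BB f → (∀ x, 0 ≤ f x) →
      ∑' l : ℤ, ENNReal.ofReal ((2 : ℝ) ^ (3 * l)) * volume {x | Gd R₀ l f x ∧ ∃ (k : ℤ) (s u n n' ρ ρ' : ℕ),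
        U₀ ≤ s ∧ U₀ ≤ u ∧ s ≤ 8 * u ∧ 40000 * n ≤ s ∧ 40000 * n' ≤ s ∧
          TY c φ τ (Vs s) u n ρ k l f x ∧ TY c φ τ (Vs s) (u + s) n' ρ' k l f x} ≤
        ENNReal.ofReal C * ∫⁻ x, ENNReal.ofReal (f x) ^ (3 : ℝ)

/-- SNP (about 200 lines), many hits which do not persist.  If `mt (Vs u) u n ρ/2 > 2^u` the set is empty; otherwise NUC (first and second clause, `V = Vs u`): `1000 ρ ≤ u`, `2^(1999u/2000) ≤ mt/2`.  PES with `η = et ρ`, `m = mt/2`: `C 2^(7u/8)/(m η²) ≤ 4 C 2^(7u/8 - 1999u/2000 + 2ρ) ≤ 4 C 2^(-u/10)`.  For fixed `n, ρ` RIY with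
`X u g = 4 C 2^(-u/10) ∫ g²` (`u ≥ U₀`, `10000 n < u`, `1000 ρ ≤ u`; otherwise `0`), `B = C 2^(-(n+ρ))` as `u/20 ≥ (10000 n + 1000 ρ)/40 ≥ n + ρ`.  Sum over `n, ρ`.  Hypotheses: hRIY, hNUC, hPES, hGDL (EQ). -/
def StSNP : Prop :=
  ∀ (φ τ : ℝ → ℝ) (A : ℝ) (c : Pl), Graph φ τ → 0 < A → GapP A 3 τ → ∃ (C : ℝ) (U₀ : ℕ), 1 ≤ C ∧
    ∀ f : Pl → ℝ, BB f → (∀ x, 0 ≤ f x) →
      ∑' l : ℤ, ENNReal.ofReal ((2 : ℝ) ^ (3 * l)) * volume {x | ∃ (k : ℤ) (u n ρ : ℕ), U₀ ≤ u ∧ 10000 * n < u ∧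
        mt (Vs u) u n ρ / 2 ≤ ((NP c φ τ u (et ρ) k (lev f (l - 1 + n)) x).ncard : ℝ)} ≤
        ENNReal.ofReal C * ∫⁻ x, ENNReal.ofReal (f x) ^ (3 : ℝ)

/-- FAS (about 250 lines), far pairs, fixed `s` and types.  If `mt (Vs u) u n ρ/2 > 2^u` or `mt (Vs (u+s)) (u+s) n' ρ' > 2^(u+s)` the set is empty; otherwise NUC (first and second clause, for `(u, n, ρ)` and `(u+s, n', ρ')`, `10000 n' < u + s`): `1000 ρ ≤ u`, `1000 ρ' ≤ u + s`, `m = mt (Vs u) u n ρ/2 ≥ 2^(1999u/2000)`,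
`m' = mt (Vs (u+s)) (u+s) n' ρ' ≥ 2^(1999(u+s)/2000)`; so `n, n', ρ, ρ' ≤ s`.  FAR with `Λ' = 4^(1-n')`, `G = {x | Gd R₀ l f x}` (GDL): `C 2^(-s/20) (2^(-3u) BQ0 + ∫ g²)`.  RIY for `g` (`X u g` is this for `U₀ ≤ u < s/8`): QSU, and at most `s` values of `u`: `B = C (s+1) 2^(-s/20)`.  Hypotheses: hGDL (EQ), hRIY, hNUC, hFAR, hQSU. -/
def StFAS : Prop :=
  ∀ (φ τ : ℝ → ℝ) (A : ℝ) (c : Pl), Graph φ τ → 0 < A → GapP A 3 τ → ∃ (C : ℝ) (U₀ : ℕ), 1 ≤ C ∧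
    ∀ (R₀ : ℝ) (s n n' ρ ρ' : ℕ) (f : Pl → ℝ), C ≤ R₀ → BB f → (∀ x, 0 ≤ f x) →
      ∑' l : ℤ, ENNReal.ofReal ((2 : ℝ) ^ (3 * l)) * ∑' u : ℕ, (if U₀ ≤ u ∧ 8 * u < s ∧ 10000 * n < u then
        ∑' k : ℤ, volume {x | Gd R₀ l f x ∧
          mt (Vs u) u n ρ / 2 ≤ ((HP c φ τ u (et ρ) k (lev f (l - 1 + n)) x).ncard : ℝ) ∧
          TY c φ τ (Vs (u + s)) (u + s) n' ρ' k l f x} else 0) ≤
        (if n ≤ s ∧ n' ≤ s ∧ ρ ≤ s ∧ ρ' ≤ s then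
          ENNReal.ofReal (C * ((s : ℝ) + 1) * (2 : ℝ) ^ (-((s : ℝ) / 20))) else 0) *
          ∫⁻ x, ENNReal.ofReal (f x) ^ (3 : ℝ)

/-- SFA (about 150 lines), far pairs.  Outer measure, FAS, and `∑_s (s+1)^5 2^(-s/20) < ∞`.  Hypotheses: hFAS. -/
def StSFA : Prop :=
  ∀ (φ τ : ℝ → ℝ) (A : ℝ) (c : Pl), Graph φ τ → 0 < A → GapP A 3 τ → ∃ (C : ℝ) (U₀ : ℕ), 1 ≤ C ∧
    ∀ (R₀ : ℝ) (f : Pl → ℝ), C ≤ R₀ → BB f → (∀ x, 0 ≤ f x) →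
      ∑' l : ℤ, ENNReal.ofReal ((2 : ℝ) ^ (3 * l)) * volume {x | Gd R₀ l f x ∧ ∃ (k : ℤ) (s u n n' ρ ρ' : ℕ),
        U₀ ≤ u ∧ 8 * u < s ∧ 10000 * n < u ∧
          mt (Vs u) u n ρ / 2 ≤ ((HP c φ τ u (et ρ) k (lev f (l - 1 + n)) x).ncard : ℝ) ∧
          TY c φ τ (Vs (u + s)) (u + s) n' ρ' k l f x} ≤
        ENNReal.ofReal C * ∫⁻ x, ENNReal.ofReal (f x) ^ (3 : ℝ)

/-- MNY (about 150 lines), the statement MANY (`StMANY`).  `κ = 10000`, `U₁` the maximum of `2` and the numbers `U₀` of SBN, SNE, SNP, SFA; SON with `V = Vs (8 U₁)`; `C` the sum of the constants.  MPT: the set is contained in the union of the five sets of SON, SBN, SNE, SNP, SFA.  Hypotheses: hMPT, hSON, hSBN, hSNE, hSNP, hSFA. -/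
def StMNY : Prop := StMANY

end Pool.Agent.Helper61.P3
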